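import Mathlib

/-!
# Characters of finite abelian groups with values in rings `ZMod (p ^ k)`
-/

namespace Pool.Agent.W995.CT

/-- A homomorphism to the additive group of `ZMod q`, with `q` a power of a prime number. -/
structure ChD (G : Type) [Group G] where
  q : ℕ
  hq : ∃ p k : ℕ, p.Prime ∧ q = p ^ k
  chi : G → ZMod q
  mul : ∀ g h, chi (g * h) = chi g + chi h

theorem ChD.one {G : Type} [Group G] (D : ChD G) : D.chi 1 = 0 := by
  have := D.mul 1 1
  rw [mul_one] at this
  simpa using this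

theorem ChD.pos {G : Type} [Group G] (D : ChD G) : 0 < D.q := by
  obtain ⟨p, k, hp, h⟩ := D.hq
  rw [h]
  exact pow_pos hp.pos k

theorem exists_chars {G : Type} [Group G] [Finite G] (hG : ∀ x y : G, x * y = y * x) :
    ∃ (ι : Type) (_ : Fintype ι) (D : ι → ChD G),
      (∀ g h : G, (∀ i, (D i).chi g = (D i).chi h) → g = h) ∧
      ∀ c : ∀ i, ZMod (D i).q, ∃ g : G, ∀ i, (D i).chi g = c i := by
  classical
  letI : CommGroup G := { (inferInstance : Group G) with mul_comm := hG }
  haveI : Finite (Additive G) := inferInstance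
  obtain ⟨ι, hι, p, hp, k, ⟨f⟩⟩ := AddCommGroup.equiv_directSum_zmod_of_finite (Additive G)
  let F : Additive G ≃+ (∀ i : ι, ZMod (p i ^ k i)) :=
    f.trans (DirectSum.addEquivProd fun i => ZMod (p i ^ k i))
  refine ⟨ι, hι, fun i => ⟨p i ^ k i, ⟨p i, k i, hp i, rfl⟩, fun g => F (Additive.ofMul g) i, ?_⟩,
    ?_, ?_⟩
  · intro g h
    have h1 : Additive.ofMul (g * h) = Additive.ofMul g + Additive.ofMul h := rfl
    simp only [h1, map_add, Pi.add_apply]
  · intro g h hgh
    have : F (Additive.ofMul g) = F (Additive.ofMul h) := by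
      funext i
      exact hgh i
    exact Additive.ofMul.injective (F.injective this)
  · intro c
    refine ⟨(F.symm c).toMul, fun i => ?_⟩
    have : F (Additive.ofMul ((F.symm c).toMul)) = c := by
      rw [ofMul_toMul, AddEquiv.apply_symm_apply]
    exact congrFun this i

theorem assoc_pow {p k : ℕ} (hp : p.Prime) (a : ZMod (p ^ k)) :
    ∃ i : ℕ, a ∣ (p : ZMod (p ^ k)) ^ i ∧ (p : ZMod (p ^ k)) ^ i ∣ a := by
  haveI : NeZero (p ^ k) := ⟨(pow_pos hp.pos k).ne'⟩
  obtain ⟨i, _, hi⟩ := (Nat.dvd_prime_pow hp).1 (Nat.gcd_dvd_right a.val (p ^ k))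
  refine ⟨i, ?_, ?_⟩
  · have h1 := Nat.gcd_eq_gcd_ab a.val (p ^ k)
    rw [hi] at h1
    have h2 := congrArg (fun z : ℤ => (z : ZMod (p ^ k))) h1
    push_cast at h2
    rw [ZMod.natCast_zmod_val] at h2
    have h3 : ((p : ZMod (p ^ k)) ^ k) = 0 := by
      have := ZMod.natCast_self (p ^ k)
      push_cast at this
      exact this
    rw [h3, zero_mul, add_zero] at h2
    exact ⟨_, h2⟩
  · have h1 : p ^ i ∣ a.val := hi ▸ Nat.gcd_dvd_left _ _
    obtain ⟨c, hc⟩ := h1
    refine ⟨(c : ZMod (p ^ k)), ?_⟩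
    have h2 := congrArg (fun z : ℕ => (z : ZMod (p ^ k))) hc
    push_cast at h2
    rw [ZMod.natCast_zmod_val] at h2
    exact h2

theorem dvd_total' {q : ℕ} (hq : ∃ p k : ℕ, p.Prime ∧ q = p ^ k) (a b : ZMod q) : a ∣ b ∨ b ∣ a := by
  obtain ⟨p, k, hp, rfl⟩ := hq
  obtain ⟨i, hi1, hi2⟩ := assoc_pow hp a
  obtain ⟨j, hj1, hj2⟩ := assoc_pow hp b
  rcases Nat.le_total i j with h | h
  · exact Or.inl (hi1.trans ((pow_dvd_pow _ h).trans hj2))
  · exact Or.inr (hj1.trans ((pow_dvd_pow _ h).trans hi2))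

/-- A finite nonempty family has an element that divides all the others. -/
theorem exists_pivot {q : ℕ} (hq : ∃ p k : ℕ, p.Prime ∧ q = p ^ k) {β : Type} (f : β → ZMod q) :
    ∀ V : List β, V ≠ [] → ∃ v ∈ V, ∀ w ∈ V, f v ∣ f w
  | [], h => absurd rfl h
  | [a], _ => ⟨a, by simp, by simp⟩
  | a :: b :: V, _ => by
    obtain ⟨v, hv, hv2⟩ := exists_pivot hq f (b :: V) (by simp)
    rcases dvd_total' hq (f a) (f v) with h | h
    · refine ⟨a, by simp, fun w hw => ?_⟩
      rw [List.mem_cons] at hw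
      rcases hw with rfl | hw
      · exact dvd_rfl
      · exact h.trans (hv2 w hw)
    · refine ⟨v, by simp [hv], fun w hw => ?_⟩
      rw [List.mem_cons] at hw
      rcases hw with rfl | hw
      · exact h
      · exact hv2 w hw

/-! ### Elimination of a coordinate -/

section elim

variable {K : Type} [CommRing K]

/-- Removal of the first coordinate. -/
def tailL (K : Type) [CommRing K] : (ℕ → K) →ₗ[K] (ℕ → K) where
  toFun x := fun i => x (i + 1)
  map_add' _ _ := rfl
  map_smul' _ _ := rfl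

theorem tailL_apply (x : ℕ → K) (i : ℕ) : tailL K x i = x (i + 1) := rfl

theorem eq_of_tail {x y : ℕ → K} (h0 : x 0 = y 0) (h : tailL K x = tailL K y) : x = y := by
  funext i
  cases i with
  | zero => exact h0
  | succ i => exact congrFun h i

/-- The vectors after the elimination of the first coordinate with the pivot `v`. -/
def elimS (S : Set (ℕ → K)) (v : ℕ → K) : Set (ℕ → K) :=
  {y | ∃ w ∈ S, ∃ c, c * v 0 = w 0 ∧ y = tailL K (w - c • v)}

theorem mem_span_elim {S : Set (ℕ → K)} {v : ℕ → K} (hv : v ∈ S) (hp : ∀ w ∈ S, v 0 ∣ w 0)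
    {x : ℕ → K} {c : K} (hc : c * v 0 = x 0) :
    x ∈ Submodule.span K S ↔ tailL K (x - c • v) ∈ Submodule.span K (elimS S v) := by
  have hann : ∀ d : K, d * v 0 = 0 → tailL K (d • v) ∈ Submodule.span K (elimS S v) := by
    intro d hd
    refine Submodule.subset_span ⟨v, hv, 1 - d, ?_, ?_⟩
    · rw [sub_mul, hd]; ring
    · congr 1
      rw [sub_smul, one_smul]
      abel
  constructor
  · intro hx
    have key : ∃ c', c' * v 0 = x 0 ∧ tailL K (x - c' • v) ∈ Submodule.span K (elimS S v) := by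
      refine Submodule.span_induction (p := fun x _ => ∃ c', c' * v 0 = x 0 ∧
        tailL K (x - c' • v) ∈ Submodule.span K (elimS S v)) ?_ ?_ ?_ ?_ hx
      · intro w hw
        obtain ⟨c', hc'⟩ := hp w hw
        refine ⟨c', by rw [hc']; ring, Submodule.subset_span ⟨w, hw, c', by rw [hc']; ring, rfl⟩⟩
      · exact ⟨0, by simp, by simp⟩
      · rintro y z _ _ ⟨c1, h1, h2⟩ ⟨c2, h3, h4⟩
        refine ⟨c1 + c2, by rw [add_mul, h1, h3]; rfl, ?_⟩
        have : y + z - (c1 + c2) • v = (y - c1 • v) + (z - c2 • v) := by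
          rw [add_smul]; abel
        rw [this, map_add]
        exact Submodule.add_mem _ h2 h4
      · rintro a y _ ⟨c1, h1, h2⟩
        refine ⟨a * c1, by rw [mul_assoc, h1]; rfl, ?_⟩
        have : a • y - (a * c1) • v = a • (y - c1 • v) := by
          rw [smul_sub, smul_smul]
        rw [this, map_smul]
        exact Submodule.smul_mem _ _ h2
    obtain ⟨c', h1, h2⟩ := key
    have h3 : x - c • v = (x - c' • v) + (c' - c) • v := by
      rw [sub_smul]; abel
    rw [h3, map_add]
    exact Submodule.add_mem _ h2 (hann _ (by rw [sub_mul, h1, hc, sub_self]))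
  · intro hx
    set N : Submodule K (ℕ → K) := Submodule.span K S ⊓ LinearMap.ker (LinearMap.proj 0) with hN
    have h1 : Submodule.span K (elimS S v) ≤ N.map (tailL K) := by
      rw [Submodule.span_le]
      rintro y ⟨w, hw, c', hc', rfl⟩
      refine ⟨w - c' • v, ⟨?_, ?_⟩, rfl⟩
      · exact Submodule.sub_mem _ (Submodule.subset_span hw)
          (Submodule.smul_mem _ _ (Submodule.subset_span hv))
      · rw [SetLike.mem_coe, LinearMap.mem_ker, LinearMap.proj_apply]
        simp [hc']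
    obtain ⟨y, ⟨hy1, hy2⟩, hy3⟩ := h1 hx
    rw [SetLike.mem_coe, LinearMap.mem_ker, LinearMap.proj_apply] at hy2
    have h2 : y = x - c • v := eq_of_tail (by rw [hy2]; simp [hc]) hy3
    have h3 : x = y + c • v := by rw [h2]; abel
    rw [h3]
    exact Submodule.add_mem _ hy1 (Submodule.smul_mem _ _ (Submodule.subset_span hv))

end elim

end Pool.Agent.W995.CT
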