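import Pool.Agent.W995.CT.Basic
import Pool.Agent.W995.CT.Ab1

/-!
# Linear dynamics of controlled networks over abelian groups
-/

namespace Pool.Agent.W995.CT

open Pool.Agent.NPC Pool.Agent.W995.PN

section ch

variable {K : Type} [CommRing K]

/-- The unit vector. -/
def ev (K : Type) [CommRing K] (f : ℕ) : ℕ → K := fun i => if f = i then 1 else 0

/-- Extension by zero. -/
def extL (K : Type) [CommRing K] (n : ℕ) : (Fin n → K) →ₗ[K] (ℕ → K) where
  toFun y := fun i => if h : i < n then y ⟨i, h⟩ else 0
  map_add' x y := by
    funext i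
    by_cases h : i < n <;> simp [h]
  map_smul' c y := by
    funext i
    by_cases h : i < n <;> simp [h]

theorem extL_apply (n : ℕ) (y : Fin n → K) (i : ℕ) :
    extL K n y i = if h : i < n then y ⟨i, h⟩ else 0 := rfl

theorem extL_single {n : ℕ} (j : Fin n) :
    extL K n (fun i => if j = i then 1 else 0) = ev K (j : ℕ) := by
  funext i
  rw [extL_apply]
  unfold ev
  by_cases h : i < n
  · rw [dif_pos h]
    by_cases h2 : (j : ℕ) = i
    · rw [if_pos h2, if_pos (Fin.ext h2)]
    · rw [if_neg h2, if_neg (fun h3 => h2 (by rw [h3]))]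
  · rw [dif_neg h, if_neg]
    have := j.isLt
    omega

variable (A : (ℕ → K) →ₗ[K] (ℕ → K))

/-- The matrix of an operator. -/
def matA (n : ℕ) : Matrix (Fin n) (Fin n) K := fun i j => A (ev K (j : ℕ)) (i : ℕ)

theorem A_extL {n : ℕ} (hA : ∀ y j, n ≤ j → A y j = 0) (y : Fin n → K) :
    A (extL K n y) = extL K n ((matA A n).mulVec y) := by
  have h1 := LinearMap.pi_apply_eq_sum_univ (A.comp (extL K n)) y
  rw [LinearMap.comp_apply] at h1
  simp only [LinearMap.comp_apply, extL_single] at h1
  funext i
  by_cases h : i < n
  · rw [h1, Finset.sum_apply, extL_apply, dif_pos h]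
    unfold Matrix.mulVec dotProduct matA
    refine Finset.sum_congr rfl fun j _ => ?_
    rw [Pi.smul_apply, smul_eq_mul, mul_comm]
  · rw [hA _ _ (by omega), extL_apply, dif_neg h]

theorem iter_extL {n : ℕ} (hA : ∀ y j, n ≤ j → A y j = 0) (y : Fin n → K) (k : ℕ) :
    A^[k] (extL K n y) = extL K n ((matA A n ^ k).mulVec y) := by
  induction k with
  | zero => simp
  | succ k ih =>
    rw [Function.iterate_succ_apply', ih, A_extL A hA, Matrix.mulVec_mulVec, ← pow_succ']

theorem iter_mem_span {n : ℕ} (hA : ∀ y j, n ≤ j → A y j = 0) {f : ℕ} (hf : f < n) (k : ℕ) :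
    A^[k] (ev K f) ∈ Submodule.span K {y | ∃ i < n, y = A^[i] (ev K f)} := by
  rcases subsingleton_or_nontrivial K with hK | hK
  · have : A^[k] (ev K f) = 0 := Subsingleton.elim _ _
    rw [this]
    exact Submodule.zero_mem _
  · have h1 : ev K f = extL K n (fun i => if (⟨f, hf⟩ : Fin n) = i then 1 else 0) :=
      (extL_single ⟨f, hf⟩).symm
    have hne : (matA A n).charpoly ≠ 1 := by
      intro h
      have h2 := Matrix.charpoly_natDegree_eq_dim (matA A n)
      rw [h, Polynomial.natDegree_one, Fintype.card_fin] at h2
      omega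
    have hdeg := Polynomial.natDegree_modByMonic_lt (Polynomial.X ^ k : Polynomial K)
      (Matrix.charpoly_monic (matA A n)) hne
    rw [Matrix.charpoly_natDegree_eq_dim, Fintype.card_fin] at hdeg
    rw [h1, iter_extL A hA, Matrix.pow_eq_aeval_mod_charpoly, Polynomial.aeval_eq_sum_range' hdeg,
      Matrix.sum_mulVec, map_sum]
    refine Submodule.sum_mem _ fun i hi => ?_
    rw [Finset.mem_range] at hi
    rw [Matrix.smul_mulVec, map_smul]
    refine Submodule.smul_mem _ _ (Submodule.subset_span ⟨i, hi, ?_⟩)
    rw [iter_extL A hA]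

end ch

section net

variable {K : Type} [CommRing K] (W : List (Option (List (Bool × ℕ))))

/-- The linear part of the dynamics. -/
def linA (K : Type) [CommRing K] (W : List (Option (List (Bool × ℕ)))) :
    (ℕ → K) →ₗ[K] (ℕ → K) where
  toFun y := fun j => (((W.getD j (some [])).getD []).map fun l => bif l.1 then 0 else y l.2).sum
  map_add' x y := by
    funext j
    simp only [Pi.add_apply]
    induction (W.getD j (some [])).getD [] with
    | nil => simp
    | cons l w ih =>
      simp only [List.map_cons, List.sum_cons]
      rw [ih]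
      cases l.1 <;> simp <;> ring
  map_smul' c y := by
    funext j
    simp only [Pi.smul_apply, RingHom.id_apply, smul_eq_mul]
    induction (W.getD j (some [])).getD [] with
    | nil => simp
    | cons l w ih =>
      simp only [List.map_cons, List.sum_cons]
      rw [ih]
      cases l.1 <;> simp <;> ring

theorem linA_apply (y : ℕ → K) (j : ℕ) : linA K W y j =
    (((W.getD j (some [])).getD []).map fun l => bif l.1 then 0 else y l.2).sum := rfl

theorem linA_eq_zero (y : ℕ → K) (j : ℕ) (h : W.length ≤ j) : linA K W y j = 0 := by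
  rw [linA_apply, List.getD_eq_default _ _ h]
  rfl

/-- The contribution of the inputs. -/
def frB (K : Type) [CommRing K] (W : List (Option (List (Bool × ℕ)))) :
    (ℕ → K) →ₗ[K] (ℕ → K) where
  toFun v := fun j => (W.getD j (some [])).elim (v j) fun _ => 0
  map_add' x y := by
    funext j
    simp only [Pi.add_apply]
    generalize W.getD j (some []) = o
    cases o
    · rfl
    · simp
  map_smul' c y := by
    funext j
    simp only [Pi.smul_apply, RingHom.id_apply, smul_eq_mul]
    generalize W.getD j (some []) = o
    cases o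
    · rfl
    · simp

theorem frB_apply (v : ℕ → K) (j : ℕ) :
    frB K W v j = (W.getD j (some [])).elim (v j) fun _ => 0 := rfl

/-- The effect of the inputs after `T` steps. -/
def yrun (K : Type) [CommRing K] (W : List (Option (List (Bool × ℕ)))) :
    ℕ → ((ℕ → ℕ → K) →ₗ[K] (ℕ → K))
  | 0 => 0
  | t + 1 => (linA K W).comp (yrun K W t) + (frB K W).comp (LinearMap.proj t)

theorem yrun_succ (U : ℕ → ℕ → K) (t : ℕ) :
    yrun K W (t + 1) U = linA K W (yrun K W t U) + frB K W (U t) := rfl

/-- The free cells. -/
def frL (W : List (Option (List (Bool × ℕ)))) : List ℕ :=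
  (List.range W.length).filter fun f => (W.getD f (some [])).isNone

theorem mem_frL {f : ℕ} : f ∈ frL W ↔ f < W.length ∧ W.getD f (some []) = none := by
  unfold frL
  rw [List.mem_filter, List.mem_range, Option.isNone_iff_eq_none]

/-- The generators of the reachable states. -/
def gset (K : Type) [CommRing K] (W : List (Option (List (Bool × ℕ)))) (T : ℕ) : Set (ℕ → K) :=
  {y | ∃ k < T, ∃ f ∈ frL W, y = (linA K W)^[k] (ev K f)}

theorem frB_eq (v : ℕ → K) : frB K W v = ∑ f ∈ (frL W).toFinset, v f • ev K f := by
  funext j
  rw [frB_apply, Finset.sum_apply]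
  by_cases h : j ∈ frL W
  · rw [Finset.sum_eq_single j]
    · rw [((mem_frL W).1 h).2]
      simp [ev]
    · intro f _ hne
      simp [ev, hne]
    · intro hne
      exact absurd (List.mem_toFinset.2 h) hne
  · have h1 : (W.getD j (some [])).elim (v j) (fun _ => (0 : K)) = 0 := by
      by_cases hj : j < W.length
      · cases hw : W.getD j (some []) with
        | none => exact absurd ((mem_frL W).2 ⟨hj, hw⟩) h
        | some w => rfl
      · rw [List.getD_eq_default _ _ (by omega)]
        rfl
    rw [h1]
    symm
    refine Finset.sum_eq_zero fun f hf => ?_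
    have : f ≠ j := by
      rintro rfl
      exact h (List.mem_toFinset.1 hf)
    simp [ev, this]

theorem frB_mem (v : ℕ → K) (T : ℕ) : frB K W v ∈ Submodule.span K (gset K W (T + 1)) := by
  rw [frB_eq]
  refine Submodule.sum_mem _ fun f hf => Submodule.smul_mem _ _ (Submodule.subset_span ?_)
  exact ⟨0, by omega, f, List.mem_toFinset.1 hf, rfl⟩

theorem yrun_mem (U : ℕ → ℕ → K) (T : ℕ) : yrun K W T U ∈ Submodule.span K (gset K W T) := by
  induction T with
  | zero => exact Submodule.zero_mem _
  | succ T ih =>
    rw [yrun_succ]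
    refine Submodule.add_mem _ ?_ (frB_mem W _ T)
    have h1 : Submodule.span K (gset K W T) ≤
        (Submodule.span K (gset K W (T + 1))).comap (linA K W) := by
      rw [Submodule.span_le]
      rintro y ⟨k, hk, f, hf, rfl⟩
      rw [SetLike.mem_coe, Submodule.mem_comap]
      refine Submodule.subset_span ⟨k + 1, by omega, f, hf, ?_⟩
      rw [Function.iterate_succ_apply']
    exact h1 ih

theorem yrun_congr {U V : ℕ → ℕ → K} {T : ℕ} (h : ∀ t < T, U t = V t) :
    yrun K W T U = yrun K W T V := by
  induction T with
  | zero => rfl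
  | succ T ih => rw [yrun_succ, yrun_succ, ih fun t ht => h t (by omega), h T (by omega)]

theorem gen_mem_range : ∀ (T k f : ℕ), k < T → f ∈ frL W →
    ∃ U, yrun K W T U = (linA K W)^[k] (ev K f)
  | 0, k, f, hk, _ => by omega
  | T + 1, k, f, hk, hf => by
    cases k with
    | zero =>
      refine ⟨fun t => if t = T then ev K f else 0, ?_⟩
      rw [yrun_succ]
      have h1 : yrun K W T (fun t => if t = T then ev K f else 0) = yrun K W T 0 :=
        yrun_congr W fun t ht => by simp [Nat.ne_of_lt ht]
      rw [h1, map_zero, map_zero, zero_add, if_pos rfl, frB_eq, Finset.sum_eq_single f]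
      · simp [ev]
      · intro g _ hne
        have : ev K f g = 0 := by simp [ev, hne.symm]
        rw [this, zero_smul]
      · intro hne
        exact absurd (List.mem_toFinset.2 hf) hne
    | succ k =>
      obtain ⟨U, hU⟩ := gen_mem_range T k f (by omega) hf
      refine ⟨fun t => if t < T then U t else 0, ?_⟩
      rw [yrun_succ]
      have h1 : yrun K W T (fun t => if t < T then U t else 0) = yrun K W T U :=
        yrun_congr W fun t ht => by simp [ht]
      rw [h1, if_neg (lt_irrefl T), map_zero, add_zero, hU, Function.iterate_succ_apply']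

theorem mem_span_iff (T : ℕ) (y : ℕ → K) :
    y ∈ Submodule.span K (gset K W T) ↔ ∃ U, yrun K W T U = y := by
  constructor
  · intro h
    have h1 : Submodule.span K (gset K W T) ≤ LinearMap.range (yrun K W T) := by
      rw [Submodule.span_le]
      rintro z ⟨k, hk, f, hf, rfl⟩
      exact gen_mem_range W T k f hk hf
    exact h1 h
  · rintro ⟨U, rfl⟩
    exact yrun_mem W U T

theorem span_gset_min (T : ℕ) : Submodule.span K (gset K W T) =
    Submodule.span K (gset K W (min T W.length)) := by
  apply le_antisymm
  · rw [Submodule.span_le]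
    rintro y ⟨k, hk, f, hf, rfl⟩
    rcases Nat.lt_or_ge k W.length with h | h
    · exact Submodule.subset_span ⟨k, by omega, f, hf, rfl⟩
    · have h1 := iter_mem_span (linA K W) (n := W.length) (linA_eq_zero W)
        ((mem_frL W).1 hf).1 k
      refine Submodule.span_mono ?_ h1
      rintro y ⟨i, hi, rfl⟩
      exact ⟨i, by omega, f, hf, rfl⟩
  · refine Submodule.span_mono ?_
    rintro y ⟨k, hk, f, hf, rfl⟩
    exact ⟨k, by omega, f, hf, rfl⟩

end net

section chi

variable {G : Type} [Group G] [Fintype G] (e : Fin (Fintype.card G) ≃ G)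

omit [Fintype G] in
theorem chi_prod (D : ChD G) {β : Type} (l : List β) (f : β → G) :
    D.chi (l.map f).prod = (l.map fun b => D.chi (f b)).sum := by
  induction l with
  | nil => simp [D.one]
  | cons b l ih => rw [List.map_cons, List.prod_cons, D.mul, ih, List.map_cons, List.sum_cons]

theorem chi_run (D : ChD G) (W : List (Option (List (Bool × ℕ)))) (x : ℕ → G) (u : ℕ → ℕ → G) :
    ∀ t j, D.chi (run e W x u t j) = D.chi (run e W x (fun _ _ => 1) t j) +
      yrun (ZMod D.q) W t (fun t j => D.chi (u t j)) j := by
  intro t
  induction t with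
  | zero =>
    intro j
    have : yrun (ZMod D.q) W 0 (fun t j => D.chi (u t j)) j = 0 := rfl
    rw [this, add_zero]
    rfl
  | succ t ih =>
    intro j
    rw [yrun_succ, Pi.add_apply, linA_apply, frB_apply, run, run]
    unfold nxt
    cases hw : W.getD j (some []) with
    | none =>
      simp only [Option.map_none, Option.getD_none, List.map_nil, List.sum_nil, Option.elim_none,
        D.one, zero_add]
    | some w =>
      simp only [Option.map_some, Option.getD_some, Option.elim_some, add_zero, chi_prod]
      clear hw
      induction w with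
      | nil => simp
      | cons l w ihw =>
        rw [List.map_cons, List.sum_cons, List.map_cons, List.sum_cons, List.map_cons,
          List.sum_cons, ihw]
        obtain ⟨b, i⟩ := l
        cases b
        · simp only [letter, cond_false]
          rw [ih i]
          ring
        · simp only [letter, cond_true]
          ring

end chi

end Pool.Agent.W995.CT
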