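import Pool.Agent.W995.CT.Pgm
import Pool.Agent.W995.PN.NilPoly

/-!
# Programs over nilpotent groups can be evaluated in polynomial time
-/

namespace Pool.Agent.W995.CT

open Pool.Agent.NPC Pool.Agent.W995.PN Polynomial

/-- The product of matrices, in reverse order. -/
def prodM (p : ℕ) (ms : List Mn) (Ks : List (List (List ℕ))) : List (List ℕ) :=
  Ks.foldr (fun K acc => mulM p ms acc K) (oneM ms)

section

variable {G : Type} [Group G] [Fintype G] (e : Fin (Fintype.card G) ≃ G)

/-- The number of cells in use. -/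
def nW (W : List (Option (List (Bool × ℕ)))) (s : List ℕ) : ℕ := W.length + s.length

/-- The matrix of a block. -/
def blkM (D : RepD G) (W : List (Option (List (Bool × ℕ)))) (n : ℕ) (b : List ℕ × ℕ) :
    List (List ℕ) :=
  powM D.p (mons D.r (n + Fintype.card G)) (Kmat D.p D.r (mons D.r (n + Fintype.card G))
    (WW e n (netE e W b.1))) b.2.bits

/-- The matrix of a program. -/
def matP (D : RepD G) (W : List (Option (List (Bool × ℕ)))) (n : ℕ) (P : Pg) : List (List ℕ) :=
  prodM D.p (mons D.r (n + Fintype.card G)) (P.map (blkM e D W n))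

/-- The effect of a program on the network without constants. -/
def frun (W : List (Option (List (Bool × ℕ)))) (n : ℕ) (P : Pg) (x : ℕ → G) : ℕ → G :=
  P.foldl (fun x b => (stepW (WW e n (netE e W b.1)))^[b.2] x) x

theorem desc_matP (D : RepD G) (W : List (Option (List (Bool × ℕ)))) (n : ℕ) : ∀ P : Pg,
    Desc D.rho ((TRmk D.p D.r).comp C) (TRmk D.p D.r X) D.r (n + Fintype.card G)
      (frun e W n P) (matP e D W n P)
  | [] => desc_one D.rho _ _ _
  | b :: P => by
    have h1 := desc_matP D W n P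
    have h2 := desc_pow D.rho ((TRmk D.p D.r).comp C) (TRmk D.p D.r X)
      (desc_Kmat D.rho ((TRmk D.p D.r).comp C) (TRmk D.p D.r X) D.ut (eps_pow D.p D.r)
        (WW_lt e n (netE e W b.1))) b.2.bits
    rw [valb_eq, valB_bits] at h2
    have h3 := desc_mul D.rho _ _ h1 h2
    exact h3

theorem frun_Xof (W : List (Option (List (Bool × ℕ)))) (n : ℕ) (hn : W.length ≤ n) : ∀ (P : Pg)
    {x : ℕ → G}, (∀ i, n ≤ i → x i = 1) →
    frun e W n P (Xof e n x) = Xof e n (prun e W P x) ∧ ∀ i, n ≤ i → prun e W P x i = 1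
  | [], x, hx => ⟨rfl, hx⟩
  | b :: P, x, hx => by
    have hl : (netE e W b.1).length ≤ n := by rw [length_netE]; exact hn
    have h1 := iter_Xof e n (netE e W b.1) hl b.2 hx
    have h2 := iter_eq_one e n (netE e W b.1) hl b.2 hx
    have h3 := frun_Xof W n hn P h2
    have e1 : frun e W n (b :: P) (Xof e n x) =
        frun e W n P ((stepW (WW e n (netE e W b.1)))^[b.2] (Xof e n x)) := rfl
    have e2 : prun e W (b :: P) x = prun e W P ((step e (netE e W b.1))^[b.2] x) := rfl
    rw [e1, e2, h1]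
    exact h3

theorem num_desc (D : RepD G) {n : ℕ} {s : List ℕ} {f : (ℕ → G) → (ℕ → G)}
    {M : List (List ℕ)}
    (hM : Desc D.rho ((TRmk D.p D.r).comp C) (TRmk D.p D.r X) D.r (n + Fintype.card G) f M)
    {y : ℕ → G} (hy : f (Xof e n (start e s)) = Xof e n y) {i a b : ℕ} (hi : i < n)
    (ha : a < D.r) (hb : b < a) :
    ((num e D n s (mons D.r (n + Fintype.card G)) M i a b : ℕ) : ZMod D.p) = D.rho (y i) a b := by
  have hmem : ([(i, a, b)] : Mn) ∈ mons D.r (n + Fintype.card G) := by
    rw [mem_mons]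
    refine ⟨?_, by simp [wtM]; omega⟩
    intro v hv
    rw [List.mem_singleton] at hv
    subst hv
    exact mem_varsL.2 ⟨by simp only; omega, hb, ha⟩
  have hdesc := hM (Xof e n (start e s)) _ hmem
  rw [hy] at hdesc
  have hex := extract D.rho (v := (i, a, b)) (by simp only; omega) hdesc
  have h3 : Xof e n y i = y i := by
    unfold Xof; rw [if_pos hi]
  simp only [h3] at hex
  rw [← hex]
  unfold num semK
  rw [ZMod.natCast_mod, Nat.cast_list_sum, List.map_map]
  congr 1
  refine List.map_congr_left fun μ hμ => ?_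
  rw [Function.comp_apply]
  by_cases h : wtM μ = a - b
  · rw [if_pos h, if_pos h, Nat.cast_mul, monV_eq e D n s (mem_mons.1 hμ).1]
  · rw [if_neg h, if_neg h, Nat.cast_zero]

/-- The test of a requirement for one representation. -/
noncomputable def tstD (D : RepD G) (n : ℕ) (s : List ℕ) (M : List (List ℕ)) (q : ℕ × ℕ) : Bool :=
  (List.range D.r).all fun a => (List.range D.r).all fun b => !(decide (b < a)) ||
    decide (num e D n s (mons D.r (n + Fintype.card G)) M q.1 a b = TV e D q.2 a b)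

theorem tstD_iff (D : RepD G) {n : ℕ} {s : List ℕ} {f : (ℕ → G) → (ℕ → G)} {M : List (List ℕ)}
    (hM : Desc D.rho ((TRmk D.p D.r).comp C) (TRmk D.p D.r X) D.r (n + Fintype.card G) f M)
    {y : ℕ → G} (hy : f (Xof e n (start e s)) = Xof e n y) {q : ℕ × ℕ} (hq : q.1 < n) :
    tstD e D n s M q = true ↔ ∀ a < D.r, ∀ b < a, D.rho (y q.1) a b = D.rho (el e q.2) a b := by
  haveI : NeZero D.p := ⟨D.hp.ne_zero⟩
  have key : ∀ a < D.r, ∀ b < a, (num e D n s (mons D.r (n + Fintype.card G)) M q.1 a b =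
      TV e D q.2 a b ↔ D.rho (y q.1) a b = D.rho (el e q.2) a b) := by
    intro a ha b hb
    rw [← num_desc e D hM hy hq ha hb, TV_eq e D _ ha (by omega)]
    constructor
    · intro h
      rw [h, ZMod.natCast_zmod_val]
    · intro h
      rw [← h, ZMod.val_natCast]
      unfold num
      rw [Nat.mod_mod]
  unfold tstD
  rw [List.all_eq_true]
  constructor
  · intro h a ha b hb
    have h1 := h a (List.mem_range.2 ha)
    rw [List.all_eq_true] at h1
    have h2 := h1 b (List.mem_range.2 (by omega))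
    simp only [hb, decide_true, Bool.not_true, Bool.false_or, decide_eq_true_eq] at h2
    exact (key a ha b hb).1 h2
  · intro h a ha
    rw [List.mem_range] at ha
    rw [List.all_eq_true]
    intro b _
    by_cases hb : b < a
    · simp only [hb, decide_true, Bool.not_true, Bool.false_or, decide_eq_true_eq]
      exact (key a ha b hb).2 (h a ha b hb)
    · simp [hb]

/-- The test of all requirements for one representation. -/
noncomputable def verD (D : RepD G) (I : CInst) (P : Pg) : Bool :=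
  I.2.2.2.all fun q => !(decide (q.1 < nW I.1 I.2.1)) ||
    tstD e D (nW I.1 I.2.1) I.2.1 (matP e D I.1 (nW I.1 I.2.1) P) q

/-- The test for a list of representations. -/
noncomputable def verL : List (RepD G) → CInst → Pg → Bool
  | [], _, _ => true
  | D :: L, I, P => verD e D I P && verL L I P

/-- The verifier. -/
noncomputable def ver (L : List (RepD G)) (z : CInst × Pg) : Bool :=
  decide (len z.2 = z.1.2.2.1) && (z.1.2.2.2.all fun q => decide (q.1 < nW z.1.1 z.1.2.1) ||
    decide (nrm e q.2 = code e 1)) && verL e L z.1 z.2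

theorem verD_iff (D : RepD G) (I : CInst) (P : Pg) : verD e D I P = true ↔
    ∀ q ∈ I.2.2.2, q.1 < nW I.1 I.2.1 → ∀ a < D.r, ∀ b < a,
      D.rho (prun e I.1 P (start e I.2.1) q.1) a b = D.rho (el e q.2) a b := by
  unfold verD
  rw [List.all_eq_true]
  refine forall₂_congr fun q _ => ?_
  have h1 := (frun_Xof e I.1 (nW I.1 I.2.1) (by unfold nW; omega) P
    (start_eq_one e (nW I.1 I.2.1) I.2.1 (by unfold nW; omega))).1
  by_cases hq : q.1 < nW I.1 I.2.1
  · rw [decide_eq_true hq, Bool.not_true, Bool.false_or, tstD_iff e D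
      (desc_matP e D I.1 (nW I.1 I.2.1) P) h1 hq]
    simp only [hq, true_imp_iff]
  · simp [hq]

theorem verL_iff (I : CInst) (P : Pg) : ∀ L : List (RepD G), (verL e L I P = true ↔
    ∀ D ∈ L, ∀ q ∈ I.2.2.2, q.1 < nW I.1 I.2.1 → ∀ a < D.r, ∀ b < a,
      D.rho (prun e I.1 P (start e I.2.1) q.1) a b = D.rho (el e q.2) a b)
  | [] => by simp [verL]
  | D :: L => by
    unfold verL
    rw [Bool.and_eq_true, verL_iff I P L, verD_iff e D I P, List.forall_mem_cons]

theorem ver_iff {L : List (RepD G)} (hL : ∀ g h : G,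
    (∀ D ∈ L, ∀ a < D.r, ∀ b < a, D.rho g a b = D.rho h a b) → g = h) (I : CInst) (P : Pg) :
    ver e L (I, P) = true ↔ len P = I.2.2.1 ∧
      ∀ q ∈ I.2.2.2, prun e I.1 P (start e I.2.1) q.1 = el e q.2 := by
  have h0 := (frun_Xof e I.1 (nW I.1 I.2.1) (by unfold nW; omega) P
    (start_eq_one e (nW I.1 I.2.1) I.2.1 (by unfold nW; omega))).2
  have h1 : code e 1 = nrm e (code e 1) := by
    unfold nrm
    rw [if_pos (code_lt e 1)]
  unfold ver
  rw [Bool.and_eq_true, Bool.and_eq_true, decide_eq_true_eq, verL_iff, List.all_eq_true, and_assoc]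
  refine and_congr_right fun _ => ?_
  constructor
  · rintro ⟨h2, h3⟩ q hq
    by_cases hlt : q.1 < nW I.1 I.2.1
    · exact hL _ _ fun D hD => h3 D hD q hq hlt
    · have h4 := h2 q hq
      simp only [hlt, decide_false, Bool.false_or, decide_eq_true_eq] at h4
      rw [h0 _ (by omega)]
      rw [h1, nrm_eq_iff, el_code] at h4
      exact h4.symm
  · intro h
    refine ⟨fun q hq => ?_, fun D _ q hq _ a _ b _ => by rw [h q hq]⟩
    by_cases hlt : q.1 < nW I.1 I.2.1
    · simp [hlt]
    · simp only [hlt, decide_false, Bool.false_or, decide_eq_true_eq]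
      rw [h1, nrm_eq_iff, el_code, ← h q hq, h0 _ (by omega)]

/-! ### Polynomial time -/

theorem poly_prodM {p : ℕ} (hp : 2 ≤ p) :
    NPC.Poly (fun x : List Mn × List (List (List ℕ)) => prodM p x.1 x.2) := by
  unfold prodM
  refine NPC.Poly.foldr (α := List Mn × List (List (List ℕ))) (l := fun x => x.2)
    (s := fun x => oneM x.1) (F := fun x K acc => mulM p x.1 acc K)
    (by fun_prop) (poly_oneM (by fun_prop)) (by fun_prop) (Polynomial.X * (Polynomial.X *
      Polynomial.C (4 * p + 2) + Polynomial.C 2) + Polynomial.C 1) ?_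
  intro x k _
  have h1 : ((x.2.drop k).foldr (fun K acc => mulM p x.1 acc K) (oneM x.1)).length ≤
      x.1.length ∧ ∀ C ∈ (x.2.drop k).foldr (fun K acc => mulM p x.1 acc K) (oneM x.1),
        Ok p x.1.length C := by
    cases x.2.drop k with
    | nil => exact Ok_oneM hp x.1
    | cons K Ks =>
      rw [List.foldr_cons]
      exact Ok_mulM (by omega) x.1 _ _
  have h2 := sz_mat h1.1 h1.2
  have h3 : x.1.length ≤ sz x := by
    have := length_lt_sz x.1
    have h4 : sz x = sz x.1 + sz x.2 + 1 := sz_pair x.1 x.2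
    omega
  simp only [Polynomial.eval_add, Polynomial.eval_mul, Polynomial.eval_C, Polynomial.eval_X]
  refine h2.trans ?_
  exact Nat.add_le_add_right (Nat.mul_le_mul h3 (Nat.add_le_add_right
    (Nat.mul_le_mul_right _ h3) _)) _

variable {α : Type} [TEnc α]

theorem poly_WW' {n : α → ℕ} (hn : UPoly n) {W : α → List (List (Bool × ℕ))} (hW : NPC.Poly W) :
    NPC.Poly (fun a => WW e (n a) (W a)) := by
  have h1 : NPC.Poly (fun a => List.range (n a + Fintype.card G)) :=
    (UPoly.add hn (UPoly.const _)).range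
  have h2 := hn.toPoly
  unfold WW
  refine NPC.Poly.map (F := fun a i => if i < n a then ((W a).getD i []).map (lc e (n a))
    else [i]) h1 ?_
  have h3 : NPC.Poly (fun x : α × ℕ => ((W x.1).getD x.2 []).map (lc e (n x.1))) := by
    refine NPC.Poly.map (F := fun (x : α × ℕ) l => lc e (n x.1) l) (by fun_prop) ?_
    exact (poly_lc e).comp (f := fun x : (α × ℕ) × Bool × ℕ => (n x.1.1, x.2)) (by fun_prop)
  have h4 : NPC.Poly (fun x : α × ℕ => n x.1) := by fun_prop
  fun_prop

theorem poly_netE {W : α → List (Option (List (Bool × ℕ)))} {c : α → List ℕ} (hW : NPC.Poly W)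
    (hc : NPC.Poly c) : NPC.Poly (fun a => netE e (W a) (c a)) := by
  unfold netE
  refine NPC.Poly.map (F := fun a i => ((W a).getD i (some [])).getD
    [(true, (c a).getD i (code e 1))]) (NPC.Poly.range_length hW) ?_
  refine NPC.Poly.optGetD ?_ ?_ <;> fun_prop

theorem uPoly_nW {W : α → List (Option (List (Bool × ℕ)))} {s : α → List ℕ} (hW : NPC.Poly W)
    (hs : NPC.Poly s) : UPoly (fun a => nW (W a) (s a)) :=
  UPoly.add (UPoly.length hW) (UPoly.length hs)

theorem poly_msn (D : RepD G) {n : α → ℕ} (hn : UPoly n) :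
    NPC.Poly (fun a => mons D.r (n a + Fintype.card G)) :=
  poly_mons D.r (n := fun a => n a + Fintype.card G) (UPoly.add hn (UPoly.const _)).range

theorem poly_blkM (D : RepD G) {W : α → List (Option (List (Bool × ℕ)))} {n : α → ℕ}
    {b : α → List ℕ × ℕ} (hW : NPC.Poly W) (hn : UPoly n) (hb : NPC.Poly b) :
    NPC.Poly (fun a => blkM e D (W a) (n a) (b a)) := by
  have h1 := poly_msn D hn
  have h2 : NPC.Poly (fun a => netE e (W a) (b a).1) := poly_netE e hW (by fun_prop)
  have h3 := poly_WW' e hn h2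
  have h4 := poly_Kmat (r := D.r) D.hp.two_le h1 h3
  have h5 : NPC.Poly (fun a => (b a).2.bits) := NPC.Poly.natBits (by fun_prop)
  exact (poly_powM D.hp.two_le).comp (f := fun a => (mons D.r (n a + Fintype.card G),
    Kmat D.p D.r (mons D.r (n a + Fintype.card G)) (WW e (n a) (netE e (W a) (b a).1)),
    (b a).2.bits)) (by fun_prop)

theorem poly_matP (D : RepD G) {W : α → List (Option (List (Bool × ℕ)))} {n : α → ℕ}
    {P : α → Pg} (hW : NPC.Poly W) (hn : UPoly n) (hP : NPC.Poly P) :
    NPC.Poly (fun a => matP e D (W a) (n a) (P a)) := by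
  have h1 := poly_msn D hn
  have h2 : NPC.Poly (fun a => (P a).map (blkM e D (W a) (n a))) := by
    refine NPC.Poly.map (F := fun a b => blkM e D (W a) (n a) b) hP ?_
    exact poly_blkM e D (W := fun p : α × List ℕ × ℕ => W p.1) (n := fun p => n p.1)
      (b := fun p => p.2) (by fun_prop) (hn.comp (by fun_prop)) (by fun_prop)
  exact (poly_prodM D.hp.two_le).comp (f := fun a => (mons D.r (n a + Fintype.card G),
    (P a).map (blkM e D (W a) (n a)))) (by fun_prop)

theorem poly_verD (D : RepD G) : NPC.Poly (fun z : CInst × Pg => verD e D z.1 z.2) := by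
  have hn : UPoly (fun z : CInst × Pg => nW z.1.1 z.1.2.1) := uPoly_nW (by fun_prop) (by fun_prop)
  have hn' := hn.toPoly
  have h1 := poly_msn D hn
  have h2 := poly_matP e D (W := fun z : CInst × Pg => z.1.1) (P := fun z => z.2) (by fun_prop) hn
    (by fun_prop)
  unfold verD tstD
  refine NPC.Poly.all (l := fun z : CInst × Pg => z.1.2.2.2)
    (p := fun z q => !(decide (q.1 < nW z.1.1 z.1.2.1)) ||
    ((List.range D.r).all fun a => (List.range D.r).all fun b => !(decide (b < a)) ||
    decide (num e D (nW z.1.1 z.1.2.1) z.1.2.1 (mons D.r (nW z.1.1 z.1.2.1 + Fintype.card G))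
      (matP e D z.1.1 (nW z.1.1 z.1.2.1) z.2) q.1 a b = TV e D q.2 a b))) (by fun_prop) ?_
  have h3 : NPC.Poly (fun x : (((CInst × Pg) × ℕ × ℕ) × ℕ) × ℕ =>
      num e D (nW x.1.1.1.1.1 x.1.1.1.1.2.1) x.1.1.1.1.2.1
        (mons D.r (nW x.1.1.1.1.1 x.1.1.1.1.2.1 + Fintype.card G))
        (matP e D x.1.1.1.1.1 (nW x.1.1.1.1.1 x.1.1.1.1.2.1) x.1.1.1.2) x.1.1.2.1 x.1.2 x.2) := by
    have h4 : NPC.Poly (fun x : (((CInst × Pg) × ℕ × ℕ) × ℕ) × ℕ => x.1.1.1) := by fun_prop
    have h5 := h1.comp h4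
    have h6 := h2.comp h4
    have h7 := hn'.comp h4
    exact (poly_num e D).comp (f := fun x : (((CInst × Pg) × ℕ × ℕ) × ℕ) × ℕ =>
      ((nW x.1.1.1.1.1 x.1.1.1.1.2.1, x.1.1.1.1.2.1),
        (mons D.r (nW x.1.1.1.1.1 x.1.1.1.1.2.1 + Fintype.card G),
        matP e D x.1.1.1.1.1 (nW x.1.1.1.1.1 x.1.1.1.1.2.1) x.1.1.1.2), x.1.1.2.1, x.1.2, x.2))
        (by fun_prop)
  have h8 : NPC.Poly (fun x : (CInst × Pg) × ℕ × ℕ => nW x.1.1.1 x.1.1.2.1) :=
    hn'.comp (f := fun x : (CInst × Pg) × ℕ × ℕ => x.1) (by fun_prop)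
  fun_prop

theorem poly_verL : ∀ L : List (RepD G), NPC.Poly (fun z : CInst × Pg => verL e L z.1 z.2)
  | [] => NPC.Poly.const true
  | D :: L => by
    have h1 := poly_verD e D
    have h2 := poly_verL L
    have : (fun z : CInst × Pg => verL e (D :: L) z.1 z.2) =
      fun z => verD e D z.1 z.2 && verL e L z.1 z.2 := rfl
    rw [this]
    fun_prop

theorem poly_ver (L : List (RepD G)) : NPC.Poly (ver e L) := by
  have h1 := poly_verL e L
  have hn : UPoly (fun z : CInst × Pg => nW z.1.1 z.1.2.1) := uPoly_nW (by fun_prop) (by fun_prop)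
  have hn' := hn.toPoly
  have h2 : NPC.Poly (fun z : CInst × Pg => len z.2) := by
    unfold len
    fun_prop
  have h8 : NPC.Poly (fun x : (CInst × Pg) × ℕ × ℕ => nW x.1.1.1 x.1.1.2.1) :=
    hn'.comp (f := fun x : (CInst × Pg) × ℕ × ℕ => x.1) (by fun_prop)
  have h9 : NPC.Poly (fun z : CInst × Pg => z.1.2.2.2.all fun q =>
      decide (q.1 < nW z.1.1 z.1.2.1) || decide (nrm e q.2 = code e 1)) := by
    refine NPC.Poly.all (l := fun z : CInst × Pg => z.1.2.2.2)
      (p := fun z q => decide (q.1 < nW z.1.1 z.1.2.1) || decide (nrm e q.2 = code e 1))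
      (by fun_prop) ?_
    fun_prop
  have : ver e L = fun z : CInst × Pg => decide (len z.2 = z.1.2.2.1) &&
    (z.1.2.2.2.all fun q => decide (q.1 < nW z.1.1 z.1.2.1) ||
    decide (nrm e q.2 = code e 1)) && verL e L z.1 z.2 := rfl
  rw [this]
  fun_prop

end

end Pool.Agent.W995.CT
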