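import Pool.Agent.W995.CT.Ab3
import Pool.Agent.W995.CT.Ab4
import Pool.Agent.W995.CT.Ver

/-!
# The algorithm for abelian groups and its correctness
-/

namespace Pool.Agent.W995.CT

open Pool.Agent.NPC Pool.Agent.W995.PN

/-- One step of the linear dynamics. -/
def stL (q : ℕ) (W : List (Option (List (Bool × ℕ)))) (y : List ℕ) : List ℕ :=
  (List.range W.length).map fun j =>
    (((W.getD j (some [])).getD []).map fun l => bif l.1 then 0 else y.getD l.2 0).sum % q

/-- The unit vector. -/
def evL (n f : ℕ) : List ℕ := (List.range n).map fun i => if f = i then 1 else 0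

/-- The iterates of the linear dynamics on a unit vector. -/
def itL (q : ℕ) (x : List (Option (List (Bool × ℕ))) × ℕ × ℕ) : List ℕ :=
  ((List.range x.1.length).filter fun m => decide (m < x.2.2)).foldl (fun y _ => stL q x.1 y)
    (evL x.1.length x.2.1)

/-- The generators, at the required cells. -/
def gens (q : ℕ) (I : CInst) : List (List ℕ) :=
  (frL I.1).flatMap fun f => ((List.range I.1.length).filter fun k => decide (k < I.2.2.1)).map
    fun k => I.2.2.2.map fun r => (itL q (I.1, f, k)).getD r.1 0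

theorem vec_stL {q : ℕ} (W : List (Option (List (Bool × ℕ)))) (y : List ℕ) :
    vec q (stL q W y) = linA (ZMod q) W (vec q y) := by
  funext j
  by_cases hj : j < W.length
  · rw [linA_apply]
    unfold vec stL
    rw [getD_map_range _ hj, ZMod.natCast_mod, Nat.cast_list_sum, List.map_map]
    congr 1
    refine List.map_congr_left fun l _ => ?_
    rw [Function.comp_apply]
    cases l.1 <;> simp
  · rw [vec_of_le (by simp [stL]; omega), linA_eq_zero W _ _ (by omega)]

theorem vec_evL {q n f : ℕ} (hf : f < n) : vec q (evL n f) = ev (ZMod q) f := by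
  funext i
  by_cases hi : i < n
  · unfold vec evL ev
    rw [getD_map_range _ hi]
    split_ifs <;> simp
  · rw [vec_of_le (by simp [evL]; omega)]
    unfold ev
    rw [if_neg (by omega)]

theorem length_filter_lt : ∀ n k : ℕ, k ≤ n →
    ((List.range n).filter fun m => decide (m < k)).length = k
  | 0, k, h => by simp; omega
  | n + 1, k, h => by
    rw [List.range_succ, List.filter_append, List.length_append]
    rcases Nat.lt_or_ge n k with h1 | h1
    · have h2 : k = n + 1 := by omega
      subst h2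
      have h3 : ((List.range n).filter fun m => decide (m < n + 1)) = List.range n := by
        rw [List.filter_eq_self]
        intro m hm
        rw [List.mem_range] at hm
        simp; omega
      rw [h3]
      simp
    · rw [length_filter_lt n k h1]
      have : ¬ n < k := by omega
      simp [this]

theorem foldl_stL {q : ℕ} (W : List (Option (List (Bool × ℕ)))) : ∀ (l : List ℕ) (y : List ℕ),
    vec q (l.foldl (fun y _ => stL q W y) y) = (linA (ZMod q) W)^[l.length] (vec q y)
  | [], y => rfl
  | a :: l, y => by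
    rw [List.foldl_cons, foldl_stL W l, vec_stL, List.length_cons, Function.iterate_succ_apply]

theorem vec_itL {q : ℕ} {W : List (Option (List (Bool × ℕ)))} {f k : ℕ} (hf : f < W.length)
    (hk : k ≤ W.length) : vec q (itL q (W, f, k)) = (linA (ZMod q) W)^[k] (ev (ZMod q) f) := by
  unfold itL
  simp only
  rw [foldl_stL, vec_evL hf, length_filter_lt _ _ hk]

/-- The restriction to the required cells. -/
def prR (K : Type) [CommRing K] (R : List (ℕ × ℕ)) : (ℕ → K) →ₗ[K] (ℕ → K) where
  toFun y := fun i => (R[i]?).elim 0 fun r => y r.1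
  map_add' x y := by
    funext i
    simp only [Pi.add_apply]
    generalize R[i]? = o
    cases o <;> simp
  map_smul' c y := by
    funext i
    simp only [Pi.smul_apply, RingHom.id_apply, smul_eq_mul]
    generalize R[i]? = o
    cases o <;> simp

theorem prR_apply {K : Type} [CommRing K] (R : List (ℕ × ℕ)) (y : ℕ → K) (i : ℕ) :
    prR K R y i = (R[i]?).elim 0 fun r => y r.1 := rfl

theorem vec_map {q : ℕ} (R : List (ℕ × ℕ)) (g : ℕ × ℕ → ℕ) (i : ℕ) :
    vec q (R.map g) i = (R[i]?).elim 0 fun r => ((g r : ℕ) : ZMod q) := by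
  unfold vec
  rw [List.getD_eq_getElem?_getD, List.getElem?_map]
  cases R[i]? <;> simp

theorem vec_getD {q : ℕ} (R : List (ℕ × ℕ)) (y : List ℕ) :
    vec q (R.map fun r => y.getD r.1 0) = prR (ZMod q) R (vec q y) := by
  funext i
  rw [vec_map, prR_apply]
  rfl

theorem vecs_gens (q : ℕ) (I : CInst) : vecs q (gens q I) =
    prR (ZMod q) I.2.2.2 '' gset (ZMod q) I.1 (min I.2.2.1 I.1.length) := by
  ext x
  unfold vecs gens
  simp only [Set.mem_ofPred_eq, List.mem_flatMap, List.mem_map, List.mem_filter, List.mem_range,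
    decide_eq_true_eq, Set.mem_image]
  constructor
  · rintro ⟨v, ⟨f, hf, k, ⟨hk1, hk2⟩, rfl⟩, rfl⟩
    refine ⟨_, ⟨k, by omega, f, hf, rfl⟩, ?_⟩
    rw [vec_getD, vec_itL ((mem_frL I.1).1 hf).1 hk1.le]
  · rintro ⟨y, ⟨k, hk, f, hf, rfl⟩, rfl⟩
    refine ⟨_, ⟨f, hf, k, ⟨by omega, by omega⟩, rfl⟩, ?_⟩
    rw [vec_getD, vec_itL ((mem_frL I.1).1 hf).1 (by omega)]

section chi

variable {G : Type} [Group G] [Fintype G] (e : Fin (Fintype.card G) ≃ G)

/-- The value of a character, as a number. -/
def chiN (D : ChD G) (c : ℕ) : ℕ :=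
  ((List.range (Fintype.card G)).map fun c => (D.chi (el e c)).val).getD (nrm e c) 0

theorem chiN_eq (D : ChD G) (c : ℕ) : chiN e D c = (D.chi (el e c)).val := by
  unfold chiN
  rw [getD_map_range _ (nrm_lt e c), el_nrm]

/-- The content of a cell at the end of the run with trivial inputs. -/
noncomputable def cont (L : List (RepD G)) (I : CInst) (j : ℕ) : ℕ :=
  ((List.range (Fintype.card G)).filter fun c =>
    ver e L ((I.1, I.2.1, I.2.2.1, [(j, c)]), [([], I.2.2.1)])).headD 0

theorem el_cont {L : List (RepD G)} (hL : ∀ g h : G,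
    (∀ D ∈ L, ∀ a < D.r, ∀ b < a, D.rho g a b = D.rho h a b) → g = h) (I : CInst) (j : ℕ) :
    el e (cont e L I j) = run e I.1 (start e I.2.1) (fun _ _ => 1) I.2.2.1 j := by
  have h1 : prun e I.1 [([], I.2.2.1)] (start e I.2.1) =
      run e I.1 (start e I.2.1) (fun _ _ => 1) I.2.2.1 := by
    rw [prun_single, block_eq_run]
    simp only [List.getD_nil, el_code]
  have h2 : ∀ c, ver e L ((I.1, I.2.1, I.2.2.1, [(j, c)]), [([], I.2.2.1)]) = true ↔
      run e I.1 (start e I.2.1) (fun _ _ => 1) I.2.2.1 j = el e c := by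
    intro c
    rw [ver_iff e hL]
    simp only [List.mem_singleton, forall_eq, h1]
    simp [len]
  unfold cont
  set l := (List.range (Fintype.card G)).filter fun c =>
    ver e L ((I.1, I.2.1, I.2.2.1, [(j, c)]), [([], I.2.2.1)]) with hl
  have h3 : code e (run e I.1 (start e I.2.1) (fun _ _ => 1) I.2.2.1 j) ∈ l := by
    rw [hl, List.mem_filter, List.mem_range]
    exact ⟨code_lt e _, (h2 _).2 (el_code e _).symm⟩
  have h4 : l.headD 0 ∈ l := by
    cases hd : l with
    | nil => rw [hd] at h3; simp at h3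
    | cons c l' => simp
  generalize l.headD 0 = c at h4
  rw [hl, List.mem_filter, h2] at h4
  exact h4.2.symm

/-- The right side of the linear system. -/
noncomputable def delta (L : List (RepD G)) (D : ChD G) (I : CInst) : List ℕ :=
  I.2.2.2.map fun r => chiN e D r.2 + (D.q - chiN e D (cont e L I r.1))

theorem vec_delta {L : List (RepD G)} (hL : ∀ g h : G,
    (∀ D ∈ L, ∀ a < D.r, ∀ b < a, D.rho g a b = D.rho h a b) → g = h) (D : ChD G) (I : CInst)
    (i : ℕ) : vec D.q (delta e L D I) i = (I.2.2.2[i]?).elim 0 fun r =>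
      D.chi (el e r.2) - D.chi (run e I.1 (start e I.2.1) (fun _ _ => 1) I.2.2.1 r.1) := by
  haveI : NeZero D.q := ⟨D.pos.ne'⟩
  unfold delta
  rw [vec_map]
  cases I.2.2.2[i]? with
  | none => rfl
  | some r =>
    simp only [Option.elim_some]
    rw [chiN_eq, chiN_eq, el_cont e hL, Nat.cast_add, ZMod.natCast_zmod_val,
      Nat.cast_sub (ZMod.val_lt _).le, ZMod.natCast_self, ZMod.natCast_zmod_val]
    ring

/-- The test for one character. -/
noncomputable def tstA (L : List (RepD G)) (D : ChD G) (I : CInst) : Bool :=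
  solve D.q (redx D.q (gens D.q I, delta e L D I))

theorem vec_mod (q : ℕ) (l : List ℕ) : vec q (l.map fun c => c % q) = vec q l := by
  funext i
  unfold vec
  rw [List.getD_eq_getElem?_getD, List.getElem?_map, List.getD_eq_getElem?_getD]
  cases l[i]? with
  | none => rfl
  | some c => simp

theorem tstA_iff {L : List (RepD G)} (hL : ∀ g h : G,
    (∀ D ∈ L, ∀ a < D.r, ∀ b < a, D.rho g a b = D.rho h a b) → g = h) (D : ChD G) (I : CInst) :
    tstA e L D I = true ↔ ∃ U : ℕ → ℕ → ZMod D.q, ∀ r ∈ I.2.2.2,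
      D.chi (run e I.1 (start e I.2.1) (fun _ _ => 1) I.2.2.1 r.1) +
        yrun (ZMod D.q) I.1 I.2.2.1 U r.1 = D.chi (el e r.2) := by
  unfold tstA
  have h1 : redx D.q (gens D.q I, delta e L D I) = ((gens D.q I).map fun v => v.map fun c => c % D.q,
    (delta e L D I).map fun c => c % D.q) := rfl
  rw [h1, solve_iff D.hq (by
    intro v hv
    rw [List.mem_map] at hv
    obtain ⟨w, hw, rfl⟩ := hv
    unfold gens at hw
    simp only [List.mem_flatMap, List.mem_map] at hw
    obtain ⟨f, _, k, _, rfl⟩ := hw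
    simp [delta])]
  have h2 : vecs D.q ((gens D.q I).map fun v => v.map fun c => c % D.q) = vecs D.q (gens D.q I) := by
    ext x
    unfold vecs
    simp only [Set.mem_ofPred_eq, List.mem_map]
    constructor
    · rintro ⟨v, ⟨w, hw, rfl⟩, rfl⟩
      exact ⟨w, hw, vec_mod _ _⟩
    · rintro ⟨w, hw, rfl⟩
      exact ⟨_, ⟨w, hw, rfl⟩, (vec_mod _ _).symm⟩
  rw [h2, vec_mod, vecs_gens, Submodule.span_image, ← span_gset_min, Submodule.mem_map]
  constructor
  · rintro ⟨y, hy, hy2⟩
    obtain ⟨U, rfl⟩ := (mem_span_iff I.1 I.2.2.1 y).1 hy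
    refine ⟨U, fun r hr => ?_⟩
    obtain ⟨i, hi, rfl⟩ := List.getElem_of_mem hr
    have h3 := congrFun hy2 i
    rw [prR_apply, vec_delta e hL, List.getElem?_eq_getElem hi] at h3
    simp only [Option.elim_some] at h3
    rw [h3]
    ring
  · rintro ⟨U, hU⟩
    refine ⟨_, (mem_span_iff I.1 I.2.2.1 _).2 ⟨U, rfl⟩, ?_⟩
    funext i
    rw [prR_apply, vec_delta e hL]
    cases h : I.2.2.2[i]? with
    | none => rfl
    | some r =>
      simp only [Option.elim_some]
      rw [← hU r (List.mem_of_getElem? h)]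
      ring

/-- The test for a list of characters. -/
noncomputable def decA (L : List (RepD G)) : List (ChD G) → CInst → Bool
  | [], _ => true
  | D :: M, I => tstA e L D I && decA L M I

theorem decA_iff (L : List (RepD G)) (I : CInst) : ∀ M : List (ChD G),
    (decA e L M I = true ↔ ∀ D ∈ M, tstA e L D I = true)
  | [] => by simp [decA]
  | D :: M => by
    unfold decA
    rw [Bool.and_eq_true, decA_iff L I M, List.forall_mem_cons]

theorem exists_decA (hG : ∀ x y : G, x * y = y * x) {L : List (RepD G)} (hL : ∀ g h : G,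
    (∀ D ∈ L, ∀ a < D.r, ∀ b < a, D.rho g a b = D.rho h a b) → g = h) :
    ∃ M : List (ChD G), ∀ I : CInst, CTRL e I ↔ decA e L M I = true := by
  classical
  obtain ⟨ι, hι, D, hinj, hsurj⟩ := exists_chars hG
  refine ⟨(Finset.univ : Finset ι).toList.map D, fun I => ?_⟩
  rw [decA_iff, List.forall_mem_map]
  simp only [Finset.mem_toList, Finset.mem_univ, true_imp_iff, tstA_iff e hL]
  rw [ctrl_iff_run]
  constructor
  · rintro ⟨u, hu⟩ i
    refine ⟨fun t j => (D i).chi (u t j), fun r hr => ?_⟩
    rw [← chi_run, hu r hr]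
  · intro h
    choose U hU using h
    choose u hu using fun (t j : ℕ) => hsurj fun i => U i t j
    refine ⟨u, fun r hr => hinj _ _ fun i => ?_⟩
    have h5 : (fun t j => (D i).chi (u t j)) = U i := by
      funext t j
      exact hu t j i
    rw [chi_run, h5, hU i r hr]

/-! ### Polynomial time -/

theorem poly_stL (q : ℕ) : NPC.Poly (fun x : List (Option (List (Bool × ℕ))) × List ℕ =>
    stL q x.1 x.2) := by
  unfold stL
  refine NPC.Poly.map (l := fun x : List (Option (List (Bool × ℕ))) × List ℕ =>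
    List.range x.1.length) (F := fun x j =>
      (((x.1.getD j (some [])).getD []).map fun l => bif l.1 then 0 else x.2.getD l.2 0).sum % q)
      (NPC.Poly.range_length (by fun_prop)) ?_
  have h1 : NPC.Poly (fun z : (List (Option (List (Bool × ℕ))) × List ℕ) × ℕ =>
      (z.1.1.getD z.2 (some [])).getD []) := NPC.Poly.optGetD (by fun_prop) (by fun_prop)
  have h2 : NPC.Poly (fun z : (List (Option (List (Bool × ℕ))) × List ℕ) × ℕ =>
      ((z.1.1.getD z.2 (some [])).getD []).map fun l => bif l.1 then 0 else z.1.2.getD l.2 0) := by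
    refine NPC.Poly.map (l := fun z : (List (Option (List (Bool × ℕ))) × List ℕ) × ℕ =>
      (z.1.1.getD z.2 (some [])).getD []) (F := fun z l => bif l.1 then 0 else z.1.2.getD l.2 0)
      h1 ?_
    fun_prop
  fun_prop

theorem poly_evL {α : Type} [TEnc α] {n f : α → ℕ} (hn : NPC.Poly (fun a => List.range (n a)))
    (hf : NPC.Poly f) : NPC.Poly (fun a => evL (n a) (f a)) := by
  unfold evL
  refine NPC.Poly.map (F := fun a i => if f a = i then 1 else 0) hn ?_
  fun_prop

theorem ok_foldl_stL {q n : ℕ} (hq : 0 < q) (W : List (Option (List (Bool × ℕ)))) (hn : W.length = n) :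
    ∀ (l : List ℕ) (y : List ℕ), Ok (q + 2) n y → Ok (q + 2) n (l.foldl (fun y _ => stL q W y) y)
  | [], y, h => h
  | a :: l, y, _ => by
    rw [List.foldl_cons]
    refine ok_foldl_stL hq W hn l _ ⟨by simp [stL, hn], fun c hc => ?_⟩
    unfold stL at hc
    rw [List.mem_map] at hc
    obtain ⟨j, _, rfl⟩ := hc
    exact (Nat.mod_lt _ hq).trans (by omega)

theorem poly_itL {q : ℕ} (hq : 0 < q) : NPC.Poly (itL q) := by
  have hl : NPC.Poly (fun x : List (Option (List (Bool × ℕ))) × ℕ × ℕ =>
      (List.range x.1.length).filter fun m => decide (m < x.2.2)) := by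
    refine NPC.Poly.filter (l := fun x : List (Option (List (Bool × ℕ))) × ℕ × ℕ =>
      List.range x.1.length) (p := fun x m => decide (m < x.2.2))
      (NPC.Poly.range_length (by fun_prop)) ?_
    fun_prop
  have hs : NPC.Poly (fun x : List (Option (List (Bool × ℕ))) × ℕ × ℕ =>
      evL x.1.length x.2.1) := poly_evL (NPC.Poly.range_length (by fun_prop)) (by fun_prop)
  unfold itL
  refine NPC.Poly.foldl (α := List (Option (List (Bool × ℕ))) × ℕ × ℕ)
    (l := fun x => (List.range x.1.length).filter fun m => decide (m < x.2.2))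
    (s := fun x => evL x.1.length x.2.1) (F := fun x y _ => stL q x.1 y) hl hs ?_
    (Polynomial.X * Polynomial.C (4 * (q + 2) + 2) + Polynomial.C 1) ?_
  · exact (poly_stL q).comp (f := fun z : (List (Option (List (Bool × ℕ))) × ℕ × ℕ) ×
      List ℕ × ℕ => (z.1.1, z.2.1)) (by fun_prop)
  · intro x k _
    have h1 : Ok (q + 2) x.1.length (evL x.1.length x.2.1) := by
      refine ⟨by simp [evL], fun c hc => ?_⟩
      unfold evL at hc
      rw [List.mem_map] at hc
      obtain ⟨j, _, rfl⟩ := hc
      split_ifs <;> omega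
    have h2 := sz_Ok (ok_foldl_stL hq x.1 rfl
      (((List.range x.1.length).filter fun m => decide (m < x.2.2)).take k) _ h1)
    have h3 : x.1.length ≤ sz x := by
      have := length_lt_sz x.1
      have h4 : sz x = sz x.1 + sz x.2 + 1 := sz_pair x.1 x.2
      omega
    simp only [Polynomial.eval_add, Polynomial.eval_mul, Polynomial.eval_C, Polynomial.eval_X]
    refine h2.trans ?_
    exact Nat.add_le_add_right (Nat.mul_le_mul_right _ h3) _

theorem poly_frL : NPC.Poly frL := by
  unfold frL
  refine NPC.Poly.filter (l := fun W : List (Option (List (Bool × ℕ))) => List.range W.length)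
    (p := fun W f => (W.getD f (some [])).isNone) (NPC.Poly.range_length NPC.Poly.id) ?_
  have h1 : NPC.Poly (fun z : List (Option (List (Bool × ℕ))) × ℕ =>
      z.1.getD z.2 (some [])) := by fun_prop
  have h2 : NPC.Poly (fun z : List (Option (List (Bool × ℕ))) × ℕ =>
      !(z.1.getD z.2 (some [])).isSome) := by
    have := NPC.Poly.isSome h1
    fun_prop
  refine h2.congr fun z => ?_
  cases z.1.getD z.2 (some []) <;> rfl

/-- The list of the moments before `T`. -/
def gen0 (I : CInst) : List ℕ :=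
  (List.range I.1.length).filter fun k => decide (k < I.2.2.1)

/-- One generator. -/
def gen1 (q : ℕ) (z : CInst × ℕ × ℕ) : List ℕ :=
  z.1.2.2.2.map fun r => (itL q (z.1.1, z.2.1, z.2.2)).getD r.1 0

theorem poly_gen0 : NPC.Poly gen0 := by
  unfold gen0
  refine NPC.Poly.filter (l := fun I : CInst => List.range I.1.length)
    (p := fun I k => decide (k < I.2.2.1)) (NPC.Poly.range_length (by fun_prop)) ?_
  fun_prop

theorem poly_gen1a {q : ℕ} (hq : 0 < q) : NPC.Poly (fun z : (CInst × ℕ × ℕ) × (ℕ × ℕ) =>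
    itL q (z.1.1.1, z.1.2.1, z.1.2.2)) :=
  (poly_itL hq).comp (f := fun z : (CInst × ℕ × ℕ) × (ℕ × ℕ) =>
    (z.1.1.1, z.1.2.1, z.1.2.2)) (by fun_prop)

theorem poly_gen1b {q : ℕ} (hq : 0 < q) : NPC.Poly (fun z : (CInst × ℕ × ℕ) × (ℕ × ℕ) =>
    (itL q (z.1.1.1, z.1.2.1, z.1.2.2)).getD z.2.1 0) :=
  NPC.Poly.getD (n := fun z : (CInst × ℕ × ℕ) × (ℕ × ℕ) => z.2.1) (d := fun _ => 0)
    (poly_gen1a hq) (by fun_prop) (NPC.Poly.const 0)

theorem poly_gen1 {q : ℕ} (hq : 0 < q) : NPC.Poly (gen1 q) := by
  unfold gen1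
  exact NPC.Poly.map (l := fun z : CInst × ℕ × ℕ => z.1.2.2.2)
    (F := fun z r => (itL q (z.1.1, z.2.1, z.2.2)).getD r.1 0) (by fun_prop) (poly_gen1b hq)

/-- The generators of one free cell. -/
def gen2 (q : ℕ) (z : CInst × ℕ) : List (List ℕ) :=
  (gen0 z.1).map fun k => gen1 q (z.1, z.2, k)

theorem poly_gen2 {q : ℕ} (hq : 0 < q) : NPC.Poly (gen2 q) := by
  unfold gen2
  refine NPC.Poly.map (l := fun z : CInst × ℕ => gen0 z.1)
    (F := fun z k => gen1 q (z.1, z.2, k)) (poly_gen0.comp (by fun_prop)) ?_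
  exact (poly_gen1 hq).comp (f := fun z : (CInst × ℕ) × ℕ => (z.1.1, z.1.2, z.2)) (by fun_prop)

theorem poly_gens {q : ℕ} (hq : 0 < q) : NPC.Poly (gens q) := by
  have h1 : NPC.Poly (fun I : CInst => frL I.1) := poly_frL.comp (by fun_prop)
  exact NPC.Poly.flatMap (l := fun I : CInst => frL I.1)
    (F := fun I f => gen2 q (I, f)) h1 (poly_gen2 hq)

theorem poly_cont (L : List (RepD G)) : NPC.Poly (fun z : CInst × ℕ => cont e L z.1 z.2) := by
  have h1 : NPC.Poly (fun z : (CInst × ℕ) × ℕ =>
      ver e L ((z.1.1.1, z.1.1.2.1, z.1.1.2.2.1, [(z.1.2, z.2)]), [([], z.1.1.2.2.1)])) :=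
    (poly_ver e L).comp (f := fun z : (CInst × ℕ) × ℕ =>
      (((z.1.1.1, z.1.1.2.1, z.1.1.2.2.1, [(z.1.2, z.2)]) : CInst),
        (([([], z.1.1.2.2.1)] : Pg)))) (by fun_prop)
  have h2 : NPC.Poly (fun z : CInst × ℕ => (List.range (Fintype.card G)).filter fun c =>
      ver e L ((z.1.1, z.1.2.1, z.1.2.2.1, [(z.2, c)]), [([], z.1.2.2.1)])) :=
    NPC.Poly.filter (l := fun _ : CInst × ℕ => List.range (Fintype.card G))
      (p := fun z c => ver e L ((z.1.1, z.1.2.1, z.1.2.2.1, [(z.2, c)]), [([], z.1.2.2.1)]))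
      (NPC.Poly.const _) h1
  unfold cont
  exact poly_headD' h2 (NPC.Poly.const 0)

theorem poly_chiN (D : ChD G) {α : Type} [TEnc α] {c : α → ℕ} (hc : NPC.Poly c) :
    NPC.Poly (fun a => chiN e D (c a)) := by
  unfold chiN
  fun_prop

attribute [fun_prop] poly_chiN

theorem poly_delta (L : List (RepD G)) (D : ChD G) : NPC.Poly (delta e L D) := by
  unfold delta
  refine NPC.Poly.map (l := fun I : CInst => I.2.2.2)
    (F := fun I r => chiN e D r.2 + (D.q - chiN e D (cont e L I r.1))) (by fun_prop) ?_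
  have h1 : NPC.Poly (fun z : CInst × ℕ × ℕ => cont e L z.1 z.2.1) :=
    (poly_cont e L).comp (f := fun z : CInst × ℕ × ℕ => (z.1, z.2.1)) (by fun_prop)
  fun_prop

theorem poly_tstA (L : List (RepD G)) (D : ChD G) : NPC.Poly (tstA e L D) := by
  have h1 := poly_gens D.pos
  have h2 := poly_delta e L D
  unfold tstA
  exact (poly_solve D.pos).comp (f := fun I : CInst => (gens D.q I, delta e L D I)) (by fun_prop)

theorem poly_decA (L : List (RepD G)) : ∀ M : List (ChD G), NPC.Poly (decA e L M)
  | [] => NPC.Poly.const true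
  | D :: M => by
    have h1 := poly_tstA e L D
    have h2 := poly_decA L M
    have : decA e L (D :: M) = fun I => tstA e L D I && decA e L M I := rfl
    rw [this]
    fun_prop

/-- The control problem over an abelian group is in `P`. -/
theorem ctrl_inP (hG : ∀ x y : G, x * y = y * x) : InP (lang (CTRL e)) := by
  have hnil : Group.IsNilpotent G := by
    letI : CommGroup G := { (inferInstance : Group G) with mul_comm := hG }
    exact CommGroup.isNilpotent
  obtain ⟨L, hL⟩ := exists_reps hnil
  obtain ⟨M, hM⟩ := exists_decA e hG hL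
  exact inPP_of (poly_decA e L M) hM

end chi

end Pool.Agent.W995.CT
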