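import Pool.Agent.W995.PN.Defs

/-!
# Controlled networks of cells over a finite group
-/

namespace Pool.Agent.W995.CT

open Pool.Agent.NPC Pool.Agent.W995.PN

variable {G : Type} [Group G] [Fintype G]

/-- The transitions of the controlled network with the entries `W`: if the `i`-th entry is a word
`w` then the new content of the cell `i` is the product of the letters of `w` (see `letter`); if
the `i`-th entry is `none` then the cell `i` is free, and its new content is arbitrary; the cells
without an entry get the neutral element. -/
def CStep (e : Fin (Fintype.card G) ≃ G) (W : List (Option (List (Bool × ℕ)))) (x y : ℕ → G) :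
    Prop :=
  ∀ i w, W.getD i (some []) = some w → y i = (w.map (letter e x)).prod

/-- Instances of the control problem: the entries, the initial state, the time, and a list of
requirements (cell, number of an element). -/
abbrev CInst := List (Option (List (Bool × ℕ))) × List ℕ × ℕ × List (ℕ × ℕ)

/-- The control problem for networks over `G`: given a controlled network, an initial state `s`, a
time `T` (in binary) and a list of requirements `(i, h)`, is there a run of `T` steps from the
initial state at the end of which, for all the requirements `(i, h)`, the content of the cell `i`
is the element with number `h`? -/
def CTRL (e : Fin (Fintype.card G) ≃ G) (I : CInst) : Prop :=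
  ∃ z : ℕ → ℕ → G, z 0 = start e I.2.1 ∧ (∀ t < I.2.2.1, CStep e I.1 (z t) (z (t + 1))) ∧
    ∀ q ∈ I.2.2.2, z I.2.2.1 q.1 = el e q.2

end Pool.Agent.W995.CT
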