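import Pool.Agent.W995.CT.Defs
import Pool.Agent.W995.PN.RedPoly

/-!
# The control problem contains the prediction problem
-/

namespace Pool.Agent.W995.CT

open Pool.Agent.NPC Pool.Agent.W995.PN Pool.Agent.H623R2.PS

variable {G : Type} [Group G] [Fintype G] (e : Fin (Fintype.card G) ≃ G)

/-- The reduction. -/
def ofPred (I : PN.Inst) : CInst := (I.1.map some, I.2.1, I.2.2.1, [(I.2.2.2.1, I.2.2.2.2)])

theorem cstep_map_some (W : List (List (Bool × ℕ))) (x y : ℕ → G) :
    CStep e (W.map some) x y ↔ y = step e W x := by
  have h1 : ∀ i, (W.map some).getD i (some []) = some (W.getD i []) := by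
    intro i
    rw [List.getD_eq_getElem?_getD, List.getElem?_map, List.getD_eq_getElem?_getD]
    cases W[i]? <;> rfl
  unfold CStep
  constructor
  · intro h
    funext i
    exact h i _ (h1 i)
  · rintro rfl i w hw
    rw [h1, Option.some.injEq] at hw
    rw [← hw]
    rfl

theorem ctrl_ofPred (I : PN.Inst) : PRED e I ↔ CTRL e (ofPred I) := by
  unfold PRED CTRL ofPred
  simp only [cstep_map_some, List.mem_singleton, forall_eq]
  constructor
  · intro h
    exact ⟨fun t => (step e I.1)^[t] (start e I.2.1), rfl,
      fun t _ => Function.iterate_succ_apply' _ _ _, h⟩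
  · rintro ⟨z, h0, h1, h2⟩
    have key : ∀ t ≤ I.2.2.1, z t = (step e I.1)^[t] (start e I.2.1) := by
      intro t
      induction t with
      | zero => intro _; exact h0
      | succ t ih =>
        intro ht
        rw [h1 t (by omega), ih (by omega), Function.iterate_succ_apply']
    rw [← key _ le_rfl]
    exact h2

theorem poly_ofPred : NPC.Poly ofPred := by
  have h1 : NPC.Poly (fun I : PN.Inst => I.1.map some) := by fun_prop
  have : ofPred = fun I : PN.Inst =>
    (I.1.map some, I.2.1, I.2.2.1, [(I.2.2.2.1, I.2.2.2.2)]) := rfl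
  rw [this]
  fun_prop

/-- The control problem is `PSPACE`-hard if the group is not nilpotent. -/
theorem ctrl_hard (hG : ¬ Group.IsNilpotent G) : PSPACEHard (lang (CTRL e)) := fun _ hL =>
  (pred_hard e hG _ hL).trans (reduces_lang poly_ofPred (ctrl_ofPred e))

end Pool.Agent.W995.CT
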