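import Mathlib

/-!
# A pair of elements of a nilpotent non-abelian finite group
-/

namespace Pool.Agent.W995.CT

variable {G : Type} [Group G]

open scoped commutatorElement

/-- The element `y` is in the second centre. -/
def InZ2 (y : G) : Prop := ∀ g h : G, ⁅⁅y, g⁆, h⁆ = 1

theorem exists_z2 (hG : Group.IsNilpotent G) (hne : ∃ x y : G, x * y ≠ y * x) :
    ∃ a b : G, InZ2 a ∧ a * b ≠ b * a := by
  classical
  rw [Subgroup.nilpotent_iff_lowerCentralSeries] at hG
  set n := Nat.find hG with hn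
  have h1 : (⊤ : Subgroup G).lowerCentralSeries n = ⊥ := Nat.find_spec hG
  have h2 : ∀ m < n, (⊤ : Subgroup G).lowerCentralSeries m ≠ ⊥ := fun m hm => Nat.find_min hG hm
  obtain ⟨x, y, hxy⟩ := hne
  have hn2 : 2 ≤ n := by
    by_contra hlt
    have h3 : (⊤ : Subgroup G).lowerCentralSeries 1 = ⊥ := by
      rcases (by omega : n = 0 ∨ n = 1) with h | h
      · rw [h] at h1
        rw [eq_bot_iff, ← h1]
        exact Subgroup.lowerCentralSeries_antitone _ (by omega)
      · rw [← h]; exact h1
    apply hxy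
    have h4 : ⁅x, y⁆ ∈ (⊤ : Subgroup G).lowerCentralSeries 1 := by
      rw [Subgroup.lowerCentralSeries_succ]
      exact Subgroup.commutator_mem_commutator (by simp) (by simp)
    rw [h3, Subgroup.mem_bot, commutatorElement_eq_one_iff_mul_comm] at h4
    exact h4
  obtain ⟨m, hm⟩ : ∃ m, n = m + 2 := ⟨n - 2, by omega⟩
  have h5 : (⊤ : Subgroup G).lowerCentralSeries (m + 1) ≠ ⊥ := h2 _ (by omega)
  have h6 : ∃ a ∈ (⊤ : Subgroup G).lowerCentralSeries m, ∃ b : G, a * b ≠ b * a := by
    by_contra hcon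
    push Not at hcon
    apply h5
    rw [Subgroup.lowerCentralSeries_succ, eq_bot_iff, Subgroup.commutator_le]
    intro p hp q _
    rw [Subgroup.mem_bot, commutatorElement_eq_one_iff_mul_comm]
    exact hcon p hp q
  obtain ⟨a, ha, b, hab⟩ := h6
  refine ⟨a, b, fun g h => ?_, hab⟩
  have h7 : ⁅a, g⁆ ∈ (⊤ : Subgroup G).lowerCentralSeries (m + 1) := by
    rw [Subgroup.lowerCentralSeries_succ]
    exact Subgroup.commutator_mem_commutator ha (by simp)
  have h8 : ⁅⁅a, g⁆, h⁆ ∈ (⊤ : Subgroup G).lowerCentralSeries (m + 2) := by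
    rw [Subgroup.lowerCentralSeries_succ]
    exact Subgroup.commutator_mem_commutator h7 (by simp)
  rw [← hm, h1, Subgroup.mem_bot] at h8
  exact h8

/-- A pair of elements for the encoding of truth values. -/
theorem exists_pair [Finite G] (hG : Group.IsNilpotent G) (hne : ∃ x y : G, x * y ≠ y * x) :
    ∃ a b : G, InZ2 a ∧ a * b ≠ b * a ∧ ∀ y : G, InZ2 y → (∀ x, a * x = x * a → y * x = x * y) →
      ∀ x, y * x = x * y → (∀ g, y * g = g * y) ∨ a * x = x * a := by
  classical
  haveI := Fintype.ofFinite G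
  obtain ⟨a0, b0, h1, h2⟩ := exists_z2 hG hne
  set A : Finset G := Finset.univ.filter fun a => InZ2 a ∧ ∃ b, a * b ≠ b * a with hA
  have hA0 : A.Nonempty := ⟨a0, by rw [hA, Finset.mem_filter]; exact ⟨Finset.mem_univ _, h1, b0, h2⟩⟩
  obtain ⟨a, ha, hmax⟩ := A.exists_max_image
    (fun a => (Finset.univ.filter fun x : G => a * x = x * a).card) hA0
  rw [hA, Finset.mem_filter] at ha
  obtain ⟨_, ha1, b, hab⟩ := ha
  refine ⟨a, b, ha1, hab, fun y hy hsub x hx => ?_⟩
  by_cases hc : ∀ g, y * g = g * y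
  · exact Or.inl hc
  · right
    push Not at hc
    have h3 : y ∈ A := by rw [hA, Finset.mem_filter]; exact ⟨Finset.mem_univ _, hy, hc⟩
    have h4 := hmax y h3
    have h5 : (Finset.univ.filter fun x : G => a * x = x * a) =
        (Finset.univ.filter fun x : G => y * x = x * y) := by
      refine Finset.eq_of_subset_of_card_le ?_ h4
      intro z hz
      rw [Finset.mem_filter] at hz ⊢
      exact ⟨hz.1, hsub z hz.2⟩
    have h6 : x ∈ (Finset.univ.filter fun x : G => y * x = x * y) := by
      rw [Finset.mem_filter]; exact ⟨Finset.mem_univ _, hx⟩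
    rw [← h5, Finset.mem_filter] at h6
    exact h6.2

end Pool.Agent.W995.CT
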