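import Pool.Agent.W995.CT.Basic
import Pool.Agent.W995.CT.Pair
import Pool.Agent.W995.PN.PSp
import Pool.Agent.NPC.Sat2
import Pool.Agent.H623R2.PS.Savitch

/-!
# The control problem is `NP`-hard for nilpotent non-abelian groups
-/

namespace Pool.Agent.W995.CT

open Pool.Agent.NPC Pool.Agent.W995.PN

open scoped commutatorElement

/-- Words. -/
abbrev Wd := List (Bool × ℕ)

/-- Powers of words. -/
def rep : ℕ → Wd → Wd
  | 0, _ => []
  | k + 1, w => w ++ rep k w

/-- Commutators of words. -/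
def cw (k : ℕ) (u v : Wd) : Wd := u ++ (v ++ (rep k u ++ rep k v))

section sem

variable {G : Type} [Group G] [Fintype G] (e : Fin (Fintype.card G) ≃ G)

/-- The value of a word. -/
def P (x : ℕ → G) (w : Wd) : G := (w.map (letter e x)).prod

theorem P_append (x : ℕ → G) (u v : Wd) : P e x (u ++ v) = P e x u * P e x v := by
  unfold P
  rw [List.map_append, List.prod_append]

theorem P_rep (x : ℕ → G) (w : Wd) (k : ℕ) : P e x (rep k w) = P e x w ^ k := by
  induction k with
  | zero => simp [rep, P]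
  | succ k ih => rw [rep, P_append, ih, pow_succ']

theorem P_cell (x : ℕ → G) (i : ℕ) : P e x [(false, i)] = x i := by simp [P, letter]

theorem P_cst (x : ℕ → G) (g : G) : P e x [(true, code e g)] = g := by simp [P, letter, el_code]

theorem P_cst' (x : ℕ → G) (c : ℕ) : P e x [(true, c)] = el e c := by simp [P, letter]

theorem pow_inv' (g : G) : g ^ (Fintype.card G - 1) = g⁻¹ := by
  rw [eq_inv_iff_mul_eq_one, ← pow_succ]
  have : Fintype.card G - 1 + 1 = Fintype.card G := Nat.sub_add_cancel Fintype.card_pos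
  rw [this, pow_card_eq_one]

theorem P_cw (x : ℕ → G) (u v : Wd) :
    P e x (cw (Fintype.card G - 1) u v) = ⁅P e x u, P e x v⁆ := by
  unfold cw
  rw [P_append, P_append, P_append, P_rep, P_rep, pow_inv', pow_inv', commutatorElement_def]
  group

theorem P_cw_eq_one (x : ℕ → G) (u v : Wd) : P e x (cw (Fintype.card G - 1) u v) = 1 ↔
    P e x u * P e x v = P e x v * P e x u := by
  rw [P_cw, commutatorElement_eq_one_iff_mul_comm]

/-! ### Systems of equations -/

/-- The instance for a system of equations in `F` variables. -/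
def sysI (F : ℕ) (eqs : List Wd) : CInst :=
  (List.replicate F none ++ eqs.map some, [], 2, (List.range eqs.length).map fun k =>
    (F + k, code e 1))

theorem P_congr {x y : ℕ → G} {w : Wd} {F : ℕ} (hb : ∀ l ∈ w, l.1 = false → l.2 < F)
    (h : ∀ i < F, x i = y i) : P e x w = P e y w := by
  unfold P
  congr 1
  refine List.map_congr_left fun l hl => ?_
  obtain ⟨b, i⟩ := l
  cases b
  · exact h i (hb _ hl rfl)
  · rfl

theorem ctrl_sysI {F : ℕ} {eqs : List Wd} (hb : ∀ w ∈ eqs, ∀ l ∈ w, l.1 = false → l.2 < F) :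
    CTRL e (sysI e F eqs) ↔ ∃ x : ℕ → G, ∀ w ∈ eqs, P e x w = 1 := by
  rw [ctrl_iff_run]
  unfold sysI
  simp only [List.forall_mem_map, List.mem_range, el_code]
  have hg1 : ∀ i < F, (List.replicate F none ++ eqs.map some).getD i (some []) = none := by
    intro i hi
    rw [List.getD_eq_getElem?_getD, List.getElem?_append_left (by simpa using hi),
      List.getElem?_replicate, if_pos hi]
    rfl
  have hg2 : ∀ k (hk : k < eqs.length),
      (List.replicate F none ++ eqs.map some).getD (F + k) (some []) = some eqs[k] := by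
    intro k hk
    rw [List.getD_eq_getElem?_getD, List.getElem?_append_right (by simp)]
    simp [hk]
  have hr : ∀ (u : ℕ → ℕ → G) (k : ℕ) (hk : k < eqs.length),
      run e (List.replicate F none ++ eqs.map some) (start e []) u 2 (F + k) =
        P e (u 0) eqs[k] := by
    intro u k hk
    rw [run]
    conv_lhs => rw [nxt]
    rw [hg2 k hk]
    simp only [Option.map_some, Option.getD_some]
    refine P_congr e (F := F) (hb _ (List.getElem_mem hk)) fun i hi => ?_
    rw [run]
    conv_lhs => rw [nxt]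
    rw [hg1 i hi]
    rfl
  constructor
  · rintro ⟨u, hu⟩
    refine ⟨u 0, fun w hw => ?_⟩
    obtain ⟨k, hk, rfl⟩ := List.getElem_of_mem hw
    rw [← hr u k hk]
    exact hu k hk
  · rintro ⟨x, hx⟩
    exact ⟨fun _ => x, fun k hk => by rw [hr _ k hk]; exact hx _ (List.getElem_mem hk)⟩

/-! ### The equations for a formula -/

/-- The equations for a variable. -/
def varE (k : ℕ) (as : List ℕ) (n : ℕ) (v : ℕ) : List Wd :=
  ((List.range n).flatMap fun g => (List.range n).map fun h =>
    cw k (cw k [(false, v)] [(true, g)]) [(true, h)]) ++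
  as.map fun c => cw k [(false, v)] [(true, c)]

/-- The word for a literal. -/
def litW (ai : ℕ) (l : Lit ℕ) : Wd := bif l.1 then [(false, l.2), (true, ai)] else [(false, l.2)]

/-- The equations for a clause. -/
def clE (k a ai bi N : ℕ) (c : (Lit ℕ × Lit ℕ × Lit ℕ) × ℕ) : List Wd :=
  [cw k (litW ai c.1.1) [(false, N + 3 * c.2)], cw k (litW ai c.1.2.1) [(false, N + 3 * c.2 + 1)],
    cw k (litW ai c.1.2.2) [(false, N + 3 * c.2 + 2)],
    cw k [(true, a)] [(false, N + 3 * c.2), (false, N + 3 * c.2 + 1), (false, N + 3 * c.2 + 2),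
      (true, bi)]]

/-- All equations. -/
def eqsF (k a ai bi n : ℕ) (as : List ℕ) (φ : List (Lit ℕ × Lit ℕ × Lit ℕ)) : List Wd :=
  ((List.range (3 * φ.length)).flatMap fun v => varE k as n v) ++
    φ.zipIdx.flatMap fun c => clE k a ai bi (3 * φ.length) c

end sem

/-! ### Bounds on the cells -/

/-- The cells in a word are below a bound. -/
def Bd (F : ℕ) (w : Wd) : Prop := ∀ l ∈ w, l.1 = false → l.2 < F

theorem Bd.append {F : ℕ} {u v : Wd} (hu : Bd F u) (hv : Bd F v) : Bd F (u ++ v) := by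
  intro l hl
  rw [List.mem_append] at hl
  rcases hl with h | h
  · exact hu l h
  · exact hv l h

theorem Bd.rep {F : ℕ} {u : Wd} (hu : Bd F u) (k : ℕ) : Bd F (rep k u) := by
  induction k with
  | zero => intro l hl; simp [CT.rep] at hl
  | succ k ih => exact hu.append ih

theorem Bd.cw {F : ℕ} {u v : Wd} (hu : Bd F u) (hv : Bd F v) (k : ℕ) : Bd F (cw k u v) :=
  hu.append (hv.append ((hu.rep k).append (hv.rep k)))

theorem Bd.cell {F i : ℕ} (h : i < F) : Bd F [(false, i)] := by
  intro l hl _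
  rw [List.mem_singleton] at hl
  subst hl
  exact h

theorem Bd.cst {F c : ℕ} : Bd F [(true, c)] := by
  intro l hl h
  rw [List.mem_singleton] at hl
  subst hl
  simp at h

theorem Bd.nil {F : ℕ} : Bd F [] := by intro l hl; simp at hl

theorem Bd.cons {F : ℕ} {l : Bool × ℕ} {w : Wd} (hl : l.1 = false → l.2 < F) (hw : Bd F w) :
    Bd F (l :: w) := by
  intro l' hl'
  rw [List.mem_cons] at hl'
  rcases hl' with rfl | h
  · exact hl
  · exact hw l' h

theorem bd_litW {F ai : ℕ} {l : Lit ℕ} (h : l.2 < F) : Bd F (litW ai l) := by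
  unfold litW
  cases l.1
  · exact Bd.cell h
  · exact Bd.cons (fun _ => h) Bd.cst

theorem bd_eqsF {k a ai bi n : ℕ} {as : List ℕ} {φ : List (Lit ℕ × Lit ℕ × Lit ℕ)}
    (hφ : Bounded3 φ) : ∀ w ∈ eqsF k a ai bi n as φ, Bd (6 * φ.length) w := by
  intro w hw
  unfold eqsF at hw
  rw [List.mem_append, List.mem_flatMap, List.mem_flatMap] at hw
  rcases hw with ⟨v, hv, hw⟩ | ⟨c, hc, hw⟩
  · rw [List.mem_range] at hv
    unfold varE at hw
    rw [List.mem_append, List.mem_flatMap, List.mem_map] at hw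
    rcases hw with ⟨g, _, hw⟩ | ⟨c, _, rfl⟩
    · rw [List.mem_map] at hw
      obtain ⟨h, _, rfl⟩ := hw
      exact Bd.cw (Bd.cw (Bd.cell (by omega)) Bd.cst _) Bd.cst _
    · exact Bd.cw (Bd.cell (by omega)) Bd.cst _
  · obtain ⟨c, j⟩ := c
    rw [List.mem_zipIdx_iff_getElem?] at hc
    simp only at hc
    obtain ⟨hj, hcj⟩ := List.getElem?_eq_some_iff.1 hc
    obtain ⟨h1, h2, h3⟩ := hφ c (hcj ▸ List.getElem_mem hj)
    unfold clE at hw
    simp only [List.mem_cons, List.not_mem_nil, or_false] at hw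
    rcases hw with rfl | rfl | rfl | rfl
    · exact Bd.cw (bd_litW (by omega)) (Bd.cell (by omega)) _
    · exact Bd.cw (bd_litW (by omega)) (Bd.cell (by omega)) _
    · exact Bd.cw (bd_litW (by omega)) (Bd.cell (by omega)) _
    · refine Bd.cw Bd.cst ?_ _
      refine Bd.cons ?_ (Bd.cons ?_ (Bd.cons ?_ Bd.cst)) <;> (intro _; simp only; omega)

section corr

variable {G : Type} [Group G] [Fintype G] (e : Fin (Fintype.card G) ≃ G)

/-- The numbers of the elements that commute with `a`. -/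
noncomputable def cenL (a : G) : List ℕ := by
  classical
  exact (List.range (Fintype.card G)).filter fun c => decide (a * el e c = el e c * a)

theorem mem_cenL {a : G} {c : ℕ} : c ∈ cenL e a ↔ c < Fintype.card G ∧ a * el e c = el e c * a := by
  unfold cenL
  simp only [List.mem_filter, List.mem_range, decide_eq_true_eq]

theorem varE_iff (x : ℕ → G) (a : G) (v : ℕ) :
    (∀ w ∈ varE (Fintype.card G - 1) (cenL e a) (Fintype.card G) v, P e x w = 1) ↔
      InZ2 (x v) ∧ ∀ g, a * g = g * a → x v * g = g * x v := by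
  unfold varE
  simp only [List.forall_mem_append, List.forall_mem_flatMap, List.forall_mem_map, List.mem_range,
    mem_cenL]
  constructor
  · rintro ⟨h1, h2⟩
    constructor
    · intro g h
      have := h1 _ (code_lt e g) _ (code_lt e h)
      rw [P_cw, P_cw, P_cell, P_cst, P_cst] at this
      exact this
    · intro g hg
      have := h2 (code e g) ⟨code_lt e g, by rw [el_code]; exact hg⟩
      rw [P_cw_eq_one, P_cell, P_cst] at this
      exact this
  · rintro ⟨h1, h2⟩
    constructor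
    · intro g _ h _
      rw [P_cw, P_cw, P_cell, P_cst', P_cst']
      exact h1 _ _
    · intro c hc
      rw [P_cw_eq_one, P_cell, P_cst']
      exact h2 _ hc.2

theorem P_litW (x : ℕ → G) (a : G) (l : Lit ℕ) :
    P e x (litW (code e a⁻¹) l) = bif l.1 then x l.2 * a⁻¹ else x l.2 := by
  unfold litW
  cases l.1
  · simp only [cond_false]; rw [P_cell]
  · simp only [cond_true]
    have : ([(false, l.2), (true, code e a⁻¹)] : Wd) = [(false, l.2)] ++ [(true, code e a⁻¹)] := rfl
    rw [this, P_append, P_cell, P_cst]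

theorem clE_iff (x : ℕ → G) (a b : G) (N : ℕ) (c : (Lit ℕ × Lit ℕ × Lit ℕ) × ℕ) :
    (∀ w ∈ clE (Fintype.card G - 1) (code e a) (code e a⁻¹) (code e b⁻¹) N c, P e x w = 1) ↔
      ((bif c.1.1.1 then x c.1.1.2 * a⁻¹ else x c.1.1.2) * x (N + 3 * c.2) =
        x (N + 3 * c.2) * (bif c.1.1.1 then x c.1.1.2 * a⁻¹ else x c.1.1.2)) ∧
      ((bif c.1.2.1.1 then x c.1.2.1.2 * a⁻¹ else x c.1.2.1.2) * x (N + 3 * c.2 + 1) =
        x (N + 3 * c.2 + 1) * (bif c.1.2.1.1 then x c.1.2.1.2 * a⁻¹ else x c.1.2.1.2)) ∧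
      ((bif c.1.2.2.1 then x c.1.2.2.2 * a⁻¹ else x c.1.2.2.2) * x (N + 3 * c.2 + 2) =
        x (N + 3 * c.2 + 2) * (bif c.1.2.2.1 then x c.1.2.2.2 * a⁻¹ else x c.1.2.2.2)) ∧
      (a * (x (N + 3 * c.2) * x (N + 3 * c.2 + 1) * x (N + 3 * c.2 + 2) * b⁻¹) =
        (x (N + 3 * c.2) * x (N + 3 * c.2 + 1) * x (N + 3 * c.2 + 2) * b⁻¹) * a) := by
  unfold clE
  simp only [List.forall_mem_cons, List.not_mem_nil, false_imp_iff, implies_true, and_true]
  have h4 : P e x [(false, N + 3 * c.2), (false, N + 3 * c.2 + 1), (false, N + 3 * c.2 + 2),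
      (true, code e b⁻¹)] =
      x (N + 3 * c.2) * x (N + 3 * c.2 + 1) * x (N + 3 * c.2 + 2) * b⁻¹ := by
    simp [P, letter, el_code, mul_assoc]
  rw [P_cw_eq_one, P_cw_eq_one, P_cw_eq_one, P_cw_eq_one, P_litW, P_litW, P_litW, P_cell, P_cell,
    P_cell, P_cst, h4]

theorem eqsF_iff (x : ℕ → G) (a b : G) (φ : List (Lit ℕ × Lit ℕ × Lit ℕ)) :
    (∀ w ∈ eqsF (Fintype.card G - 1) (code e a) (code e a⁻¹) (code e b⁻¹) (Fintype.card G)
      (cenL e a) φ, P e x w = 1) ↔
    (∀ v < 3 * φ.length, ∀ w ∈ varE (Fintype.card G - 1) (cenL e a) (Fintype.card G) v,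
      P e x w = 1) ∧
    ∀ c ∈ φ.zipIdx, ∀ w ∈ clE (Fintype.card G - 1) (code e a) (code e a⁻¹) (code e b⁻¹)
      (3 * φ.length) c, P e x w = 1 := by
  unfold eqsF
  simp only [List.forall_mem_append, List.forall_mem_flatMap, List.mem_range]

theorem sat_iff {a b : G} (ha : InZ2 a) (hab : a * b ≠ b * a)
    (hp : ∀ y : G, InZ2 y → (∀ x, a * x = x * a → y * x = x * y) →
      ∀ x, y * x = x * y → (∀ g, y * g = g * y) ∨ a * x = x * a)
    {φ : List (Lit ℕ × Lit ℕ × Lit ℕ)} (hφ : Bounded3 φ) :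
    SAT3 φ ↔ ∃ x : ℕ → G, ∀ w ∈ eqsF (Fintype.card G - 1) (code e a) (code e a⁻¹) (code e b⁻¹)
      (Fintype.card G) (cenL e a) φ, P e x w = 1 := by
  classical
  simp only [eqsF_iff, varE_iff, clE_iff]
  have hlit : ∀ (c : Lit ℕ × Lit ℕ × Lit ℕ) (j : ℕ), (c, j) ∈ φ.zipIdx → c ∈ φ := by
    intro c j h
    rw [List.mem_zipIdx_iff_getElem?] at h
    exact List.mem_of_getElem? h
  constructor
  · rintro ⟨τ, hτ⟩
    -- choose a true literal in each clause
    have hch : ∀ j : ℕ, ∃ k, k < 3 ∧ ∀ c : Lit ℕ × Lit ℕ × Lit ℕ, φ[j]? = some c →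
        (k = 0 → τ c.1.2 = c.1.1) ∧ (k = 1 → τ c.2.1.2 = c.2.1.1) ∧
        (k = 2 → τ c.2.2.2 = c.2.2.1) := by
      intro j
      cases h : φ[j]? with
      | none => exact ⟨0, by omega, fun c hc => by simp at hc⟩
      | some c =>
        rcases hτ c (List.mem_of_getElem? h) with h1 | h1 | h1
        · exact ⟨0, by omega, fun c' hc => by
            rw [Option.some.injEq] at hc; subst hc; simp [h1]⟩
        · exact ⟨1, by omega, fun c' hc => by
            rw [Option.some.injEq] at hc; subst hc; simp [h1]⟩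
        · exact ⟨2, by omega, fun c' hc => by
            rw [Option.some.injEq] at hc; subst hc; simp [h1]⟩
    choose κ hκ hκ' using hch
    set N := 3 * φ.length with hN
    set x : ℕ → G := fun i => if i < N then (if τ i = true then a else 1) else
      if (i - N) % 3 = κ ((i - N) / 3) then b else 1 with hx
    have hx1 : ∀ v, v < N → x v = if τ v = true then a else 1 := fun v hv => if_pos hv
    have hx2 : ∀ j k, k < 3 → x (N + 3 * j + k) = if k = κ j then b else 1 := by
      intro j k hk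
      have e1 : ¬ (N + 3 * j + k < N) := by omega
      have e2 : (N + 3 * j + k - N) % 3 = k := by omega
      have e3 : (N + 3 * j + k - N) / 3 = j := by omega
      simp only [hx, e1, if_false, e2, e3]
    have hx3 : ∀ j, x (N + 3 * j) = if 0 = κ j then b else 1 := fun j => hx2 j 0 (by omega)
    refine ⟨x, fun v hv => ?_, ?_⟩
    · rw [hx1 v hv]
      split_ifs
      · exact ⟨ha, fun g hg => hg⟩
      · refine ⟨fun g h => ?_, fun g _ => by simp⟩
        simp
    · rintro ⟨c, j⟩ hc
      have hcm := hφ c (hlit c j hc)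
      have hcj : φ[j]? = some c := by rw [List.mem_zipIdx_iff_getElem?] at hc; exact hc
      obtain ⟨g0, g1, g2⟩ := hκ' j c hcj
      have hL : ∀ l : Lit ℕ, l.2 < N → τ l.2 = l.1 → (bif l.1 then x l.2 * a⁻¹ else x l.2) = 1 := by
        intro l hl ht
        rw [hx1 _ hl, ht]
        cases l.1 <;> simp
      simp only
      rw [hx3, hx2 j 1 (by omega), hx2 j 2 (by omega)]
      refine ⟨?_, ?_, ?_, ?_⟩
      · split_ifs with h
        · rw [hL _ hcm.1 (g0 h.symm)]; simp
        · simp
      · split_ifs with h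
        · rw [hL _ hcm.2.1 (g1 h.symm)]; simp
        · simp
      · split_ifs with h
        · rw [hL _ hcm.2.2 (g2 h.symm)]; simp
        · simp
      · have h3 : κ j < 3 := hκ j
        rcases (by omega : κ j = 0 ∨ κ j = 1 ∨ κ j = 2) with h | h | h <;> rw [h] <;> simp
  · rintro ⟨x, hx1, hx2⟩
    refine ⟨fun v => decide (¬ ∀ g, x v * g = g * x v), fun c hc => ?_⟩
    obtain ⟨j, hj, rfl⟩ := List.getElem_of_mem hc
    have hmem : (φ[j], j) ∈ φ.zipIdx := by
      rw [List.mem_zipIdx_iff_getElem?]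
      exact List.getElem?_eq_getElem hj
    obtain ⟨h0, h1, h2, h3⟩ := hx2 _ hmem
    have hb := hφ _ (List.getElem_mem hj)
    by_contra hcon
    rw [not_or, not_or] at hcon
    have key : ∀ (l : Lit ℕ) (u : G), l.2 < 3 * φ.length →
        decide (¬ ∀ g, x l.2 * g = g * x l.2) ≠ l.1 →
        (bif l.1 then x l.2 * a⁻¹ else x l.2) * u = u * (bif l.1 then x l.2 * a⁻¹ else x l.2) →
        a * u = u * a := by
      rintro ⟨s, v⟩ u hv hne hcom
      simp only at hv hne hcom
      cases s
      · simp only [cond_false] at hcom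
        have hnc : ¬ ∀ g, x v * g = g * x v := by
          intro h
          apply hne
          simp [h]
        rcases hp (x v) (hx1 v hv).1 (hx1 v hv).2 u hcom with h | h
        · exact absurd h hnc
        · exact h
      · simp only [cond_true] at hcom
        have hc : ∀ g, x v * g = g * x v := by
          by_contra h
          apply hne
          simp [h]
        have h5 : x v * (a⁻¹ * u) = x v * (u * a⁻¹) := by
          rw [← mul_assoc, hcom, ← mul_assoc, ← hc u, mul_assoc]
        exact Commute.inv_left_iff.1 (mul_left_cancel h5)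
    have k0 : Commute a (x (3 * φ.length + 3 * j)) := key _ _ hb.1 hcon.1 h0
    have k1 : Commute a (x (3 * φ.length + 3 * j + 1)) := key _ _ hb.2.1 hcon.2.1 h1
    have k2 : Commute a (x (3 * φ.length + 3 * j + 2)) := key _ _ hb.2.2 hcon.2.2 h2
    have k3 : Commute a (x (3 * φ.length + 3 * j) * x (3 * φ.length + 3 * j + 1) *
      x (3 * φ.length + 3 * j + 2) * b⁻¹) := h3
    have k4 := ((k0.mul_right k1).mul_right k2).inv_right.mul_right k3
    rw [inv_mul_cancel_left] at k4
    exact hab (Commute.inv_right_iff.1 k4)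

/-! ### Polynomial time -/

section poly

variable {α : Type} [TEnc α]

theorem poly_rep (k : ℕ) {w : α → Wd} (hw : NPC.Poly w) : NPC.Poly (fun a => rep k (w a)) := by
  induction k with
  | zero => exact NPC.Poly.const _
  | succ k ih =>
    have : (fun a => rep (k + 1) (w a)) = fun a => w a ++ rep k (w a) := rfl
    rw [this]
    fun_prop

attribute [fun_prop] poly_rep

theorem poly_cw (k : ℕ) {u v : α → Wd} (hu : NPC.Poly u) (hv : NPC.Poly v) :
    NPC.Poly (fun a => cw k (u a) (v a)) := by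
  unfold cw
  fun_prop

attribute [fun_prop] poly_cw

theorem poly_litW (ai : ℕ) {l : α → Lit ℕ} (hl : NPC.Poly l) :
    NPC.Poly (fun a => litW ai (l a)) := by
  unfold litW
  fun_prop

attribute [fun_prop] poly_litW

theorem poly_varE (k n : ℕ) (as : List ℕ) : NPC.Poly (fun v : ℕ => varE k as n v) := by
  unfold varE
  fun_prop

theorem poly_clE' (k a ai bi : ℕ) {m : α → ℕ} {l1 l2 l3 : α → Lit ℕ} (hm : NPC.Poly m)
    (h1 : NPC.Poly l1) (h2 : NPC.Poly l2) (h3 : NPC.Poly l3) : NPC.Poly (fun x =>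
    [cw k (litW ai (l1 x)) [(false, m x)], cw k (litW ai (l2 x)) [(false, m x + 1)],
    cw k (litW ai (l3 x)) [(false, m x + 2)],
    cw k [(true, a)] [(false, m x), (false, m x + 1), (false, m x + 2), (true, bi)]]) := by
  fun_prop

theorem poly_clE (k a ai bi : ℕ) : NPC.Poly (fun p : ℕ × (Lit ℕ × Lit ℕ × Lit ℕ) × ℕ =>
    clE k a ai bi p.1 p.2) := by
  unfold clE
  exact poly_clE' k a ai bi (m := fun p : ℕ × (Lit ℕ × Lit ℕ × Lit ℕ) × ℕ => p.1 + 3 * p.2.2)
    (by fun_prop) (by fun_prop) (by fun_prop) (by fun_prop)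

theorem poly_eqsF (k a ai bi n : ℕ) (as : List ℕ) : NPC.Poly (eqsF k a ai bi n as) := by
  have h1 : UPoly (fun φ : List (Lit ℕ × Lit ℕ × Lit ℕ) => 3 * φ.length) :=
    UPoly.mul (UPoly.const _) (UPoly.length NPC.Poly.id)
  have h2 := h1.toPoly
  have h3 := h1.range
  have h4 := poly_varE k n as
  unfold eqsF
  refine NPC.Poly.append ?_ ?_
  · have h5 : NPC.Poly (fun p : List (Lit ℕ × Lit ℕ × Lit ℕ) × ℕ => p.2) :=
      NPC.Poly.snd NPC.Poly.id
    have h6 : NPC.Poly (fun p : List (Lit ℕ × Lit ℕ × Lit ℕ) × ℕ => varE k as n p.2) :=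
      NPC.Poly.comp (g := varE k as n) h4 h5
    exact NPC.Poly.flatMap (l := fun φ : List (Lit ℕ × Lit ℕ × Lit ℕ) =>
      List.range (3 * φ.length)) (F := fun _ v => varE k as n v) h3 h6
  · have h7 : NPC.Poly (fun p : List (Lit ℕ × Lit ℕ × Lit ℕ) ×
        (Lit ℕ × Lit ℕ × Lit ℕ) × ℕ => ((3 * p.1.length, p.2) :
          ℕ × (Lit ℕ × Lit ℕ × Lit ℕ) × ℕ)) :=
      NPC.Poly.pair (h2.comp (NPC.Poly.fst NPC.Poly.id)) (NPC.Poly.snd NPC.Poly.id)
    have h8 : NPC.Poly (fun p : List (Lit ℕ × Lit ℕ × Lit ℕ) ×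
        (Lit ℕ × Lit ℕ × Lit ℕ) × ℕ => clE k a ai bi (3 * p.1.length) p.2) :=
      NPC.Poly.comp (g := fun p : ℕ × (Lit ℕ × Lit ℕ × Lit ℕ) × ℕ => clE k a ai bi p.1 p.2)
        (f := fun p : List (Lit ℕ × Lit ℕ × Lit ℕ) × (Lit ℕ × Lit ℕ × Lit ℕ) × ℕ =>
          (3 * p.1.length, p.2)) (poly_clE k a ai bi) h7
    exact NPC.Poly.flatMap (l := fun φ : List (Lit ℕ × Lit ℕ × Lit ℕ) => φ.zipIdx)
      (F := fun φ c => clE k a ai bi (3 * φ.length) c) (NPC.Poly.zipIdx NPC.Poly.id) h8

end poly

theorem poly_sysI {α : Type} [TEnc α] {F : α → ℕ} {eqs : α → List Wd} (hF : UPoly F)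
    (he : NPC.Poly eqs) : NPC.Poly (fun a => sysI e (F a) (eqs a)) := by
  have h1 := hF.toPoly
  have h2 := Pool.Agent.H623R2.PS.poly_replicate hF (none : Option Wd)
  have h3 : NPC.Poly (fun a => List.range (eqs a).length) := (UPoly.length he).range
  unfold sysI
  have h4 : NPC.Poly (fun a => (eqs a).map some) := by fun_prop
  have h5 : NPC.Poly (fun a => (List.range (eqs a).length).map fun k => (F a + k, code e 1)) := by
    refine NPC.Poly.map (F := fun a k => (F a + k, code e 1)) h3 ?_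
    fun_prop
  fun_prop

/-- The control problem is `NP`-hard if the group is nilpotent and not abelian. -/
theorem ctrl_npHard (hG : Group.IsNilpotent G) (hne : ∃ x y : G, x * y ≠ y * x) :
    NPHard (lang (CTRL e)) := by
  obtain ⟨a, b, ha, hab, hp⟩ := exists_pair hG hne
  have h1 : UPoly (fun φ : List (Lit ℕ × Lit ℕ × Lit ℕ) => 6 * φ.length) :=
    UPoly.mul (UPoly.const _) (UPoly.length NPC.Poly.id)
  have h := hardPr_SAT3b.trans (Pr' := fun _ => True) (Q := CTRL e)
    (poly_sysI e h1 (poly_eqsF (Fintype.card G - 1) (code e a) (code e a⁻¹) (code e b⁻¹)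
      (Fintype.card G) (cenL e a))) (fun _ _ => trivial) (fun φ hφ => by
        rw [ctrl_sysI e (bd_eqsF hφ.2.1)]
        exact sat_iff e ha hab hp hφ.2.1)
  exact h.toHardI.toNPHardP

end corr

end Pool.Agent.W995.CT
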