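import Mathlib

/-!
# Functions of subsets of bounded degree
-/

namespace Pool.Agent.W995.CT

variable {α K : Type} [DecidableEq α] [CommRing K]

/-- The function `F` of finite sets is a polynomial of degree at most `d` in the indicators of the
elements. -/
def Deg (d : ℕ) (F : Finset α → K) : Prop :=
  ∃ c : Finset α → K, (∀ T, d < T.card → c T = 0) ∧ ∀ S, F S = ∑ T ∈ S.powerset, c T

omit [DecidableEq α] in
theorem Deg.mono {d d' : ℕ} {F : Finset α → K} (h : Deg d F) (hd : d ≤ d') : Deg d' F := by
  obtain ⟨c, h1, h2⟩ := h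
  exact ⟨c, fun T hT => h1 T (by omega), h2⟩

theorem Deg.const (k : K) (d : ℕ) : Deg d (fun _ : Finset α => k) := by
  refine ⟨fun T => if T = ∅ then k else 0, fun T hT => ?_, fun S => ?_⟩
  · have h1 : T ≠ ∅ := by rintro rfl; simp at hT
    simp only [h1, if_false]
  · rw [Finset.sum_ite_eq' S.powerset ∅ (fun _ => k)]
    simp

omit [DecidableEq α] in
theorem Deg.add {d : ℕ} {F F' : Finset α → K} (h : Deg d F) (h' : Deg d F') :
    Deg d (fun S => F S + F' S) := by
  obtain ⟨c, h1, h2⟩ := h
  obtain ⟨c', h1', h2'⟩ := h'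
  refine ⟨fun T => c T + c' T, fun T hT => by simp only [h1 T hT, h1' T hT, add_zero], fun S => ?_⟩
  simp only
  rw [h2, h2', Finset.sum_add_distrib]

theorem Deg.mul {d d' : ℕ} {F F' : Finset α → K} (h : Deg d F) (h' : Deg d' F') :
    Deg (d + d') (fun S => F S * F' S) := by
  obtain ⟨c, h1, h2⟩ := h
  obtain ⟨c', h1', h2'⟩ := h'
  refine ⟨fun U => ∑ q ∈ (U.powerset ×ˢ U.powerset).filter (fun q => q.1 ∪ q.2 = U),
    c q.1 * c' q.2, fun U hU => ?_, fun S => ?_⟩
  · refine Finset.sum_eq_zero fun q hq => ?_
    rw [Finset.mem_filter] at hq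
    have h3 := Finset.card_union_le q.1 q.2
    rw [hq.2] at h3
    rcases Nat.lt_or_ge d q.1.card with h4 | h4
    · rw [h1 _ h4, zero_mul]
    · rw [h1' _ (by omega), mul_zero]
  · simp only
    rw [h2, h2', Finset.sum_mul_sum, ← Finset.sum_product']
    rw [← Finset.sum_fiberwise_of_maps_to (t := S.powerset) (g := fun q => q.1 ∪ q.2)]
    · refine Finset.sum_congr rfl fun U hU => Finset.sum_congr ?_ fun _ _ => rfl
      rw [Finset.mem_powerset] at hU
      ext q
      simp only [Finset.mem_filter, Finset.mem_product, Finset.mem_powerset]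
      constructor
      · rintro ⟨_, h⟩
        exact ⟨⟨h ▸ Finset.subset_union_left, h ▸ Finset.subset_union_right⟩, h⟩
      · rintro ⟨⟨h3, h4⟩, h⟩
        exact ⟨⟨h3.trans hU, h4.trans hU⟩, h⟩
    · intro q hq
      simp only [Finset.mem_product, Finset.mem_powerset] at hq ⊢
      exact Finset.union_subset hq.1 hq.2

theorem Deg.sum {ι : Type} (s : Finset ι) {d : ℕ} {F : ι → Finset α → K}
    (h : ∀ i ∈ s, Deg d (F i)) : Deg d (fun S => ∑ i ∈ s, F i S) := by
  classical
  induction s using Finset.induction_on with
  | empty => simpa using Deg.const (α := α) (0 : K) d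
  | insert a s ha ih =>
    simp only [Finset.sum_insert ha]
    exact (h a (by simp)).add (ih fun i hi => h i (by simp [hi]))

theorem Deg.pow {d : ℕ} {F : Finset α → K} (h : Deg d F) (k : ℕ) :
    Deg (k * d) (fun S => F S ^ k) := by
  induction k with
  | zero => simpa using Deg.const (α := α) (1 : K) 0
  | succ k ih =>
    simp only [pow_succ]
    have := ih.mul h
    rwa [← Nat.succ_mul] at this

theorem Deg.sub {d : ℕ} {F F' : Finset α → K} (h : Deg d F) (h' : Deg d F') :
    Deg d (fun S => F S - F' S) := by
  have h1 : Deg d (fun S => (-1 : K) * F' S) := by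
    have := (Deg.const (α := α) (-1 : K) 0).mul h'
    rwa [Nat.zero_add] at this
  have h2 := h.add h1
  refine (show (fun S => F S - F' S) = fun S => F S + -1 * F' S from ?_) ▸ h2
  funext S
  ring

theorem Deg.prodList {ι : Type} {l : List ι} {d : ℕ} {F : ι → Finset α → K}
    (h : ∀ i ∈ l, Deg d (F i)) : Deg (l.length * d) (fun S => (l.map fun i => F i S).prod) := by
  induction l with
  | nil => simpa using Deg.const (α := α) (1 : K) 0
  | cons a l ih =>
    simp only [List.map_cons, List.prod_cons, List.length_cons]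
    have := (h a (by simp)).mul (ih fun i hi => h i (by simp [hi]))
    rwa [Nat.add_comm, ← Nat.succ_mul] at this

theorem Deg.ite (a : α) (k k' : K) : Deg 1 (fun S => if a ∈ S then k else k') := by
  refine ⟨fun T => if T = {a} then k - k' else if T = ∅ then k' else 0, fun T hT => ?_,
    fun S => ?_⟩
  · have h1 : T ≠ {a} := by rintro rfl; simp at hT
    have h2 : T ≠ ∅ := by rintro rfl; simp at hT
    simp only [h1, h2, if_false]
  · have h3 : ∀ T ∈ S.powerset, (if T = {a} then k - k' else if T = ∅ then k' else 0) =
        (if T = {a} then k - k' else 0) + (if T = ∅ then k' else 0) := by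
      intro T _
      by_cases h : T = {a}
      · have : T ≠ ∅ := by rintro rfl; exact absurd h.symm (Finset.singleton_ne_empty a)
        simp only [h, if_true]
        rw [if_neg (Finset.singleton_ne_empty a), add_zero]
      · simp only [h, if_false, zero_add]
    rw [Finset.sum_congr rfl h3, Finset.sum_add_distrib,
      Finset.sum_ite_eq' S.powerset {a} (fun _ => k - k'),
      Finset.sum_ite_eq' S.powerset ∅ (fun _ => k')]
    simp only [Finset.mem_powerset, Finset.singleton_subset_iff, Finset.empty_subset, if_true]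
    split_ifs <;> ring

/-- A function of degree at most `d` that does not vanish at `S` does not vanish at some subset
with at most `d` elements. -/
theorem Deg.exists_small {d : ℕ} {F : Finset α → K} (h : Deg d F) {S : Finset α} (hS : F S ≠ 0) :
    ∃ S' ⊆ S, S'.card ≤ d ∧ F S' ≠ 0 := by
  classical
  obtain ⟨S', hS', hmin⟩ := (S.powerset.filter fun T => F T ≠ 0).exists_min_image
    (fun T => T.card) ⟨S, by simp [hS]⟩
  rw [Finset.mem_filter, Finset.mem_powerset] at hS'
  refine ⟨S', hS'.1, ?_, hS'.2⟩
  obtain ⟨c, h1, h2⟩ := h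
  have key : ∀ T : Finset α, T ⊂ S' → c T = 0 := by
    intro T
    induction T using Finset.strongInduction with
    | H T ih =>
      intro hT
      have h3 : F T = 0 := by
        by_contra hne
        have := hmin T (by
          rw [Finset.mem_filter, Finset.mem_powerset]
          exact ⟨hT.1.trans hS'.1, hne⟩)
        have h4 := Finset.card_lt_card hT
        omega
      rw [h2, ← Finset.insert_erase (Finset.mem_powerset_self T),
        Finset.sum_insert (Finset.notMem_erase _ _)] at h3
      rw [Finset.sum_eq_zero, add_zero] at h3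
      · exact h3
      · intro U hU
        rw [Finset.mem_erase, Finset.mem_powerset] at hU
        have h5 : U ⊂ T := Finset.ssubset_iff_subset_ne.2 ⟨hU.2, hU.1⟩
        exact ih U h5 (h5.trans hT)
  by_contra hcard
  apply hS'.2
  rw [h2]
  refine Finset.sum_eq_zero fun T hT => ?_
  rw [Finset.mem_powerset] at hT
  by_cases hTe : T = S'
  · rw [hTe]
    exact h1 _ (by omega)
  · exact key T (Finset.ssubset_iff_subset_ne.2 ⟨hT, hTe⟩)

end Pool.Agent.W995.CT
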