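import Pool.Agent.W995.PN.Rep

/-!
# Independent faithful families of representations of finite nilpotent groups
-/

namespace Pool.Agent.W995.CT

open Pool.Agent.W995.PN

theorem isPGroup_pi {p : ℕ} {ι : Type} [Finite ι] {H : ι → Type} [∀ i, Group (H i)]
    (h : ∀ i, IsPGroup p (H i)) : IsPGroup p (∀ i, H i) := by
  classical
  haveI := Fintype.ofFinite ι
  intro g
  choose k hk using fun i => h i (g i)
  refine ⟨∑ i, k i, ?_⟩
  funext i
  rw [Pi.pow_apply, Pi.one_apply]
  obtain ⟨m, hm⟩ := Nat.exists_eq_add_of_le (Finset.single_le_sum (f := k)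
    (fun _ _ => Nat.zero_le _) (Finset.mem_univ i))
  rw [hm, pow_add, pow_mul, hk, one_pow]

/-- A finite nilpotent group has a family of unitriangular representations that is jointly
injective, and such that the images can be prescribed independently. -/
theorem exists_reps2 {G : Type} [Group G] [Finite G] (hG : Group.IsNilpotent G) :
    ∃ (ι : Type) (_ : Fintype ι) (D : ι → RepD G),
      (∀ g h : G, (∀ i, ∀ a < (D i).r, ∀ b < a, (D i).rho g a b = (D i).rho h a b) → g = h) ∧
      ∀ g : ι → G, ∃ h : G, ∀ i a b, (D i).rho h a b = (D i).rho (g i) a b := by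
  classical
  obtain ⟨e⟩ := ((Group.isNilpotent_of_finite_tfae (G := G)).out 0 4).1 hG
  have hD : ∀ q : (Nat.card G).primeFactors, ∃ D : RepD (∀ Q : Sylow (q : ℕ) G, Q), ∀ g h,
      (∀ a < D.r, ∀ b < a, D.rho g a b = D.rho h a b) → g = h := by
    intro q
    haveI : Fact (q : ℕ).Prime := ⟨Nat.prime_of_mem_primeFactors q.2⟩
    exact exists_rep_pgroup (isPGroup_pi fun Q => Q.isPGroup')
  choose D hD using hD
  refine ⟨(Nat.card G).primeFactors, inferInstance, fun q =>
    ⟨(D q).p, (D q).hp, (D q).r, fun g => (D q).rho (e.symm g q), ?_⟩, ?_, ?_⟩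
  · refine ⟨?_, ?_, ?_, ?_⟩
    · intro g h a b ha hb
      have := (D q).ut.mul (e.symm g q) (e.symm h q) a b ha hb
      rw [← this, map_mul]
      rfl
    · intro a b ha hb
      rw [← (D q).ut.one a b ha hb, map_one]
      rfl
    · intro g a b hab hb
      exact (D q).ut.tri _ a b hab hb
    · intro g a ha
      exact (D q).ut.diag _ a ha
  · intro g h hgh
    have : e.symm g = e.symm h := by
      funext q
      exact hD q _ _ (hgh q)
    exact e.symm.injective this
  · intro g
    refine ⟨e fun q => e.symm (g q) q, fun q a b => ?_⟩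
    simp only [MulEquiv.symm_apply_apply]

end Pool.Agent.W995.CT
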