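import Pool.Agent.W995.CT.Basic
import Pool.Agent.W995.CT.Deg
import Pool.Agent.W995.CT.Rep2

/-!
# Sparse inputs suffice over nilpotent groups
-/

namespace Pool.Agent.W995.CT

open Pool.Agent.NPC Pool.Agent.W995.PN

section fil

variable {G : Type} [Group G] {α : Type} [DecidableEq α]

/-- The entries of the representation have the degrees given by the distance to the diagonal. -/
def Fil (D : RepD G) (g : Finset α → G) : Prop :=
  ∀ a < D.r, ∀ b ≤ a, Deg (a - b) (fun S => D.rho (g S) a b)

theorem Fil.const (D : RepD G) (g : G) : Fil D (fun _ : Finset α => g) :=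
  fun _ _ _ _ => Deg.const _ _

theorem Fil.mul {D : RepD G} {g h : Finset α → G} (hg : Fil D g) (hh : Fil D h) :
    Fil D (fun S => g S * h S) := by
  intro a ha b hb
  have e1 : (fun S => D.rho (g S * h S) a b) =
      fun S => ∑ c ∈ Finset.range D.r, D.rho (g S) a c * D.rho (h S) c b := by
    funext S
    exact D.ut.mul _ _ a b ha (by omega)
  rw [e1]
  refine Deg.sum _ fun c hc => ?_
  rw [Finset.mem_range] at hc
  by_cases h1 : c ≤ a
  · by_cases h2 : b ≤ c
    · exact ((hg a ha c h1).mul (hh c hc b h2)).mono (by omega)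
    · have : (fun S => D.rho (g S) a c * D.rho (h S) c b) = fun _ => 0 := by
        funext S
        rw [D.ut.tri _ c b (by omega) (by omega), mul_zero]
      rw [this]
      exact Deg.const _ _
  · have : (fun S => D.rho (g S) a c * D.rho (h S) c b) = fun _ => 0 := by
      funext S
      rw [D.ut.tri _ a c (by omega) hc, zero_mul]
    rw [this]
    exact Deg.const _ _

theorem Fil.prod {D : RepD G} {ι : Type} {l : List ι} {g : ι → Finset α → G}
    (h : ∀ i ∈ l, Fil D (g i)) : Fil D (fun S => (l.map fun i => g i S).prod) := by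
  induction l with
  | nil => simpa using Fil.const D (1 : G)
  | cons i l ih =>
    simp only [List.map_cons, List.prod_cons]
    exact (h i (by simp)).mul (ih fun j hj => h j (by simp [hj]))

theorem Fil.ite (D : RepD G) (x : α) (g : G) : Fil D (fun S => if x ∈ S then g else 1) := by
  intro a ha b hb
  have e1 : (fun S : Finset α => D.rho (if x ∈ S then g else 1) a b) =
      fun S => if x ∈ S then D.rho g a b else D.rho 1 a b := by
    funext S
    split_ifs <;> rfl
  rw [e1]
  rcases Nat.lt_or_ge b a with h | h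
  · exact (Deg.ite x _ _).mono (by omega)
  · have : a = b := by omega
    subst this
    rw [D.ut.diag _ a ha, D.ut.diag _ a ha]
    simp only [ite_self]
    exact Deg.const _ _

end fil

section net

variable {G : Type} [Group G] [Fintype G] (e : Fin (Fintype.card G) ≃ G)

/-- The inputs restricted to a set of pairs (time, cell). -/
def res (u : ℕ → ℕ → G) (S : Finset (ℕ × ℕ)) : ℕ → ℕ → G :=
  fun t i => if (t, i) ∈ S then u t i else 1

theorem fil_run (D : RepD G) (W : List (Option (List (Bool × ℕ)))) (x : ℕ → G) (u : ℕ → ℕ → G) :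
    ∀ T i, Fil D (fun S => run e W x (res u S) T i) := by
  intro T
  induction T with
  | zero => intro i; exact Fil.const D _
  | succ T ih =>
    intro i
    unfold run nxt
    cases hw : W.getD i (some []) with
    | none =>
      simp only [Option.map_none, Option.getD_none]
      exact Fil.ite D (T, i) (u T i)
    | some w =>
      simp only [Option.map_some, Option.getD_some]
      refine Fil.prod (g := fun l S => letter e (run e W x (res u S) T) l) fun l _ => ?_
      obtain ⟨b, j⟩ := l
      cases b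
      · exact ih j
      · exact Fil.const D _

/-- The pairs of positions below the diagonal. -/
def prs (r : ℕ) : List (ℕ × ℕ) :=
  (List.range r ×ˢ List.range r).filter fun q => decide (q.2 < q.1)

theorem mem_prs {r : ℕ} {q : ℕ × ℕ} : q ∈ prs r ↔ q.1 < r ∧ q.2 < q.1 := by
  obtain ⟨a, b⟩ := q
  unfold prs
  rw [List.mem_filter, decide_eq_true_eq]
  constructor
  · rintro ⟨h, h'⟩
    have h1 := List.pair_mem_product.1 h
    rw [List.mem_range, List.mem_range] at h1
    exact ⟨h1.1, h'⟩
  · rintro ⟨h1, h2⟩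
    refine ⟨List.pair_mem_product.2 ⟨List.mem_range.2 h1, List.mem_range.2 ?_⟩, h2⟩
    simp only at h1 h2
    omega

/-- The bound for one representation. -/
def dD (D : RepD G) : ℕ := (prs D.r).length * ((D.p - 1) * D.r)

theorem exists_sparse (D : RepD G) (W : List (Option (List (Bool × ℕ)))) (x : ℕ → G)
    (u : ℕ → ℕ → G) (T : ℕ) (R : List (ℕ × ℕ)) (S₀ : Finset (ℕ × ℕ))
    (h : ∀ q ∈ R, ∀ a < D.r, ∀ b < a,
      D.rho (run e W x (res u S₀) T q.1) a b = D.rho (el e q.2) a b) :
    ∃ S ⊆ S₀, S.card ≤ R.length * dD D ∧ ∀ q ∈ R, ∀ a < D.r, ∀ b < a,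
      D.rho (run e W x (res u S) T q.1) a b = D.rho (el e q.2) a b := by
  haveI : Fact D.p.Prime := ⟨D.hp⟩
  set F : Finset (ℕ × ℕ) → ZMod D.p := fun S => ((R ×ˢ prs D.r).map fun q =>
    1 - (D.rho (run e W x (res u S) T q.1.1) q.2.1 q.2.2 -
      D.rho (el e q.1.2) q.2.1 q.2.2) ^ (D.p - 1)).prod with hF
  have hdeg : Deg ((R ×ˢ prs D.r).length * ((D.p - 1) * D.r)) F := by
    rw [hF]
    refine Deg.prodList (F := fun (q : (ℕ × ℕ) × ℕ × ℕ) S => 1 - (D.rho (run e W x (res u S) T q.1.1) q.2.1 q.2.2 -
      D.rho (el e q.1.2) q.2.1 q.2.2) ^ (D.p - 1)) ?_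
    rintro ⟨q, a, b⟩ hq
    have h1 := mem_prs.1 (List.pair_mem_product.1 hq).2
    simp only at h1 ⊢
    refine (Deg.const 1 _).sub ((Deg.pow ((fil_run e D W x u T q.1 a h1.1 b h1.2.le).sub
      (Deg.const _ _)) (D.p - 1)).mono ?_)
    exact Nat.mul_le_mul_left _ (by omega)
  have hF1 : ∀ S, F S ≠ 0 ↔ ∀ q ∈ R, ∀ a < D.r, ∀ b < a,
      D.rho (run e W x (res u S) T q.1) a b = D.rho (el e q.2) a b := by
    intro S
    rw [hF]
    simp only
    rw [Ne, List.prod_eq_zero_iff, List.mem_map]
    have hp1 : D.p - 1 ≠ 0 := by have := D.hp.two_le; omega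
    constructor
    · intro h1 q hq a ha b hb
      by_contra hne
      apply h1
      refine ⟨(q, a, b), List.pair_mem_product.2 ⟨hq, mem_prs.2 ⟨ha, hb⟩⟩, ?_⟩
      simp only
      rw [ZMod.pow_card_sub_one_eq_one (sub_ne_zero.2 hne), sub_self]
    · rintro h1 ⟨⟨q, a, b⟩, hq, h2⟩
      have h3 := List.pair_mem_product.1 hq
      have h4 := mem_prs.1 h3.2
      simp only at h2 h4
      rw [h1 q h3.1 a h4.1 b h4.2, sub_self, zero_pow hp1, sub_zero] at h2
      exact one_ne_zero h2
  obtain ⟨S, hS, hc, hne⟩ := hdeg.exists_small ((hF1 S₀).2 h)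
  refine ⟨S, hS, ?_, (hF1 S).1 hne⟩
  refine hc.trans ?_
  rw [List.length_product]
  unfold dD
  rw [Nat.mul_assoc]

theorem nxt_congr {W : List (Option (List (Bool × ℕ)))} {u v x : ℕ → G}
    (h : ∀ i < W.length, u i = v i) : nxt e W u x = nxt e W v x := by
  funext i
  unfold nxt
  by_cases hi : i < W.length
  · rw [h i hi]
  · rw [List.getD_eq_default _ _ (by omega)]
    rfl

theorem run_congr' {W : List (Option (List (Bool × ℕ)))} {x : ℕ → G} {u v : ℕ → ℕ → G} {T : ℕ}
    (h : ∀ t < T, ∀ i < W.length, u t i = v t i) : run e W x u T = run e W x v T := by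
  induction T with
  | zero => rfl
  | succ T ih =>
    rw [run, run, ih fun t ht => h t (by omega)]
    exact nxt_congr e (h T (by omega))

/-- Two runs with inputs that have the same image in a representation. -/
theorem run_rho (D : RepD G) {W : List (Option (List (Bool × ℕ)))} {x : ℕ → G}
    {u v : ℕ → ℕ → G} (h : ∀ t i, ∀ a < D.r, ∀ b < D.r, D.rho (u t i) a b = D.rho (v t i) a b) :
    ∀ T i, ∀ a < D.r, ∀ b < D.r,
      D.rho (run e W x u T i) a b = D.rho (run e W x v T i) a b := by
  intro T
  induction T with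
  | zero => intro i a _ b _; rfl
  | succ T ih =>
    intro i
    rw [run, run]
    unfold nxt
    cases hw : W.getD i (some []) with
    | none =>
      simp only [Option.map_none, Option.getD_none]
      exact h T i
    | some w =>
      simp only [Option.map_some, Option.getD_some]
      clear hw
      induction w with
      | nil => intro a _ b _; rfl
      | cons l w ihw =>
        intro a ha b hb
        rw [List.map_cons, List.prod_cons, List.map_cons, List.prod_cons,
          D.ut.mul _ _ a b ha hb, D.ut.mul _ _ a b ha hb]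
        refine Finset.sum_congr rfl fun c hc => ?_
        rw [Finset.mem_range] at hc
        rw [ihw c hc b hb]
        congr 1
        obtain ⟨s, j⟩ := l
        cases s
        · exact ih j a ha c hc
        · rfl

/-- Over a nilpotent group there is always a sparse solution. -/
theorem exists_dd (hG : Group.IsNilpotent G) : ∃ dd : ℕ, ∀ (W : List (Option (List (Bool × ℕ))))
    (x : ℕ → G) (T : ℕ) (R : List (ℕ × ℕ)) (u : ℕ → ℕ → G),
    (∀ q ∈ R, run e W x u T q.1 = el e q.2) → ∃ (v : ℕ → ℕ → G) (B : Finset ℕ),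
      B.card ≤ R.length * dd ∧ (∀ t ∉ B, ∀ i, v t i = 1) ∧
      ∀ q ∈ R, run e W x v T q.1 = el e q.2 := by
  classical
  obtain ⟨ι, hι, D, hinj, hcomb⟩ := exists_reps2 hG
  refine ⟨∑ k, dD (D k), fun W x T R u hu => ?_⟩
  set S₀ : Finset (ℕ × ℕ) := Finset.range T ×ˢ Finset.range W.length with hS₀
  have h0 : run e W x (res u S₀) T = run e W x u T := by
    refine run_congr' e fun t ht i hi => ?_
    unfold res
    rw [if_pos]
    simp [hS₀, ht, hi]
  have h1 : ∀ k : ι, ∃ S ⊆ S₀, S.card ≤ R.length * dD (D k) ∧ ∀ q ∈ R, ∀ a < (D k).r, ∀ b < a,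
      (D k).rho (run e W x (res u S) T q.1) a b = (D k).rho (el e q.2) a b := by
    intro k
    refine exists_sparse e (D k) W x u T R S₀ fun q hq a _ b _ => ?_
    rw [h0, hu q hq]
  choose S _ hS2 hS3 using h1
  choose c hc using fun (t i : ℕ) => hcomb fun k => res u (S k) t i
  set v : ℕ → ℕ → G := fun t i => if ∃ k, (t, i) ∈ S k then c t i else 1 with hv
  have hv1 : ∀ k, ∀ t i, ∀ a < (D k).r, ∀ b < (D k).r,
      (D k).rho (v t i) a b = (D k).rho (res u (S k) t i) a b := by
    intro k t i a _ b _
    by_cases hex : ∃ k, (t, i) ∈ S k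
    · simp only [hv, if_pos hex]
      exact hc t i k a b
    · simp only [hv, if_neg hex]
      unfold res
      rw [if_neg fun h => hex ⟨k, h⟩]
  refine ⟨v, Finset.univ.biUnion fun k => (S k).image Prod.fst, ?_, ?_, ?_⟩
  · refine Finset.card_biUnion_le.trans ?_
    rw [Finset.mul_sum]
    exact Finset.sum_le_sum fun k _ => Finset.card_image_le.trans (hS2 k)
  · intro t ht i
    rw [hv]
    simp only
    rw [if_neg]
    rintro ⟨k, hk⟩
    apply ht
    rw [Finset.mem_biUnion]
    exact ⟨k, Finset.mem_univ k, Finset.mem_image.2 ⟨(t, i), hk, rfl⟩⟩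
  · intro q hq
    refine hinj _ _ fun k a ha b hb => ?_
    rw [run_rho e (D k) (hv1 k) T q.1 a ha b (by omega)]
    exact hS3 k q hq a ha b hb

end net

end Pool.Agent.W995.CT
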