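import Pool.Agent.W995.CT.Ver
import Pool.Agent.W995.CT.Supp

/-!
# The control problem is in `NP` for nilpotent groups
-/

namespace Pool.Agent.W995.CT

open Pool.Agent.NPC Pool.Agent.W995.PN

variable {G : Type} [Group G] [Fintype G] (e : Fin (Fintype.card G) ≃ G)

/-- The control problem over a nilpotent group is in `NP`. -/
theorem ctrl_inNP (hG : Group.IsNilpotent G) : InNP (lang (CTRL e)) := by
  obtain ⟨L, hL⟩ := exists_reps hG
  obtain ⟨dd, hdd⟩ := exists_dd e hG
  have hmain : InNPP (CTRL e) := by
    refine inNPP_of (poly_ver e L) ((2 * Polynomial.X * Polynomial.C dd + 1) *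
      (Polynomial.X * Polynomial.C (4 * Fintype.card G + 2) + 2 * Polynomial.X + 3) + 1)
      fun I => ?_
    simp only [ver_iff e hL]
    constructor
    · intro h
      obtain ⟨u, hu⟩ := (ctrl_iff_run e I).1 h
      obtain ⟨v, B, hB1, hB2, hv⟩ := hdd I.1 (start e I.2.1) I.2.2.1 I.2.2.2 u hu
      obtain ⟨P, k, h1, h2, h3, h4⟩ := exists_program e I.1 (start e I.2.1) v B hB2 I.2.2.1
      refine ⟨P ++ [([], k)], ?_, h2, fun q hq => by rw [h1]; exact hv q hq⟩
      obtain ⟨W, s, T, R⟩ := I
      simp only at hB1 h1 h2 h3 h4
      have hle : ∀ b ∈ P ++ [([], k)], b.2 ≤ T := by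
        intro b hb
        rw [← h2]
        unfold len
        exact List.single_le_sum (by simp) _ (List.mem_map.2 ⟨b, hb, rfl⟩)
      have h5 : ∀ b ∈ P ++ [([], k)], sz b ≤
          sz (W, s, T, R) * (4 * Fintype.card G + 2) + 2 * sz (W, s, T, R) + 2 := by
        intro b hb
        have h6 := sz_nat_mono_le (hle b hb)
        have h7 : b.1.length ≤ W.length ∧ ∀ c ∈ b.1, c < Fintype.card G := by
          rw [List.mem_append, List.mem_singleton] at hb
          rcases hb with hb | rfl
          · exact h4 b hb
          · simp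
        have h8 := sz_le_length_mul b.1 (4 * Fintype.card G + 1)
          (fun c hc => sz_code_le (h7.2 c hc))
        have h9 := length_lt_sz W
        have h10 : sz (W, s, T, R) = sz W + (sz s + (sz T + sz R + 1) + 1) + 1 := by
          simp only [sz_pair]
        have h11 : b.1.length * (4 * Fintype.card G + 1 + 1) ≤
            sz (W, s, T, R) * (4 * Fintype.card G + 2) := Nat.mul_le_mul (by omega) (by omega)
        have h12 : sz b = sz b.1 + sz b.2 + 1 := sz_pair b.1 b.2
        omega
      have h6 := sz_le_length_mul (P ++ [([], k)]) _ h5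
      have h7 : (P ++ [([], k)]).length ≤ 2 * sz (W, s, T, R) * dd + 1 := by
        rw [List.length_append, List.length_singleton]
        have h8 : (B.filter (· < T)).card ≤ R.length * dd :=
          (Finset.card_filter_le _ _).trans hB1
        have h9 := length_lt_sz R
        have h10 : sz (W, s, T, R) = sz W + (sz s + (sz T + sz R + 1) + 1) + 1 := by
          simp only [sz_pair]
        have h11 : R.length * dd ≤ sz (W, s, T, R) * dd := Nat.mul_le_mul_right _ (by omega)
        have h12 : 2 * sz (W, s, T, R) * dd = 2 * (sz (W, s, T, R) * dd) := Nat.mul_assoc _ _ _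
        omega
      refine h6.trans ?_
      simp only [Polynomial.eval_add, Polynomial.eval_mul, Polynomial.eval_X, Polynomial.eval_C,
        Polynomial.eval_ofNat, Polynomial.eval_one]
      exact Nat.add_le_add_right (Nat.mul_le_mul h7 (by omega)) 1
    · rintro ⟨P, _, h1, h2⟩
      obtain ⟨u, hu⟩ := exists_input e I.1 P (start e I.2.1)
      rw [ctrl_iff_run]
      refine ⟨u, fun q hq => ?_⟩
      rw [← h1, hu]
      exact h2 q hq
  exact hmain

end Pool.Agent.W995.CT
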