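import Pool.Agent.H623R2.PS.Savitch

/-!
# Reachability between structured configurations of polynomial size is in `PSPACE`
-/

namespace Pool.Agent.W995.CT

open Pool.Agent.NPC Pool.Agent.H623R2.PS

theorem poly_bits' {α : Type} [TEnc α] : NPC.Poly (fun a : α => bits a) := by
  obtain ⟨c, p, h⟩ := PC.rawIn
  exact ⟨c, p, fun a => h (bits a)⟩

section

variable {α γ : Type} [TEnc α] [TDec α] [TEnc γ] [TDec γ]

/-- The common length of the codes. -/
def wd (b : Polynomial ℕ) (x : List Bool) : ℕ := 2 * b.eval x.length + 1

/-- The code of a configuration, padded. -/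
def encC (b : Polynomial ℕ) (x : List Bool) (c : γ) : List Bool :=
  pairBits (bits c) (List.replicate (wd b x - (2 * (bits c).length + 1)) true)

/-- The configuration with a given code. -/
def decC (γ : Type) [TEnc γ] [TDec γ] (u : List Bool) : Option γ := unbits γ (unpair u).1

theorem decC_encC (b : Polynomial ℕ) (x : List Bool) (c : γ) : decC γ (encC b x c) = some c := by
  unfold decC encC
  rw [unpair_pairBits, unbits_bits]

theorem length_pairBits (x w : List Bool) : (pairBits x w).length = 2 * x.length + 1 + w.length := by
  unfold pairBits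
  have : (x.flatMap fun b => [true, b]).length = 2 * x.length := by
    induction x with
    | nil => rfl
    | cons b x ih => rw [List.flatMap_cons, List.length_append, ih]; simp; omega
  rw [List.length_append, this, List.length_cons]
  omega

omit [TDec γ] in
theorem length_encC {b : Polynomial ℕ} {x : List Bool} {c : γ} (h : sz c ≤ b.eval x.length) :
    (encC b x c).length = wd b x := by
  unfold encC
  rw [length_pairBits, bits_length, List.length_replicate]
  unfold wd
  omega

/-- The relation between codes. -/
def rel (b : Polynomial ℕ) (E : α → γ → γ → Bool) (x u v : List Bool) : Bool :=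
  (unbits α x).elim false fun a => (decC γ u).elim false fun c => (decC γ v).elim false fun c' =>
    E a c c' && decide (v = encC b x c')

theorem rel_iff {b : Polynomial ℕ} {E : α → γ → γ → Bool} {x u v : List Bool} {a : α}
    (ha : unbits α x = some a) : rel b E x u v = true ↔
      ∃ c c', decC γ u = some c ∧ E a c c' = true ∧ v = encC b x c' := by
  unfold rel
  rw [ha]
  simp only [Option.elim_some]
  cases hu : decC γ u with
  | none => simp
  | some c =>
    simp only [Option.elim_some]
    cases hv : decC γ v with
    | none =>
      simp only [Option.elim_none, Bool.false_eq_true, false_iff]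
      rintro ⟨_, c', _, _, rfl⟩
      rw [decC_encC] at hv
      simp at hv
    | some c' =>
      simp only [Option.elim_some, Bool.and_eq_true, decide_eq_true_eq]
      constructor
      · rintro ⟨h1, h2⟩
        exact ⟨c, c', rfl, h1, h2⟩
      · rintro ⟨c1, c2, h1, h2, h3⟩
        rw [Option.some.injEq] at h1
        subst h1
        rw [h3, decC_encC, Option.some.injEq] at hv
        subst hv
        exact ⟨h2, h3⟩

theorem reach_iff {b : Polynomial ℕ} {E : α → γ → γ → Bool} {x : List Bool} {a : α}
    (ha : unbits α x = some a) (c d : γ) :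
    Relation.ReflTransGen (fun u v => rel b E x u v = true) (encC b x c) (encC b x d) ↔
      Relation.ReflTransGen (fun c c' => E a c c' = true) c d := by
  constructor
  · intro h
    have key : ∀ v, Relation.ReflTransGen (fun u v => rel b E x u v = true) (encC b x c) v →
        ∃ d, v = encC b x d ∧ Relation.ReflTransGen (fun c c' => E a c c' = true) c d := by
      intro v hv
      induction hv with
      | refl => exact ⟨c, rfl, Relation.ReflTransGen.refl⟩
      | tail _ h2 ih =>
        obtain ⟨d, rfl, hd⟩ := ih
        rw [rel_iff ha] at h2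
        obtain ⟨c1, c2, h3, h4, h5⟩ := h2
        rw [decC_encC, Option.some.injEq] at h3
        subst h3
        exact ⟨c2, h5, hd.tail h4⟩
    obtain ⟨d', h1, h2⟩ := key _ h
    have h3 := congrArg (decC γ) h1
    rw [decC_encC, decC_encC, Option.some.injEq] at h3
    rw [h3]
    exact h2
  · intro h
    induction h with
    | refl => exact Relation.ReflTransGen.refl
    | tail _ h2 ih =>
      refine ih.tail ?_
      rw [rel_iff ha]
      exact ⟨_, _, decC_encC b x _, h2, rfl⟩

theorem uPoly_wd (b : Polynomial ℕ) : UPoly (wd b) := by
  unfold wd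
  exact UPoly.add (UPoly.mul (UPoly.const _) (UPoly.eval (UPoly.length NPC.Poly.id) b))
    (UPoly.const _)

omit [TDec γ] in
theorem poly_encC (b : Polynomial ℕ) {δ : Type} [TEnc δ] {x : δ → List Bool} {c : δ → γ}
    (hx : NPC.Poly x) (hc : NPC.Poly c) : NPC.Poly (fun y => encC b (x y) (c y)) := by
  have h1 : NPC.Poly (fun y => bits (c y)) := poly_bits'.comp hc
  have h2 : UPoly (fun y => wd b (x y)) := (uPoly_wd b).comp hx
  have h2' := h2.toPoly
  have h3 : NPC.Poly (fun y => wd b (x y) - (2 * (bits (c y)).length + 1)) := by fun_prop
  have h4 := poly_replicate (UPoly.of_le h3 h2 fun y => Nat.sub_le _ _) true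
  unfold encC pairBits
  fun_prop

theorem poly_decC : NPC.Poly (decC γ) := poly_unbits.comp (NPC.Poly.fst poly_unpair)

theorem poly_rel (b : Polynomial ℕ) {E : α → γ → γ → Bool}
    (hE : NPC.Poly (fun p : α × γ × γ => E p.1 p.2.1 p.2.2)) :
    NPC.Poly (fun p : List Bool × List Bool × List Bool => rel b E p.1 p.2.1 p.2.2) := by
  unfold rel
  refine NPC.Poly.optElim (o := fun p : List Bool × List Bool × List Bool => unbits α p.1)
    (g := fun _ => false) (h := fun p a => (decC γ p.2.1).elim false fun c =>
      (decC γ p.2.2).elim false fun c' => E a c c' && decide (p.2.2 = encC b p.1 c'))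
    (poly_unbits.comp (by fun_prop)) (NPC.Poly.const _) ?_
  refine NPC.Poly.optElim (o := fun p : (List Bool × List Bool × List Bool) × α => decC γ p.1.2.1)
    (g := fun _ => false) (h := fun p c =>
      (decC γ p.1.2.2).elim false fun c' => E p.2 c c' && decide (p.1.2.2 = encC b p.1.1 c'))
    (poly_decC.comp (by fun_prop)) (NPC.Poly.const _) ?_
  refine NPC.Poly.optElim
    (o := fun p : ((List Bool × List Bool × List Bool) × α) × γ => decC γ p.1.1.2.2)
    (g := fun _ => false) (h := fun p c' =>
      E p.1.2 p.2 c' && decide (p.1.1.2.2 = encC b p.1.1.1 c'))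
    (poly_decC.comp (by fun_prop)) (NPC.Poly.const _) ?_
  have h1 : NPC.Poly (fun p : (((List Bool × List Bool × List Bool) × α) × γ) × γ =>
      encC b p.1.1.1.1 p.2) := poly_encC b (by fun_prop) (by fun_prop)
  have h2 : NPC.Poly (fun p : (((List Bool × List Bool × List Bool) × α) × γ) × γ =>
      E p.1.1.2 p.1.2 p.2) :=
    hE.comp (f := fun p : (((List Bool × List Bool × List Bool) × α) × γ) × γ =>
      (p.1.1.2, p.1.2, p.2)) (by fun_prop)
  fun_prop

/-- Reachability between configurations of polynomial size, for a polynomial-time relation, is in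
polynomial space. -/
theorem inPSPACE_reachC {Q : α → Prop} {E : α → γ → γ → Bool}
    (hE : NPC.Poly (fun p : α × γ × γ => E p.1 p.2.1 p.2.2)) {s t : α → γ} (hs : NPC.Poly s)
    (ht : NPC.Poly t) (b : Polynomial ℕ)
    (hb : ∀ a c c', E a c c' = true → sz c' ≤ b.eval (sz a))
    (hbs : ∀ a, sz (s a) ≤ b.eval (sz a))
    (hQ : ∀ a, Q a ↔ Relation.ReflTransGen (fun c c' => E a c c' = true) (s a) (t a)) :
    InPSPACE (lang Q) := by
  have h1 : NPC.Poly (fun x : List Bool => (unbits α x).isSome) := by
    have := poly_unbits (α := α)
    exact NPC.Poly.isSome this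
  have h2 : ∀ f : α → γ, NPC.Poly f → NPC.Poly (fun x : List Bool => (unbits α x).elim
      (List.replicate (wd b x) true) fun a => encC b x (f a)) := by
    intro f hf
    refine NPC.Poly.optElim (o := fun x : List Bool => unbits α x)
      (g := fun x => List.replicate (wd b x) true) (h := fun x a => encC b x (f a))
      poly_unbits (poly_replicate (uPoly_wd b) true) ?_
    exact poly_encC b (by fun_prop) (hf.comp (f := fun p : List Bool × α => p.2) (by fun_prop))
  refine inPSPACE_of_reach (α := List Bool) (init := fun x => x) NPC.Poly.id (uPoly_wd b)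
    (good := fun x => (unbits α x).isSome) h1 (R := rel b E) (poly_rel b hE)
    (s := fun x => (unbits α x).elim (List.replicate (wd b x) true) fun a => encC b x (s a))
    (t := fun x => (unbits α x).elim (List.replicate (wd b x) true) fun a => encC b x (t a))
    (h2 s hs) (h2 t ht) ?_ ?_ ?_
  · intro x
    cases hx : unbits α x with
    | none => simp
    | some a =>
      simp only [Option.elim_some]
      apply length_encC
      have := bits_of_unbits hx
      rw [← this, bits_length]
      exact hbs a
  · intro x u v _ h
    cases hx : unbits α x with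
    | none => unfold rel at h; rw [hx] at h; simp at h
    | some a =>
      rw [rel_iff hx] at h
      obtain ⟨c, c', _, h2, rfl⟩ := h
      apply length_encC
      have := bits_of_unbits hx
      rw [← this, bits_length]
      exact hb _ _ _ h2
  · intro x
    rw [mem_lang_iff]
    constructor
    · rintro ⟨a, ha, hQa⟩
      simp only [ha, Option.isSome_some, Option.elim_some, true_and]
      rw [reach_iff ha]
      exact (hQ a).1 hQa
    · rintro ⟨h1, h2⟩
      obtain ⟨a, ha⟩ := Option.isSome_iff_exists.1 h1
      simp only [ha, Option.elim_some] at h2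
      rw [reach_iff ha] at h2
      exact ⟨a, ha, (hQ a).2 h2⟩

end

end Pool.Agent.W995.CT
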