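import Pool.Agent.W995.CT.Basic
import Pool.Agent.W995.CT.ReachP
import Pool.Agent.W995.PN.PSp
import Pool.Agent.W995.PN.Alg2

/-!
# The control problem is in `PSPACE`
-/

namespace Pool.Agent.W995.CT

open Pool.Agent.NPC Pool.Agent.W995.PN Pool.Agent.H623R2.PS

variable {G : Type} [Group G] [Fintype G] (e : Fin (Fintype.card G) ≃ G)

/-- Configurations: the time and the state, or the final configuration `none`. -/
abbrev Cf := Option (ℕ × List ℕ)

/-- The test for the transition between states. -/
def stepT (W : List (Option (List (Bool × ℕ)))) (y y' : List ℕ) : Bool :=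
  decide (y'.length = W.length) && (y'.all fun c => decide (c < Fintype.card G)) &&
    (List.range W.length).all fun i => (W.getD i (some [])).elim true fun w =>
      decide (y'.getD i 0 = wordC e y w)

/-- The test of the requirements. -/
def reqT (R : List (ℕ × ℕ)) (y : List ℕ) : Bool :=
  R.all fun q => decide (nrm e (y.getD q.1 (code e 1)) = nrm e q.2)

/-- The transitions between configurations. -/
def tr (I : CInst) (c c' : Cf) : Bool :=
  c.elim false fun p => c'.elim (decide (p.1 = I.2.2.1) && reqT e I.2.2.2 p.2) fun p' =>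
    decide (p'.1 = p.1 + 1) && decide (p.1 < I.2.2.1) && stepT e I.1 p.2 p'.2

theorem wordC_code (y : List ℕ) (w : List (Bool × ℕ)) :
    wordC e y w = code e (el e (wordC e y w)) := by
  have key : ∀ (w : List (Bool × ℕ)) (c : ℕ), c = code e (el e c) →
      w.foldl (fun acc l => mulC e acc (letC e y l)) c =
        code e (el e (w.foldl (fun acc l => mulC e acc (letC e y l)) c)) := by
    intro w
    induction w with
    | nil => intro c hc; exact hc
    | cons l w ih =>
      intro c _
      rw [List.foldl_cons]
      exact ih _ (by unfold mulC; rw [el_code])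
  exact key w _ (by rw [el_code])

theorem stepT_sound {W : List (Option (List (Bool × ℕ)))} {y y' : List ℕ}
    (h : stepT e W y y' = true) : CStep e W (sem e y) (sem e y') := by
  unfold stepT at h
  rw [Bool.and_eq_true, Bool.and_eq_true, decide_eq_true_eq] at h
  obtain ⟨⟨h1, _⟩, h3⟩ := h
  rw [List.all_eq_true] at h3
  intro i w hw
  rw [← el_wordC]
  by_cases hi : i < W.length
  · have h4 := h3 i (List.mem_range.2 hi)
    rw [hw] at h4
    simp only [Option.elim_some, decide_eq_true_eq] at h4
    rw [← h4]
    unfold sem
    rw [List.getD_eq_getElem _ _ (by omega), List.getD_eq_getElem _ _ (by omega)]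
  · rw [List.getD_eq_default _ _ (by omega), Option.some.injEq] at hw
    subst hw
    unfold sem
    rw [List.getD_eq_default _ _ (by omega)]
    simp [wordC]

/-- The list of the numbers of the contents. -/
def lst (n : ℕ) (x : ℕ → G) : List ℕ := (List.range n).map fun i => code e (x i)

theorem stepT_complete {W : List (Option (List (Bool × ℕ)))} {y : List ℕ} {x' : ℕ → G}
    (h : CStep e W (sem e y) x') : stepT e W y (lst e W.length x') = true ∧
      sem e (lst e W.length x') = x' := by
  constructor
  · unfold stepT
    rw [Bool.and_eq_true, Bool.and_eq_true, decide_eq_true_eq, List.all_eq_true, List.all_eq_true]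
    refine ⟨⟨by simp [lst], ?_⟩, ?_⟩
    · intro c hc
      unfold lst at hc
      rw [List.mem_map] at hc
      obtain ⟨i, _, rfl⟩ := hc
      rw [decide_eq_true_eq]
      exact code_lt e _
    · intro i hi
      rw [List.mem_range] at hi
      cases hw : W.getD i (some []) with
      | none => rfl
      | some w =>
        simp only [Option.elim_some, decide_eq_true_eq]
        rw [wordC_code, el_wordC, ← h i w hw]
        unfold lst
        rw [getD_map_range _ hi]
  · funext i
    unfold sem
    by_cases hi : i < W.length
    · unfold lst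
      rw [getD_map_range _ hi, el_code]
    · rw [List.getD_eq_default _ _ (by simp [lst]; omega), el_code]
      have := h i [] (by rw [List.getD_eq_default _ _ (by omega)])
      simpa using this.symm

theorem reqT_iff (R : List (ℕ × ℕ)) (y : List ℕ) :
    reqT e R y = true ↔ ∀ q ∈ R, sem e y q.1 = el e q.2 := by
  unfold reqT
  rw [List.all_eq_true]
  refine forall₂_congr fun q _ => ?_
  rw [decide_eq_true_eq, nrm_eq_iff]
  rfl

theorem ctrl_iff_reach (I : CInst) : CTRL e I ↔
    Relation.ReflTransGen (fun c c' => tr e I c c' = true) (some (0, I.2.1)) none := by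
  obtain ⟨W, s, T, R⟩ := I
  constructor
  · rintro ⟨z, h0, h1, h2⟩
    simp only at h0 h1 h2
    have key : ∀ t ≤ T, ∃ y, sem e y = z t ∧ Relation.ReflTransGen
        (fun c c' => tr e (W, s, T, R) c c' = true) (some (0, s)) (some (t, y)) := by
      intro t
      induction t with
      | zero => intro _; exact ⟨s, by rw [h0, sem_eq_start], Relation.ReflTransGen.refl⟩
      | succ t ih =>
        intro ht
        obtain ⟨y, hy1, hy2⟩ := ih (by omega)
        have h3 := h1 t (by omega)
        rw [← hy1] at h3
        obtain ⟨h4, h5⟩ := stepT_complete e h3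
        refine ⟨_, h5, hy2.tail ?_⟩
        unfold tr
        simp only [Option.elim_some, h4, Bool.and_true, Bool.and_eq_true, decide_eq_true_eq,
          true_and]
        omega
    obtain ⟨y, hy1, hy2⟩ := key T le_rfl
    refine hy2.tail ?_
    unfold tr
    simp only [Option.elim_some, Option.elim_none, decide_true, Bool.true_and]
    rw [reqT_iff, hy1]
    exact h2
  · intro h
    rw [Relation.ReflTransGen.cases_tail_iff] at h
    rcases h with h | ⟨c, hc, h⟩
    · simp at h
    · have key : ∀ c, Relation.ReflTransGen
          (fun c c' => tr e (W, s, T, R) c c' = true) (some (0, s)) c → ∀ t y, c = some (t, y) →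
          ∃ z : ℕ → ℕ → G, z 0 = start e s ∧ (∀ i < t, CStep e W (z i) (z (i + 1))) ∧
            z t = sem e y := by
        intro c hc
        induction hc with
        | refl =>
          intro t y hty
          rw [Option.some.injEq, Prod.mk.injEq] at hty
          obtain ⟨rfl, rfl⟩ := hty
          exact ⟨fun _ => start e s, rfl, fun i hi => by omega, by rw [sem_eq_start]⟩
        | @tail c1 c2 _ h2 ih =>
          rintro t y rfl
          cases c1 with
          | none => simp [tr] at h2
          | some p =>
            obtain ⟨t1, y1⟩ := p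
            unfold tr at h2
            simp only [Option.elim_some, Bool.and_eq_true, decide_eq_true_eq] at h2
            obtain ⟨⟨rfl, _⟩, h3⟩ := h2
            obtain ⟨z, hz0, hz1, hz2⟩ := ih t1 y1 rfl
            refine ⟨fun i => if i ≤ t1 then z i else sem e y, ?_, ?_, ?_⟩
            · simp only [Nat.zero_le, if_true]; exact hz0
            · intro i hi
              by_cases hi' : i < t1
              · simp only [hi'.le, if_true, (by omega : i + 1 ≤ t1)]
                exact hz1 i hi'
              · have : i = t1 := by omega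
                subst this
                have e1 : ¬ i + 1 ≤ i := by omega
                simp only [le_refl, if_true]
                rw [if_neg e1, hz2]
                exact stepT_sound e h3
            · have e1 : ¬ t1 + 1 ≤ t1 := by omega
              simp only
              rw [if_neg e1]
      cases c with
      | none => simp [tr] at h
      | some p =>
        obtain ⟨t, y⟩ := p
        unfold tr at h
        simp only [Option.elim_some, Option.elim_none, Bool.and_eq_true, decide_eq_true_eq] at h
        obtain ⟨rfl, h3⟩ := h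
        obtain ⟨z, hz0, hz1, hz2⟩ := key _ hc _ _ rfl
        refine ⟨z, hz0, hz1, ?_⟩
        rw [reqT_iff] at h3
        simp only
        rw [hz2]
        exact h3

theorem poly_stepT : NPC.Poly (fun p : List (Option (List (Bool × ℕ))) × List ℕ × List ℕ =>
    stepT e p.1 p.2.1 p.2.2) := by
  have h1 : NPC.Poly (fun p : List (Option (List (Bool × ℕ))) × List ℕ × List ℕ =>
      (List.range p.1.length).all fun i => (p.1.getD i (some [])).elim true fun w =>
        decide (p.2.2.getD i 0 = wordC e p.2.1 w)) := by
    refine NPC.Poly.all (l := fun p : List (Option (List (Bool × ℕ))) × List ℕ × List ℕ =>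
      List.range p.1.length) (p := fun p i => (p.1.getD i (some [])).elim true fun w =>
        decide (p.2.2.getD i 0 = wordC e p.2.1 w)) (NPC.Poly.range_length (by fun_prop)) ?_
    refine NPC.Poly.optElim
      (o := fun p : (List (Option (List (Bool × ℕ))) × List ℕ × List ℕ) × ℕ =>
        p.1.1.getD p.2 (some [])) (g := fun _ => true)
      (h := fun p w => decide (p.1.2.2.getD p.2 0 = wordC e p.1.2.1 w)) (by fun_prop)
      (NPC.Poly.const _) ?_
    have h2 : NPC.Poly (fun p : ((List (Option (List (Bool × ℕ))) × List ℕ × List ℕ) × ℕ) ×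
        List (Bool × ℕ) => wordC e p.1.1.2.1 p.2) :=
      (poly_wordC e).comp (f := fun p : ((List (Option (List (Bool × ℕ))) × List ℕ × List ℕ) × ℕ) ×
        List (Bool × ℕ) => (p.1.1.2.1, p.2)) (by fun_prop)
    fun_prop
  unfold stepT
  fun_prop

theorem poly_reqT : NPC.Poly (fun p : List (ℕ × ℕ) × List ℕ => reqT e p.1 p.2) := by
  unfold reqT
  fun_prop

theorem poly_tr : NPC.Poly (fun p : CInst × Cf × Cf => tr e p.1 p.2.1 p.2.2) := by
  unfold tr
  refine NPC.Poly.optElim (o := fun p : CInst × Cf × Cf => p.2.1) (g := fun _ => false)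
    (h := fun p q => p.2.2.elim (decide (q.1 = p.1.2.2.1) && reqT e p.1.2.2.2 q.2) fun p' =>
      decide (p'.1 = q.1 + 1) && decide (q.1 < p.1.2.2.1) && stepT e p.1.1 q.2 p'.2)
    (by fun_prop) (NPC.Poly.const _) ?_
  refine NPC.Poly.optElim (o := fun p : (CInst × Cf × Cf) × ℕ × List ℕ => p.1.2.2)
    (g := fun p => decide (p.2.1 = p.1.1.2.2.1) && reqT e p.1.1.2.2.2 p.2.2)
    (h := fun p p' => decide (p'.1 = p.2.1 + 1) && decide (p.2.1 < p.1.1.2.2.1) &&
      stepT e p.1.1.1 p.2.2 p'.2) (by fun_prop) ?_ ?_
  · have h1 : NPC.Poly (fun p : (CInst × Cf × Cf) × ℕ × List ℕ => reqT e p.1.1.2.2.2 p.2.2) :=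
      (poly_reqT e).comp (f := fun p : (CInst × Cf × Cf) × ℕ × List ℕ =>
        (p.1.1.2.2.2, p.2.2)) (by fun_prop)
    fun_prop
  · have h1 : NPC.Poly (fun p : ((CInst × Cf × Cf) × ℕ × List ℕ) × ℕ × List ℕ =>
        stepT e p.1.1.1.1 p.1.2.2 p.2.2) :=
      (poly_stepT e).comp (f := fun p : ((CInst × Cf × Cf) × ℕ × List ℕ) × ℕ × List ℕ =>
        (p.1.1.1.1, p.1.2.2, p.2.2)) (by fun_prop)
    fun_prop

theorem sz_tr {I : CInst} {c c' : Cf} (h : tr e I c c' = true) :
    sz c' ≤ (5 * Polynomial.X + Polynomial.X * Polynomial.C (4 * Fintype.card G + 2) + 10 :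
      Polynomial ℕ).eval (sz I) := by
  obtain ⟨W, s, T, R⟩ := I
  simp only [Polynomial.eval_add, Polynomial.eval_mul, Polynomial.eval_X, Polynomial.eval_C,
    Polynomial.eval_ofNat]
  cases c' with
  | none => simp
  | some p' =>
    obtain ⟨t', y'⟩ := p'
    cases c with
    | none => simp [tr] at h
    | some p =>
      obtain ⟨t, y⟩ := p
      unfold tr stepT at h
      simp only [Option.elim_some, Bool.and_eq_true, decide_eq_true_eq, List.all_eq_true] at h
      obtain ⟨⟨h1, h2⟩, ⟨h3, h4⟩, _⟩ := h
      have h5 := sz_le_length_mul y' (4 * Fintype.card G + 1) (fun c hc => sz_code_le (h4 c hc))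
      have h6 : sz t' ≤ 2 * sz T := sz_nat_mono_le (by omega)
      have h7 := length_lt_sz W
      have h8 : y'.length * (4 * Fintype.card G + 1 + 1) ≤
          (sz W + (sz s + (sz T + sz R + 1) + 1) + 1) * (4 * Fintype.card G + 2) :=
        Nat.mul_le_mul (by omega) (by omega)
      simp only [sz_some, sz_pair]
      omega

theorem ctrl_inPSPACE : InPSPACE (lang (CTRL e)) := by
  refine inPSPACE_reachC (γ := Cf) (E := tr e) (poly_tr e) (s := fun I => some (0, I.2.1))
    (t := fun _ => none) (by fun_prop) (NPC.Poly.const _)
    (5 * Polynomial.X + Polynomial.X * Polynomial.C (4 * Fintype.card G + 2) + 10)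
    (fun a c c' h => sz_tr e h) ?_ (ctrl_iff_reach e)
  rintro ⟨W, s, T, R⟩
  simp only [Polynomial.eval_add, Polynomial.eval_mul, Polynomial.eval_X, Polynomial.eval_C,
    Polynomial.eval_ofNat, sz_some, sz_pair]
  have : sz (0 : ℕ) = 1 := rfl
  omega

end Pool.Agent.W995.CT
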