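import Pool.Agent.W995.CT.Ab1
import Pool.Agent.W995.PN.NilPoly

/-!
# Linear algebra over `ZMod q` in polynomial time
-/

namespace Pool.Agent.W995.CT

open Pool.Agent.NPC Pool.Agent.W995.PN

/-- The quotients of `b` by `a` modulo `q`. -/
def dvs (q a b : ℕ) : List ℕ := (List.range q).filter fun c => decide (c * a % q = b % q)

/-- The difference `w - c v`. -/
def subL (q L c : ℕ) (w v : List ℕ) : List ℕ :=
  (List.range L).map fun i => (w.getD i 0 + (q - c) * v.getD i 0) % q

/-- The multiple `d v`. -/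
def mulL (q L d : ℕ) (v : List ℕ) : List ℕ := (List.range L).map fun i => d * v.getD i 0 % q

/-- States of the elimination: the vectors, the right side, and the partial answer. -/
abbrev ESt := List (List ℕ) × List ℕ × Bool

/-- The elimination of a coordinate with the pivot `v`. -/
def epiv (q : ℕ) (st : ESt) (v : List ℕ) : ESt :=
  (st.1.map (fun w => (subL q st.2.1.length ((dvs q (v.getD 0 0) (w.getD 0 0)).headD 0) w v).tail) ++
    (dvs q (v.getD 0 0) 0).map (fun d => (mulL q st.2.1.length d v).tail),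
    (subL q st.2.1.length ((dvs q (v.getD 0 0) (st.2.1.getD 0 0)).headD 0) st.2.1 v).tail,
    st.2.2 && !(dvs q (v.getD 0 0) (st.2.1.getD 0 0)).isEmpty)

/-- The elimination of a coordinate. -/
def estep (q : ℕ) (st : ESt) : ESt :=
  ((st.1.filter fun v => st.1.all fun w =>
    !(dvs q (v.getD 0 0) (w.getD 0 0)).isEmpty).head?).elim
    ([], st.2.1.tail, st.2.2 && decide (st.2.1.getD 0 0 % q = 0)) (epiv q st)

/-- The elimination of all coordinates. -/
def elimAll (q : ℕ) (x : List (List ℕ) × List ℕ) : ESt :=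
  x.2.foldl (fun st _ => estep q st) (x.1, x.2, true)

/-- Is the vector `x.2` a linear combination of the vectors `x.1` modulo `q`? -/
def solve (q : ℕ) (x : List (List ℕ) × List ℕ) : Bool := (elimAll q x).2.2

/-- The vector given by a list. -/
def vec (q : ℕ) (l : List ℕ) : ℕ → ZMod q := fun i => ((l.getD i 0 : ℕ) : ZMod q)

theorem vec_tail (q : ℕ) (l : List ℕ) : vec q l.tail = tailL (ZMod q) (vec q l) := by
  funext i
  rw [tailL_apply]
  unfold vec
  cases l <;> rfl

theorem mem_dvs {q a b c : ℕ} : c ∈ dvs q a b ↔ c < q ∧ (c : ZMod q) * (a : ZMod q) = (b : ZMod q) := by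
  unfold dvs
  rw [List.mem_filter, List.mem_range, decide_eq_true_eq, ← Nat.cast_mul,
    ZMod.natCast_eq_natCast_iff']

theorem dvs_ne_nil {q a b : ℕ} (hq : 0 < q) : dvs q a b ≠ [] ↔ (a : ZMod q) ∣ (b : ZMod q) := by
  haveI : NeZero q := ⟨hq.ne'⟩
  constructor
  · intro h
    obtain ⟨c, hc⟩ := List.exists_mem_of_ne_nil _ h
    rw [mem_dvs] at hc
    exact ⟨c, by rw [← hc.2]; ring⟩
  · rintro ⟨c, hc⟩ h
    have : c.val ∈ dvs q a b := by
      rw [mem_dvs]
      exact ⟨ZMod.val_lt c, by rw [ZMod.natCast_zmod_val, hc]; ring⟩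
    rw [h] at this
    simp at this

theorem headD_dvs {q a b : ℕ} (h : dvs q a b ≠ []) : (dvs q a b).headD 0 ∈ dvs q a b := by
  cases hd : dvs q a b with
  | nil => exact absurd hd h
  | cons c l => simp

theorem vec_of_le {q : ℕ} {l : List ℕ} {i : ℕ} (h : l.length ≤ i) : vec q l i = 0 := by
  unfold vec
  rw [List.getD_eq_default _ _ h, Nat.cast_zero]

theorem vec_subL {q L c : ℕ} (hc : c < q) {w v : List ℕ} (hw : w.length ≤ L) (hv : v.length ≤ L) :
    vec q (subL q L c w v) = vec q w - (c : ZMod q) • vec q v := by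
  funext i
  rw [Pi.sub_apply, Pi.smul_apply, smul_eq_mul]
  by_cases hi : i < L
  · unfold vec subL
    rw [getD_map_range _ hi, ZMod.natCast_mod, Nat.cast_add, Nat.cast_mul, Nat.cast_sub hc.le,
      ZMod.natCast_self]
    ring
  · rw [vec_of_le (by simp [subL]; omega), vec_of_le (by omega), vec_of_le (by omega)]
    simp

theorem vec_mulL {q L d : ℕ} {v : List ℕ} (hv : v.length ≤ L) :
    vec q (mulL q L d v) = (d : ZMod q) • vec q v := by
  funext i
  rw [Pi.smul_apply, smul_eq_mul]
  by_cases hi : i < L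
  · unfold vec mulL
    rw [getD_map_range _ hi, ZMod.natCast_mod, Nat.cast_mul]
  · rw [vec_of_le (by simp [mulL]; omega), vec_of_le (by omega)]
    simp

/-- The vectors of a list of lists. -/
def vecs (q : ℕ) (V : List (List ℕ)) : Set (ℕ → ZMod q) := {x | ∃ v ∈ V, x = vec q v}

/-- The meaning of a state. -/
def Sem (q : ℕ) (st : ESt) : Prop :=
  st.2.2 = true ∧ vec q st.2.1 ∈ Submodule.span (ZMod q) (vecs q st.1)

/-- The lengths of the vectors are bounded. -/
def Gd (st : ESt) : Prop := ∀ v ∈ st.1, v.length ≤ st.2.1.length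

theorem epiv_iff {q : ℕ} (hq : 0 < q) {st : ESt} (hg : Gd st) {v : List ℕ} (hv : v ∈ st.1)
    (hp : ∀ w ∈ st.1, dvs q (v.getD 0 0) (w.getD 0 0) ≠ []) :
    Sem q (epiv q st v) ↔ Sem q st := by
  obtain ⟨V, δ, ok⟩ := st
  unfold Sem epiv
  simp only
  simp only [Gd] at hg hv hp
  by_cases hd : dvs q (v.getD 0 0) (δ.getD 0 0) = []
  · rw [hd]
    constructor
    · rintro ⟨h, _⟩
      simp at h
    · rintro ⟨_, h⟩
      exfalso
      have h1 : ¬ (vec q v 0 ∣ vec q δ 0) := by
        intro h2
        exact (dvs_ne_nil hq).2 h2 hd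
      apply h1
      have key : ∀ x ∈ Submodule.span (ZMod q) (vecs q V), vec q v 0 ∣ x 0 := by
        intro x hx
        refine Submodule.span_induction (p := fun x _ => vec q v 0 ∣ x 0) ?_ ?_ ?_ ?_ hx
        · rintro y ⟨w, hw, rfl⟩
          exact (dvs_ne_nil hq).1 (hp w hw)
        · exact dvd_zero _
        · intro y z _ _ h1 h2
          exact dvd_add h1 h2
        · intro a y _ h1
          exact h1.mul_left a
      exact key _ h
  · have h0 : (dvs q (v.getD 0 0) (δ.getD 0 0)).isEmpty = false := by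
      rw [List.isEmpty_eq_false_iff]; exact hd
    rw [h0, Bool.not_false, Bool.and_true]
    refine and_congr_right fun _ => ?_
    have hc := mem_dvs.1 (headD_dvs hd)
    have h1 := mem_span_elim (S := vecs q V) (v := vec q v) ⟨v, hv, rfl⟩ (by
      rintro y ⟨w, hw, rfl⟩
      exact (dvs_ne_nil hq).1 (hp w hw)) (x := vec q δ)
      (c := (((dvs q (v.getD 0 0) (δ.getD 0 0)).headD 0 : ℕ) : ZMod q)) hc.2
    rw [h1, vec_tail, vec_subL hc.1 le_rfl (hg v hv)]
    have h2 : Submodule.span (ZMod q) (vecs q (V.map (fun w => (subL q δ.length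
        ((dvs q (v.getD 0 0) (w.getD 0 0)).headD 0) w v).tail) ++
        (dvs q (v.getD 0 0) 0).map (fun d => (mulL q δ.length d v).tail))) =
        Submodule.span (ZMod q) (elimS (vecs q V) (vec q v)) := by
      apply le_antisymm
      · rw [Submodule.span_le]
        rintro y ⟨z, hz, rfl⟩
        rw [List.mem_append, List.mem_map, List.mem_map] at hz
        rcases hz with ⟨w, hw, rfl⟩ | ⟨d, hd, rfl⟩
        · have h3 := mem_dvs.1 (headD_dvs (hp w hw))
          rw [vec_tail, vec_subL h3.1 (hg w hw) (hg v hv)]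
          exact Submodule.subset_span ⟨vec q w, ⟨w, hw, rfl⟩, _, h3.2, rfl⟩
        · rw [mem_dvs] at hd
          rw [vec_tail, vec_mulL (hg v hv)]
          refine Submodule.subset_span ⟨vec q v, ⟨v, hv, rfl⟩, 1 - (d : ZMod q), ?_, ?_⟩
          · have h4 : (d : ZMod q) * vec q v 0 = 0 := by
              have := hd.2
              rw [Nat.cast_zero] at this
              exact this
            rw [sub_mul, h4]; ring
          · congr 1
            rw [sub_smul, one_smul]
            abel
      · rw [Submodule.span_le]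
        rintro y ⟨x, ⟨w, hw, rfl⟩, c, hc, rfl⟩
        haveI : NeZero q := ⟨hq.ne'⟩
        have h3 := mem_dvs.1 (headD_dvs (hp w hw))
        set c0 : ZMod q := (((dvs q (v.getD 0 0) (w.getD 0 0)).headD 0 : ℕ) : ZMod q) with hc0
        have h4 : vec q w - c • vec q v = (vec q w - c0 • vec q v) +
            (((c0 - c).val : ℕ) : ZMod q) • vec q v := by
          rw [ZMod.natCast_zmod_val, sub_smul]; abel
        rw [h4, map_add]
        refine Submodule.add_mem _ (Submodule.subset_span ⟨_, List.mem_append_left _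
          (List.mem_map.2 ⟨w, hw, rfl⟩), ?_⟩) (Submodule.subset_span ⟨_, List.mem_append_right _
          (List.mem_map.2 ⟨(c0 - c).val, mem_dvs.2 ⟨ZMod.val_lt _, ?_⟩, rfl⟩), ?_⟩)
        · rw [vec_tail, vec_subL h3.1 (hg w hw) (hg v hv)]
        · rw [ZMod.natCast_zmod_val, Nat.cast_zero, sub_mul]
          have h5 : c * ((v.getD 0 0 : ℕ) : ZMod q) = ((w.getD 0 0 : ℕ) : ZMod q) := hc
          rw [h5, hc0, h3.2, sub_self]
        · rw [vec_tail, vec_mulL (hg v hv)]
    rw [h2]

theorem estep_iff {q : ℕ} (hq : ∃ p k : ℕ, p.Prime ∧ q = p ^ k) {st : ESt} (hg : Gd st) :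
    Sem q (estep q st) ↔ Sem q st := by
  have hq0 : 0 < q := by
    obtain ⟨p, k, hp, h⟩ := hq
    rw [h]
    exact pow_pos hp.pos k
  unfold estep
  cases hf : (st.1.filter fun v => st.1.all fun w =>
    !(dvs q (v.getD 0 0) (w.getD 0 0)).isEmpty).head? with
  | some v =>
    have h1 := List.mem_of_head? hf
    rw [List.mem_filter, List.all_eq_true] at h1
    rw [Option.elim_some]
    refine epiv_iff hq0 hg h1.1 fun w hw => ?_
    have h2 := h1.2 w hw
    rw [Bool.not_eq_true', List.isEmpty_eq_false_iff] at h2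
    exact h2
  | none =>
    rw [List.head?_eq_none_iff] at hf
    have h1 : st.1 = [] := by
      by_contra hne
      obtain ⟨v, hv, hv2⟩ := exists_pivot hq (fun l : List ℕ => ((l.getD 0 0 : ℕ) : ZMod q)) st.1 hne
      have : v ∈ (st.1.filter fun v => st.1.all fun w =>
          !(dvs q (v.getD 0 0) (w.getD 0 0)).isEmpty) := by
        rw [List.mem_filter, List.all_eq_true]
        refine ⟨hv, fun w hw => ?_⟩
        rw [Bool.not_eq_true', List.isEmpty_eq_false_iff]
        exact (dvs_ne_nil hq0).2 (hv2 w hw)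
      rw [hf] at this
      simp at this
    rw [Option.elim_none]
    unfold Sem
    rw [h1]
    have h2 : vecs q [] = ∅ := by
      ext x
      simp [vecs]
    simp only [h2, Submodule.span_empty, Submodule.mem_bot, Bool.and_eq_true, decide_eq_true_eq,
      vec_tail]
    rw [and_assoc]
    refine and_congr_right fun _ => ?_
    constructor
    · rintro ⟨h3, h4⟩
      refine eq_of_tail ?_ h4
      have : vec q st.2.1 0 = ((st.2.1.getD 0 0 % q : ℕ) : ZMod q) := by
        rw [ZMod.natCast_mod]; rfl
      rw [this, h3]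
      simp
    · intro h3
      refine ⟨?_, by rw [h3]; rfl⟩
      have h4 := congrFun h3 0
      have h5 : ((st.2.1.getD 0 0 : ℕ) : ZMod q) = ((0 : ℕ) : ZMod q) := by
        rw [Nat.cast_zero]; exact h4
      rw [ZMod.natCast_eq_natCast_iff'] at h5
      simpa using h5

theorem length_subL (q L c : ℕ) (w v : List ℕ) : (subL q L c w v).length = L := by simp [subL]

theorem length_mulL (q L d : ℕ) (v : List ℕ) : (mulL q L d v).length = L := by simp [mulL]

theorem gd_estep {q : ℕ} {st : ESt} : Gd (estep q st) ∧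
    (estep q st).2.1.length = st.2.1.length - 1 := by
  unfold estep
  cases (st.1.filter fun v => st.1.all fun w =>
    !(dvs q (v.getD 0 0) (w.getD 0 0)).isEmpty).head? with
  | none =>
    rw [Option.elim_none]
    exact ⟨by simp [Gd], by simp⟩
  | some v =>
    rw [Option.elim_some]
    unfold epiv
    refine ⟨?_, by simp [length_subL]⟩
    intro w hw
    simp only [List.mem_append, List.mem_map] at hw
    simp only [List.length_tail, length_subL]
    rcases hw with ⟨w', _, rfl⟩ | ⟨d, _, rfl⟩
    · simp [length_subL]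
    · simp [length_mulL]

theorem foldl_estep {q : ℕ} (hq : ∃ p k : ℕ, p.Prime ∧ q = p ^ k) : ∀ (l : List ℕ) (st : ESt),
    Gd st → (Sem q (l.foldl (fun st _ => estep q st) st) ↔ Sem q st) ∧
      (l.foldl (fun st _ => estep q st) st).2.1.length = st.2.1.length - l.length
  | [], st, _ => ⟨Iff.rfl, rfl⟩
  | a :: l, st, hg => by
    have h1 := gd_estep (q := q) (st := st)
    have h2 := foldl_estep hq l (estep q st) h1.1
    rw [List.foldl_cons, h2.1, h2.2, h1.2, List.length_cons]
    exact ⟨estep_iff hq hg, by omega⟩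

theorem solve_iff {q : ℕ} (hq : ∃ p k : ℕ, p.Prime ∧ q = p ^ k) {V : List (List ℕ)} {δ : List ℕ}
    (hg : ∀ v ∈ V, v.length ≤ δ.length) :
    solve q (V, δ) = true ↔ vec q δ ∈ Submodule.span (ZMod q) (vecs q V) := by
  obtain ⟨h1, h2⟩ := foldl_estep hq δ (V, δ, true) hg
  have h3 : Sem q (V, δ, true) ↔ vec q δ ∈ Submodule.span (ZMod q) (vecs q V) := by
    unfold Sem
    simp
  rw [← h3, ← h1]
  unfold solve elimAll Sem
  simp only
  constructor
  · intro h
    refine ⟨h, ?_⟩
    simp only at h2
    rw [Nat.sub_self] at h2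
    have h4 := List.length_eq_zero_iff.1 h2
    rw [h4]
    have : vec q [] = 0 := by
      funext i
      exact vec_of_le (by simp)
    rw [this]
    exact Submodule.zero_mem _
  · exact fun h => h.1

end Pool.Agent.W995.CT
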