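import Pool.Agent.W995.CT.Ab2

/-!
# The elimination runs in polynomial time
-/

namespace Pool.Agent.W995.CT

open Pool.Agent.NPC Pool.Agent.W995.PN

section gen

variable {α : Type} [TEnc α]

theorem poly_dvs (q : ℕ) {a b : α → ℕ} (ha : NPC.Poly a) (hb : NPC.Poly b) :
    NPC.Poly (fun x => dvs q (a x) (b x)) := by
  unfold dvs
  fun_prop

attribute [fun_prop] poly_dvs

theorem poly_subL (q : ℕ) {L c : α → ℕ} {w v : α → List ℕ}
    (hL : NPC.Poly (fun a => List.range (L a))) (hc : NPC.Poly c) (hw : NPC.Poly w)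
    (hv : NPC.Poly v) : NPC.Poly (fun a => subL q (L a) (c a) (w a) (v a)) := by
  unfold subL
  refine NPC.Poly.map (F := fun a i => ((w a).getD i 0 + (q - c a) * (v a).getD i 0) % q) hL ?_
  fun_prop

theorem poly_mulL (q : ℕ) {L c : α → ℕ} {v : α → List ℕ}
    (hL : NPC.Poly (fun a => List.range (L a))) (hc : NPC.Poly c)
    (hv : NPC.Poly v) : NPC.Poly (fun a => mulL q (L a) (c a) (v a)) := by
  unfold mulL
  refine NPC.Poly.map (F := fun a i => (c a * (v a).getD i 0) % q) hL ?_
  fun_prop

end gen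

theorem poly_epiv (q : ℕ) : NPC.Poly (fun x : ESt × List ℕ => epiv q x.1 x.2) := by
  have hL : NPC.Poly (fun x : ESt × List ℕ => List.range x.1.2.1.length) :=
    NPC.Poly.range_length (by fun_prop)
  have h1 : NPC.Poly (fun x : ESt × List ℕ => x.1.1.map (fun w => (subL q x.1.2.1.length
      ((dvs q (x.2.getD 0 0) (w.getD 0 0)).headD 0) w x.2).tail)) := by
    refine NPC.Poly.map (l := fun x : ESt × List ℕ => x.1.1)
      (F := fun x w => (subL q x.1.2.1.length
      ((dvs q (x.2.getD 0 0) (w.getD 0 0)).headD 0) w x.2).tail) (by fun_prop) ?_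
    refine NPC.Poly.tail ?_
    exact poly_subL q (L := fun z : (ESt × List ℕ) × List ℕ => z.1.1.2.1.length)
      (c := fun z => (dvs q (z.1.2.getD 0 0) (z.2.getD 0 0)).headD 0) (w := fun z => z.2)
      (v := fun z => z.1.2) (NPC.Poly.range_length (by fun_prop)) (by fun_prop) (by fun_prop)
      (by fun_prop)
  have h2 : NPC.Poly (fun x : ESt × List ℕ => (dvs q (x.2.getD 0 0) 0).map (fun d =>
      (mulL q x.1.2.1.length d x.2).tail)) := by
    refine NPC.Poly.map (l := fun x : ESt × List ℕ => dvs q (x.2.getD 0 0) 0)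
      (F := fun x d => (mulL q x.1.2.1.length d x.2).tail) (by fun_prop) ?_
    refine NPC.Poly.tail ?_
    exact poly_mulL q (L := fun z : (ESt × List ℕ) × ℕ => z.1.1.2.1.length)
      (c := fun z => z.2) (v := fun z => z.1.2) (NPC.Poly.range_length (by fun_prop))
      (by fun_prop) (by fun_prop)
  have h3 : NPC.Poly (fun x : ESt × List ℕ => (subL q x.1.2.1.length
      ((dvs q (x.2.getD 0 0) (x.1.2.1.getD 0 0)).headD 0) x.1.2.1 x.2).tail) := by
    refine NPC.Poly.tail ?_
    exact poly_subL q (L := fun x : ESt × List ℕ => x.1.2.1.length)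
      (c := fun x => (dvs q (x.2.getD 0 0) (x.1.2.1.getD 0 0)).headD 0) (w := fun x => x.1.2.1)
      (v := fun x => x.2) hL (by fun_prop) (by fun_prop) (by fun_prop)
  have h4 : NPC.Poly (fun x : ESt × List ℕ =>
      x.1.2.2 && !(dvs q (x.2.getD 0 0) (x.1.2.1.getD 0 0)).isEmpty) := by fun_prop
  have : (fun x : ESt × List ℕ => epiv q x.1 x.2) = fun x =>
      (x.1.1.map (fun w => (subL q x.1.2.1.length
      ((dvs q (x.2.getD 0 0) (w.getD 0 0)).headD 0) w x.2).tail) ++
      (dvs q (x.2.getD 0 0) 0).map (fun d => (mulL q x.1.2.1.length d x.2).tail),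
      (subL q x.1.2.1.length
      ((dvs q (x.2.getD 0 0) (x.1.2.1.getD 0 0)).headD 0) x.1.2.1 x.2).tail,
      x.1.2.2 && !(dvs q (x.2.getD 0 0) (x.1.2.1.getD 0 0)).isEmpty) := rfl
  rw [this]
  exact NPC.Poly.pair (NPC.Poly.append h1 h2) (NPC.Poly.pair h3 h4)

theorem poly_pvt (q : ℕ) : NPC.Poly (fun st : ESt => (st.1.filter fun v => st.1.all fun w =>
      !(dvs q (v.getD 0 0) (w.getD 0 0)).isEmpty).head?) := by
  have h3 : NPC.Poly (fun x : (ESt × List ℕ) × List ℕ =>
      !(dvs q (x.1.2.getD 0 0) (x.2.getD 0 0)).isEmpty) := by fun_prop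
  have h2 : NPC.Poly (fun x : ESt × List ℕ => x.1.1.all fun w =>
      !(dvs q (x.2.getD 0 0) (w.getD 0 0)).isEmpty) :=
    NPC.Poly.all (l := fun x : ESt × List ℕ => x.1.1) (p := fun x w =>
      !(dvs q (x.2.getD 0 0) (w.getD 0 0)).isEmpty) (by fun_prop) h3
  have h1 : NPC.Poly (fun st : ESt => st.1.filter fun v => st.1.all fun w =>
      !(dvs q (v.getD 0 0) (w.getD 0 0)).isEmpty) :=
    NPC.Poly.filter (l := fun st : ESt => st.1) (p := fun st v => st.1.all fun w =>
      !(dvs q (v.getD 0 0) (w.getD 0 0)).isEmpty) (by fun_prop) h2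
  exact NPC.Poly.head? h1

theorem poly_e2 (q : ℕ) : NPC.Poly (fun st : ESt => (([], st.2.1.tail,
      st.2.2 && decide (st.2.1.getD 0 0 % q = 0)) : ESt)) := by fun_prop

theorem poly_e3 (q : ℕ) (P : ESt → Option (List ℕ)) (hP : NPC.Poly P) :
    NPC.Poly (fun st : ESt => (P st).elim (([], st.2.1.tail,
      st.2.2 && decide (st.2.1.getD 0 0 % q = 0)) : ESt) (epiv q st)) :=
  NPC.Poly.optElim hP (poly_e2 q) (poly_epiv q)

theorem poly_estep (q : ℕ) : NPC.Poly (estep q) := by
  have h := poly_e3 q _ (poly_pvt q)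
  unfold estep
  exact h

/-- The shape of the states. -/
def Shape (q m N : ℕ) (st : ESt) : Prop :=
  st.1.length ≤ N ∧ (∀ v ∈ st.1, Ok q m v) ∧ Ok q m st.2.1

theorem ok_tail_map {q L : ℕ} (hq : 0 < q) (f : ℕ → ℕ) :
    Ok q L ((List.range L).map fun i => f i % q).tail := by
  refine ⟨by simp, fun c hc => ?_⟩
  have h1 := List.mem_of_mem_tail hc
  rw [List.mem_map] at h1
  obtain ⟨i, _, rfl⟩ := h1
  exact Nat.mod_lt _ hq

theorem ok_mono {q m m' : ℕ} {l : List ℕ} (h : Ok q m l) (hm : m ≤ m') : Ok q m' l :=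
  ⟨h.1.trans hm, h.2⟩

theorem shape_estep {q m N : ℕ} (hq : 0 < q) {st : ESt} (h1 : st.1.length ≤ N)
    (h2 : st.2.1.length ≤ m) (h3 : ∀ c ∈ st.2.1, c < q) : Shape q m (N + q) (estep q st) := by
  unfold estep
  cases hf : (st.1.filter fun v => st.1.all fun w =>
    !(dvs q (v.getD 0 0) (w.getD 0 0)).isEmpty).head? with
  | none =>
    rw [Option.elim_none]
    refine ⟨by simp, by simp, ?_, ?_⟩
    · simp; omega
    · exact fun c hc => h3 c (List.mem_of_mem_tail hc)
  | some v =>
    rw [Option.elim_some]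
    unfold epiv
    refine ⟨?_, ?_, ?_⟩
    · simp only [List.length_append, List.length_map]
      have : (dvs q (v.getD 0 0) 0).length ≤ q := by
        unfold dvs
        refine (List.length_filter_le _ _).trans ?_
        simp
      omega
    · intro w hw
      simp only [List.mem_append, List.mem_map] at hw
      rcases hw with ⟨w', _, rfl⟩ | ⟨d, _, rfl⟩
      · exact ok_mono (ok_tail_map hq _) h2
      · exact ok_mono (ok_tail_map hq _) h2
    · exact ok_mono (ok_tail_map hq _) h2

theorem sz_shape {q m N : ℕ} {st : ESt} (h : Shape q m N st) :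
    sz st ≤ (N * (m * (4 * q + 2) + 2) + 1) + (m * (4 * q + 2) + 1) + 5 := by
  have h1 := sz_mat h.1 h.2.1
  have h2 := sz_Ok h.2.2
  have h3 : sz st = sz st.1 + (sz st.2.1 + sz st.2.2 + 1) + 1 := by
    obtain ⟨a, b, c⟩ := st
    simp
  have h4 := sz_bool_le st.2.2
  omega

theorem shape_foldl {q m : ℕ} (hq : 0 < q) : ∀ (l : List ℕ) (N : ℕ) (st : ESt),
    Shape q m N st → Shape q m (N + l.length * q) (l.foldl (fun st _ => estep q st) st)
  | [], N, st, h => by simpa using h
  | a :: l, N, st, h => by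
    have h1 := shape_estep (m := m) hq h.1 h.2.2.1 h.2.2.2
    have h2 := shape_foldl hq l _ _ h1
    rw [List.foldl_cons, List.length_cons]
    have e1 : N + q + l.length * q = N + (l.length + 1) * q := by ring
    rwa [e1] at h2

/-- The reduction of the input modulo `q`. -/
def redx (q : ℕ) (x : List (List ℕ) × List ℕ) : List (List ℕ) × List ℕ :=
  (x.1.map fun v => v.map fun c => c % q, x.2.map fun c => c % q)

theorem poly_redx (q : ℕ) : NPC.Poly (redx q) := by
  have : redx q = fun x => (x.1.map fun v => v.map fun c => c % q, x.2.map fun c => c % q) := rfl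
  rw [this]
  fun_prop

theorem poly_elimAll {q : ℕ} (hq : 0 < q) : NPC.Poly (fun x => elimAll q (redx q x)) := by
  have hr := poly_redx q
  have hs : NPC.Poly (fun x => (((redx q x).1, (redx q x).2, true) : ESt)) :=
    NPC.Poly.pair (NPC.Poly.fst hr) (NPC.Poly.pair (NPC.Poly.snd hr) (NPC.Poly.const true))
  refine NPC.Poly.foldl (α := List (List ℕ) × List ℕ) (l := fun x => (redx q x).2)
    (s := fun x => ((redx q x).1, (redx q x).2, true)) (F := fun _ st _ => estep q st)
    (NPC.Poly.snd hr) hs ?_ (((Polynomial.X + Polynomial.X * Polynomial.C q) *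
      (Polynomial.X * Polynomial.C (4 * q + 2) + Polynomial.C 2) + Polynomial.C 1) +
      (Polynomial.X * Polynomial.C (4 * q + 2) + Polynomial.C 1) + Polynomial.C 5) ?_
  · exact (poly_estep q).comp (f := fun z : (List (List ℕ) × List ℕ) × ESt × ℕ => z.2.1)
      (by fun_prop)
  · intro x k _
    have h1 : Shape q (sz x) (sz x) ((redx q x).1, (redx q x).2, true) := by
      have e1 : sz x = sz x.1 + sz x.2 + 1 := sz_pair x.1 x.2
      have e2 := length_lt_sz x.1
      have e3 := length_lt_sz x.2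
      refine ⟨?_, ?_, ?_, ?_⟩
      · simp [redx]; omega
      · intro v hv
        simp only [redx, List.mem_map] at hv
        obtain ⟨w, hw, rfl⟩ := hv
        have e4 := sz_le_of_mem hw
        have e5 := length_lt_sz w
        refine ⟨by simp; omega, fun c hc => ?_⟩
        rw [List.mem_map] at hc
        obtain ⟨d, _, rfl⟩ := hc
        exact Nat.mod_lt _ hq
      · simp [redx]; omega
      · intro c hc
        simp only [redx, List.mem_map] at hc
        obtain ⟨d, _, rfl⟩ := hc
        exact Nat.mod_lt _ hq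
    have h2 := shape_foldl hq ((redx q x).2.take k) _ _ h1
    have h3 := sz_shape h2
    have h4 : ((redx q x).2.take k).length ≤ sz x := by
      have e3 := length_lt_sz x.2
      have e1 : sz x = sz x.1 + sz x.2 + 1 := sz_pair x.1 x.2
      rw [List.length_take]
      simp [redx]
      omega
    simp only [Polynomial.eval_add, Polynomial.eval_mul, Polynomial.eval_C, Polynomial.eval_X]
    refine h3.trans ?_
    have h5 : ((redx q x).2.take k).length * q ≤ sz x * q := Nat.mul_le_mul_right _ h4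
    have h6 : (sz x + ((redx q x).2.take k).length * q) * (sz x * (4 * q + 2) + 2) ≤
        (sz x + sz x * q) * (sz x * (4 * q + 2) + 2) := Nat.mul_le_mul_right _ (by omega)
    omega

theorem poly_solve {q : ℕ} (hq : 0 < q) : NPC.Poly (fun x => solve q (redx q x)) := by
  have := poly_elimAll hq
  unfold solve
  fun_prop

end Pool.Agent.W995.CT
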