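import Pool.Agent.W995.CT.Defs

/-!
# Runs of a controlled network with given inputs
-/

namespace Pool.Agent.W995.CT

open Pool.Agent.NPC Pool.Agent.W995.PN

variable {G : Type} [Group G] [Fintype G] (e : Fin (Fintype.card G) ≃ G)

/-- The next state, if the free cells get the contents given by `u`. -/
def nxt (W : List (Option (List (Bool × ℕ)))) (u x : ℕ → G) : ℕ → G := fun i =>
  ((W.getD i (some [])).map fun w => (w.map (letter e x)).prod).getD (u i)

theorem cstep_nxt (W : List (Option (List (Bool × ℕ)))) (u x : ℕ → G) :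
    CStep e W x (nxt e W u x) := by
  intro i w hw
  unfold nxt
  rw [hw]
  rfl

theorem nxt_of_cstep {W : List (Option (List (Bool × ℕ)))} {x y : ℕ → G} (h : CStep e W x y) :
    nxt e W y x = y := by
  funext i
  unfold nxt
  cases hw : W.getD i (some []) with
  | none => rfl
  | some w => exact (h i w hw).symm

/-- The run with the inputs `u`. -/
def run (W : List (Option (List (Bool × ℕ)))) (x : ℕ → G) (u : ℕ → ℕ → G) : ℕ → ℕ → G
  | 0 => x
  | t + 1 => nxt e W (u t) (run W x u t)

theorem ctrl_iff_run (I : CInst) : CTRL e I ↔ ∃ u : ℕ → ℕ → G,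
    ∀ q ∈ I.2.2.2, run e I.1 (start e I.2.1) u I.2.2.1 q.1 = el e q.2 := by
  constructor
  · rintro ⟨z, h0, h1, h2⟩
    refine ⟨fun t => z (t + 1), fun q hq => ?_⟩
    rw [← h2 q hq]
    have key : ∀ t ≤ I.2.2.1, run e I.1 (start e I.2.1) (fun t => z (t + 1)) t = z t := by
      intro t
      induction t with
      | zero => intro _; exact h0.symm
      | succ t ih =>
        intro ht
        rw [run, ih (by omega)]
        exact nxt_of_cstep e (h1 t (by omega))
    rw [key _ le_rfl]
  · rintro ⟨u, hu⟩
    exact ⟨run e I.1 (start e I.2.1) u, rfl, fun t _ => cstep_nxt e _ _ _, hu⟩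

theorem run_congr {W : List (Option (List (Bool × ℕ)))} {x : ℕ → G} {u v : ℕ → ℕ → G} {T : ℕ}
    (h : ∀ t < T, u t = v t) : run e W x u T = run e W x v T := by
  induction T with
  | zero => rfl
  | succ T ih => rw [run, run, ih fun t ht => h t (by omega), h T (by omega)]

end Pool.Agent.W995.CT
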