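import Pool.Agent.W995.CT.Basic
import Pool.Agent.W995.PN.PSp
import Pool.Agent.W995.PN.Alg2

/-!
# Programs: runs with inputs that change rarely
-/

namespace Pool.Agent.W995.CT

open Pool.Agent.NPC Pool.Agent.W995.PN

/-- Programs: lists of blocks (contents of the free cells, number of steps). -/
abbrev Pg := List (List ℕ × ℕ)

variable {G : Type} [Group G] [Fintype G] (e : Fin (Fintype.card G) ≃ G)

/-- The network with constant inputs `a`. -/
def netE (W : List (Option (List (Bool × ℕ)))) (a : List ℕ) : List (List (Bool × ℕ)) :=
  (List.range W.length).map fun i => (W.getD i (some [])).getD [(true, a.getD i (code e 1))]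

theorem length_netE (W : List (Option (List (Bool × ℕ)))) (a : List ℕ) :
    (netE e W a).length = W.length := by simp [netE]

theorem step_netE (W : List (Option (List (Bool × ℕ)))) {a : List ℕ} {u : ℕ → G}
    (h : ∀ i < W.length, el e (a.getD i (code e 1)) = u i) (x : ℕ → G) :
    step e (netE e W a) x = nxt e W u x := by
  funext i
  unfold step nxt
  by_cases hi : i < W.length
  · have h1 : (netE e W a).getD i [] =
        (W.getD i (some [])).getD [(true, a.getD i (code e 1))] := by
      unfold netE
      rw [getD_map_range _ hi]
    rw [h1]
    cases hw : W.getD i (some []) with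
    | none =>
      simp only [Option.getD_none, Option.map_none, List.map_singleton, List.prod_singleton]
      exact h i hi
    | some w => simp
  · rw [List.getD_eq_default _ _ (by rw [length_netE]; omega),
      List.getD_eq_default _ _ (by omega)]
    simp

/-- The effect of a program. -/
def prun (W : List (Option (List (Bool × ℕ)))) (P : Pg) (x : ℕ → G) : ℕ → G :=
  P.foldl (fun x b => (step e (netE e W b.1))^[b.2] x) x

/-- The number of steps of a program. -/
def len (P : Pg) : ℕ := (P.map fun b => b.2).sum

theorem prun_append (W : List (Option (List (Bool × ℕ)))) (P P' : Pg) (x : ℕ → G) :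
    prun e W (P ++ P') x = prun e W P' (prun e W P x) := by
  unfold prun
  rw [List.foldl_append]

theorem prun_single (W : List (Option (List (Bool × ℕ)))) (a : List ℕ) (k : ℕ) (x : ℕ → G) :
    prun e W [(a, k)] x = (step e (netE e W a))^[k] x := rfl

theorem len_append (P P' : Pg) : len (P ++ P') = len P + len P' := by
  unfold len
  rw [List.map_append, List.sum_append]

theorem run_add (W : List (Option (List (Bool × ℕ)))) (x : ℕ → G) (u : ℕ → ℕ → G) (s t : ℕ) :
    run e W x u (s + t) = run e W (run e W x u s) (fun i => u (s + i)) t := by
  induction t with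
  | zero => rfl
  | succ t ih => rw [← Nat.add_assoc, run, run, ih]

theorem block_eq_run (W : List (Option (List (Bool × ℕ)))) (a : List ℕ) (x : ℕ → G) (k : ℕ) :
    (step e (netE e W a))^[k] x =
      run e W x (fun _ i => el e (a.getD i (code e 1))) k := by
  induction k with
  | zero => rfl
  | succ k ih =>
    rw [Function.iterate_succ_apply', ih, run]
    exact step_netE e W (fun _ _ => rfl) _

/-- Each program is a run. -/
theorem exists_input (W : List (Option (List (Bool × ℕ)))) (P : Pg) : ∀ x : ℕ → G,
    ∃ u : ℕ → ℕ → G, run e W x u (len P) = prun e W P x := by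
  induction P with
  | nil => intro x; exact ⟨fun _ _ => 1, rfl⟩
  | cons b P ih =>
    intro x
    obtain ⟨a, k⟩ := b
    obtain ⟨u, hu⟩ := ih ((step e (netE e W a))^[k] x)
    refine ⟨fun t => if t < k then fun i => el e (a.getD i (code e 1)) else u (t - k), ?_⟩
    have e1 : len ((a, k) :: P) = k + len P := by simp [len]
    rw [e1, run_add]
    have e2 : run e W x (fun t => if t < k then fun i => el e (a.getD i (code e 1)) else u (t - k))
        k = (step e (netE e W a))^[k] x := by
      rw [block_eq_run]
      refine run_congr e fun t ht => ?_
      simp only [ht, if_true]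
    rw [e2]
    have e3 : prun e W ((a, k) :: P) x = prun e W P ((step e (netE e W a))^[k] x) := rfl
    rw [e3, ← hu]
    refine run_congr e fun t _ => ?_
    rw [if_neg (by omega), Nat.add_sub_cancel_left]

/-- A run with few times of nontrivial inputs is given by a short program. -/
theorem exists_program (W : List (Option (List (Bool × ℕ)))) (x : ℕ → G) (v : ℕ → ℕ → G)
    (B : Finset ℕ) (hB : ∀ t ∉ B, ∀ i, v t i = 1) : ∀ T, ∃ (P : Pg) (k : ℕ),
      prun e W (P ++ [([], k)]) x = run e W x v T ∧ len (P ++ [([], k)]) = T ∧
      P.length ≤ 2 * (B.filter (· < T)).card ∧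
      ∀ b ∈ P, b.1.length ≤ W.length ∧ ∀ c ∈ b.1, c < Fintype.card G := by
  intro T
  induction T with
  | zero => exact ⟨[], 0, rfl, rfl, by simp, by simp⟩
  | succ T ih =>
    obtain ⟨P, k, h1, h2, h3, h4⟩ := ih
    have hsub : B.filter (· < T) ⊆ B.filter (· < T + 1) := by
      intro t ht
      rw [Finset.mem_filter] at ht ⊢
      exact ⟨ht.1, by omega⟩
    by_cases hT : T ∈ B
    · set a : List ℕ := (List.range W.length).map fun i => code e (v T i) with ha
      have hstep : ∀ y, step e (netE e W a) y = nxt e W (v T) y := by
        intro y
        refine step_netE e W (fun i hi => ?_) y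
        rw [ha, getD_map_range _ hi, el_code]
      refine ⟨P ++ [([], k), (a, 1)], 0, ?_, ?_, ?_, ?_⟩
      · have e1 : P ++ [([], k), (a, 1)] ++ [([], 0)] = P ++ [([], k)] ++ ([(a, 1)] ++ [([], 0)]) := by
          simp
        rw [e1, prun_append, h1, prun_append, prun_single, prun_single, Function.iterate_one,
          hstep]
        rfl
      · have e1 : P ++ [([], k), (a, 1)] ++ [([], 0)] = P ++ [([], k)] ++ ([(a, 1)] ++ [([], 0)]) := by
          simp
        rw [e1, len_append, h2]
        rfl
      · have hlt : (B.filter (· < T)).card < (B.filter (· < T + 1)).card := by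
          apply Finset.card_lt_card
          rw [Finset.ssubset_iff_subset_ne]
          refine ⟨hsub, fun heq => ?_⟩
          have : T ∈ B.filter (· < T + 1) := by rw [Finset.mem_filter]; exact ⟨hT, by omega⟩
          rw [← heq, Finset.mem_filter] at this
          omega
        rw [List.length_append]
        simp only [List.length_cons, List.length_nil]
        omega
      · intro b hb
        rw [List.mem_append, List.mem_cons, List.mem_singleton] at hb
        rcases hb with hb | rfl | rfl
        · exact h4 b hb
        · simp
        · refine ⟨by simp [ha], fun c hc => ?_⟩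
          simp only [ha, List.mem_map] at hc
          obtain ⟨i, _, rfl⟩ := hc
          exact code_lt e _
    · refine ⟨P, k + 1, ?_, ?_, ?_, h4⟩
      · have hstep : ∀ y, step e (netE e W []) y = nxt e W (v T) y := by
          intro y
          refine step_netE e W (fun i hi => ?_) y
          rw [hB T hT i, List.getD_nil, el_code]
        rw [prun_append, prun_single, Function.iterate_succ_apply'] at *
        rw [h1, hstep]
        rfl
      · rw [len_append] at h2 ⊢
        simp only [len, List.map_cons, List.map_nil, List.sum_cons, List.sum_nil] at h2 ⊢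
        omega
      · exact h3.trans (Nat.mul_le_mul_left _ (Finset.card_le_card hsub))

end Pool.Agent.W995.CT
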